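import Pool.Agent.Helper741.Exchange

/-! Combinatorics of Coxeter groups: exchange, parabolic subgroups, minimal coset
representatives, longest elements. -/

set_option autoImplicit false

namespace Pool.Agent.W721.ZB

open CoxeterSystem

variable {B : Type*} {M : CoxeterMatrix B} {W : Type*} [Group W] (cs : CoxeterSystem M W)

lemma list_split {α : Type*} (l : List α) (j : ℕ) (hj : j < l.length) :
    l = l.take j ++ l[j] :: l.drop (j + 1) ∧ l.eraseIdx j = l.take j ++ l.drop (j + 1) := by
  constructor
  · rw [List.getElem_cons_drop, List.take_append_drop]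
  · exact List.eraseIdx_eq_take_drop_succ l j

theorem exchange_left (ω : List B) (i : B)
    (h : cs.length (cs.simple i * cs.wordProd ω) < cs.length (cs.wordProd ω)) :
    ∃ α b β, ω = α ++ b :: β ∧ cs.simple i * cs.wordProd ω = cs.wordProd (α ++ β) := by
  obtain ⟨j, hj, e⟩ := Pool.Agent.Helper741.exchange cs ω i h
  obtain ⟨h1, h2⟩ := list_split ω j hj
  exact ⟨_, _, _, h1, by rw [e, h2]⟩

theorem exchange_right (ω : List B) (i : B)
    (h : cs.length (cs.wordProd ω * cs.simple i) < cs.length (cs.wordProd ω)) :
    ∃ α b β, ω = α ++ b :: β ∧ cs.wordProd ω * cs.simple i = cs.wordProd (α ++ β) := by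
  have h' : cs.length (cs.simple i * cs.wordProd ω.reverse) <
      cs.length (cs.wordProd ω.reverse) := by
    rw [cs.wordProd_reverse, cs.length_inv, ← cs.length_inv, mul_inv_rev, inv_inv, cs.inv_simple]
    exact h
  obtain ⟨α, b, β, h1, h2⟩ := exchange_left cs _ i h'
  refine ⟨β.reverse, b, α.reverse, ?_, ?_⟩
  · have := congrArg List.reverse h1
    rw [List.reverse_reverse] at this
    rw [this]
    simp
  · rw [← List.reverse_append, cs.wordProd_reverse, ← h2, cs.wordProd_reverse, mul_inv_rev,
      inv_inv, cs.inv_simple]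

/-- Exchange in a concatenation of two words. -/
theorem exchange_append (μ ν : List B) (i : B)
    (h : cs.length (cs.wordProd (μ ++ ν) * cs.simple i) < cs.length (cs.wordProd (μ ++ ν))) :
    (∃ μ', μ'.length + 1 = μ.length ∧
        cs.wordProd (μ ++ ν) * cs.simple i = cs.wordProd μ' * cs.wordProd ν) ∨
    (∃ ν', ν'.length + 1 = ν.length ∧ (∀ b ∈ ν', b ∈ ν) ∧
        cs.wordProd (μ ++ ν) * cs.simple i = cs.wordProd μ * cs.wordProd ν') := by
  obtain ⟨α, b, β, h1, h2⟩ := exchange_right cs _ i h
  rcases List.append_eq_append_iff.1 h1 with ⟨a', ha, hb⟩ | ⟨c', ha, hb⟩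
  · right
    refine ⟨a' ++ β, ?_, ?_, ?_⟩
    · rw [hb]; simp; omega
    · intro x hx
      rw [hb]
      simp only [List.mem_append, List.mem_cons] at hx ⊢
      tauto
    · rw [h2, ha, List.append_assoc, cs.wordProd_append]
  · cases c' with
    | nil =>
      right
      rw [List.append_nil] at ha
      rw [List.nil_append] at hb
      refine ⟨β, ?_, ?_, ?_⟩
      · rw [← hb]; simp
      · intro x hx
        rw [← hb]; simp [hx]
      · rw [h2, ha, cs.wordProd_append]
    | cons c c'' =>
      left
      rw [List.cons_append, List.cons.injEq] at hb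
      obtain ⟨hb1, hb2⟩ := hb
      refine ⟨α ++ c'', ?_, ?_⟩
      · rw [ha]; simp; omega
      · rw [h2, hb2, ← cs.wordProd_append, List.append_assoc]

/-- The key fact for the commutation of left and right operators. -/
theorem simple_mul_eq_mul_simple (w : W) (s t : B)
    (h1 : cs.length w < cs.length (cs.simple s * w))
    (h2 : cs.length w < cs.length (w * cs.simple t))
    (h3 : cs.length (cs.simple s * w * cs.simple t) < cs.length (w * cs.simple t)) :
    cs.simple s * w = w * cs.simple t := by
  obtain ⟨ω, hω, rfl⟩ := cs.exists_isReduced w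
  have h4 : cs.length (cs.simple s * cs.wordProd (ω ++ [t])) < cs.length (cs.wordProd (ω ++ [t])) := by
    rw [cs.wordProd_append, cs.wordProd_singleton, ← mul_assoc]
    exact h3
  obtain ⟨α, b, β, h5, h6⟩ := exchange_left cs _ s h4
  rw [cs.wordProd_append, cs.wordProd_singleton] at h6
  rcases List.append_eq_append_iff.1 h5 with ⟨a', ha, hb⟩ | ⟨c', ha, hb⟩
  · cases a' with
    | nil =>
      rw [List.nil_append, List.cons.injEq] at hb
      obtain ⟨-, hb⟩ := hb
      rw [← hb, ha, List.append_nil, List.append_nil] at h6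
      have h7 : cs.simple s * cs.wordProd ω * cs.simple t = cs.wordProd ω := by
        rw [mul_assoc]; exact h6
      calc cs.simple s * cs.wordProd ω
          = cs.simple s * cs.wordProd ω * cs.simple t * cs.simple t := by simp
        _ = _ := by rw [h7]
    | cons c c'' => simp at hb
  · cases c' with
    | nil =>
      rw [List.nil_append, List.cons.injEq] at hb
      obtain ⟨-, hb⟩ := hb
      rw [List.append_nil] at ha
      rw [hb, List.append_nil, ← ha] at h6
      have h7 : cs.simple s * cs.wordProd ω * cs.simple t = cs.wordProd ω := by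
        rw [mul_assoc]; exact h6
      calc cs.simple s * cs.wordProd ω
          = cs.simple s * cs.wordProd ω * cs.simple t * cs.simple t := by simp
        _ = _ := by rw [h7]
    | cons c c'' =>
      exfalso
      rw [List.cons_append, List.cons.injEq] at hb
      obtain ⟨hb1, hb2⟩ := hb
      rw [hb2, ← List.append_assoc, cs.wordProd_append (α ++ c''), cs.wordProd_singleton,
        ← mul_assoc, mul_left_inj] at h6
      rw [h6] at h1
      have h7 := cs.length_wordProd_le (α ++ c'')
      have h8 : cs.length (cs.wordProd ω) = ω.length := hω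
      rw [ha] at h8
      rw [ha] at h1
      simp at h7 h8
      omega

/-- The parabolic subgroup generated by the simple reflections in `T`. -/
def par (T : Set B) : Subgroup W := Subgroup.closure (cs.simple '' T)

variable {cs}

lemma simple_mem_par {T : Set B} {t : B} (ht : t ∈ T) : cs.simple t ∈ par cs T :=
  Subgroup.subset_closure ⟨t, ht, rfl⟩

lemma wordProd_mem_par {T : Set B} (ω : List B) (h : ∀ b ∈ ω, b ∈ T) :
    cs.wordProd ω ∈ par cs T := by
  induction ω with
  | nil => simp [Subgroup.one_mem]
  | cons a ω ih =>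
    rw [cs.wordProd_cons]
    exact Subgroup.mul_mem _ (simple_mem_par (h a (by simp)))
      (ih (fun b hb => h b (by simp [hb])))

/-- Elements of a parabolic subgroup have a reduced word in its generators. -/
theorem exists_reduced_of_mem_par {T : Set B} {w : W} (hw : w ∈ par cs T) :
    ∃ ω : List B, (∀ b ∈ ω, b ∈ T) ∧ cs.IsReduced ω ∧ cs.wordProd ω = w := by
  have step : ∀ (w : W), (∃ ω : List B, (∀ b ∈ ω, b ∈ T) ∧ cs.IsReduced ω ∧ cs.wordProd ω = w) →
      ∀ t ∈ T, ∃ ω : List B, (∀ b ∈ ω, b ∈ T) ∧ cs.IsReduced ω ∧ cs.wordProd ω = w * cs.simple t := by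
    rintro w ⟨ω, h1, h2, rfl⟩ t ht
    rcases cs.length_mul_simple (cs.wordProd ω) t with h | h
    · refine ⟨ω ++ [t], ?_, ?_, ?_⟩
      · intro b hb
        rcases List.mem_append.1 hb with hb | hb
        · exact h1 b hb
        · rw [List.mem_singleton.1 hb]; exact ht
      · unfold CoxeterSystem.IsReduced at h2 ⊢
        rw [cs.wordProd_append, cs.wordProd_singleton, h, h2]
        simp
      · rw [cs.wordProd_append, cs.wordProd_singleton]
    · obtain ⟨α, b, β, h3, h4⟩ := exchange_right cs ω t (by omega)
      refine ⟨α ++ β, ?_, ?_, h4.symm⟩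
      · intro x hx
        apply h1
        rw [h3]
        simp only [List.mem_append, List.mem_cons] at hx ⊢
        tauto
      · unfold CoxeterSystem.IsReduced at h2 ⊢
        rw [← h4]
        have : ω.length = (α ++ β).length + 1 := by rw [h3]; simp; omega
        omega
  unfold par at hw
  induction hw using Subgroup.closure_induction_right with
  | one => exact ⟨[], by simp, by simp [CoxeterSystem.IsReduced], by simp⟩
  | mul_right x hx y hy ih =>
    obtain ⟨t, ht, rfl⟩ := hy
    exact step x ih t ht
  | mul_inv_cancel x hx y hy ih =>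
    obtain ⟨t, ht, rfl⟩ := hy
    rw [cs.inv_simple]
    exact step x ih t ht

/-- Induction along reduced words inside a parabolic subgroup. -/
theorem par_induction {T : Set B} {P : W → Prop} (h1 : P 1)
    (h2 : ∀ w ∈ par cs T, ∀ t ∈ T, cs.length w < cs.length (w * cs.simple t) → P w →
      P (w * cs.simple t)) (w : W) (hw : w ∈ par cs T) : P w := by
  obtain ⟨ω, hT, hred, rfl⟩ := exists_reduced_of_mem_par hw
  clear hw
  induction ω using List.reverseRecOn with
  | nil => simpa using h1
  | append_singleton ω t ih =>
    have hred' : cs.IsReduced ω := by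
      have := CoxeterSystem.IsReduced.take hred ω.length
      simpa using this
    rw [cs.wordProd_append, cs.wordProd_singleton]
    refine h2 _ (wordProd_mem_par _ (fun b hb => hT b (by simp [hb]))) t (hT t (by simp)) ?_
      (ih (fun b hb => hT b (by simp [hb])) hred')
    unfold CoxeterSystem.IsReduced at hred hred'
    rw [cs.wordProd_append, cs.wordProd_singleton] at hred
    rw [hred, hred']
    simp

/-- If all elements of `T` are right descents of `w`, then `w` ends in every element of the
parabolic subgroup of `T`. -/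
theorem length_of_descents {T : Set B} {w : W}
    (hT : ∀ t ∈ T, cs.length (w * cs.simple t) < cs.length w) (v : W) (hv : v ∈ par cs T) :
    cs.length w = cs.length (w * v⁻¹) + cs.length v := by
  refine par_induction (T := T) (P := fun v => cs.length w = cs.length (w * v⁻¹) + cs.length v)
    (by simp) ?_ v hv
  intro v hv t ht hlt ih
  obtain ⟨ν, hνT, hνred, rfl⟩ := exists_reduced_of_mem_par hv
  obtain ⟨μ, hμ, hμw⟩ := cs.exists_isReduced (w * (cs.wordProd ν)⁻¹)
  have hw : w = cs.wordProd (μ ++ ν) := by
    rw [cs.wordProd_append, ← hμw]; group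
  have h1 : cs.length (cs.wordProd (μ ++ ν) * cs.simple t) < cs.length (cs.wordProd (μ ++ ν)) := by
    rw [← hw]; exact hT t ht
  unfold CoxeterSystem.IsReduced at hμ hνred
  rw [hνred] at hlt
  rcases cs.length_mul_simple (cs.wordProd ν) t with h5 | h5
  swap
  · omega
  rcases exchange_append cs μ ν t h1 with ⟨μ', h2, h3⟩ | ⟨ν', h2, -, h3⟩
  · rw [← hw] at h3
    have h4 : w * (cs.wordProd ν * cs.simple t)⁻¹ = cs.wordProd μ' := by
      rw [mul_inv_rev, cs.inv_simple, ← mul_assoc, h3]; group
    rw [h4]
    have h6 := cs.length_wordProd_le μ'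
    have h7 := cs.length_mul_le (cs.wordProd μ') (cs.wordProd ν * cs.simple t)
    have h8 : cs.wordProd μ' * (cs.wordProd ν * cs.simple t) = w := by
      rw [← h4]; group
    rw [h8] at h7
    have h9 : cs.length (w * (cs.wordProd ν)⁻¹) = μ.length := by rw [hμw, hμ]
    omega
  · exfalso
    rw [cs.wordProd_append, mul_assoc, mul_right_inj] at h3
    rw [h3] at hlt
    have := cs.length_wordProd_le ν'
    omega

/-- Existence of minimal coset representatives. -/
theorem exists_minrep (T : Set B) (w : W) : ∃ m : W, m⁻¹ * w ∈ par cs T ∧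
    ∀ v ∈ par cs T, cs.length (m * v) = cs.length m + cs.length v := by
  classical
  have hex : ∃ n, ∃ m : W, m⁻¹ * w ∈ par cs T ∧ cs.length m = n :=
    ⟨_, w, by rw [inv_mul_cancel]; exact Subgroup.one_mem _, rfl⟩
  obtain ⟨m, hm, hlen⟩ := Nat.find_spec hex
  have hmin : ∀ m' : W, m'⁻¹ * w ∈ par cs T → cs.length m ≤ cs.length m' := by
    intro m' hm'
    rw [hlen]
    exact Nat.find_min' hex ⟨m', hm', rfl⟩
  refine ⟨m, hm, ?_⟩
  refine par_induction (by simp) ?_
  intro v hv t ht hlt ih
  rw [← mul_assoc]
  have h5 : cs.length (v * cs.simple t) = cs.length v + 1 := by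
    rcases cs.length_mul_simple v t with h5 | h5 <;> omega
  rcases cs.length_mul_simple (m * v) t with h6 | h6
  · omega
  exfalso
  obtain ⟨ν, hνT, hνred, rfl⟩ := exists_reduced_of_mem_par hv
  obtain ⟨μ, hμ, hμw⟩ := cs.exists_isReduced m
  have hw : m * cs.wordProd ν = cs.wordProd (μ ++ ν) := by
    rw [cs.wordProd_append, ← hμw]
  have h1 : cs.length (cs.wordProd (μ ++ ν) * cs.simple t) < cs.length (cs.wordProd (μ ++ ν)) := by
    rw [← hw]; omega
  unfold CoxeterSystem.IsReduced at hμ hνred
  rcases exchange_append cs μ ν t h1 with ⟨μ', h2, h3⟩ | ⟨ν', h2, -, h3⟩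
  · rw [← hw] at h3
    have h8 : cs.wordProd μ' = m * (cs.wordProd ν * cs.simple t * (cs.wordProd ν)⁻¹) := by
      rw [← mul_assoc, ← mul_assoc, h3]; group
    have h9 := hmin (cs.wordProd μ') (by
      rw [h8, mul_inv_rev, mul_assoc]
      refine Subgroup.mul_mem _ (Subgroup.inv_mem _ ?_) hm
      exact Subgroup.mul_mem _ (Subgroup.mul_mem _ hv (simple_mem_par ht)) (Subgroup.inv_mem _ hv))
    have h10 := cs.length_wordProd_le μ'
    have h11 : cs.length m = μ.length := by rw [hμw, hμ]
    omega
  · rw [cs.wordProd_append, mul_assoc, mul_right_inj] at h3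
    rw [h3] at h5
    have := cs.length_wordProd_le ν'
    omega

variable (cs)

/-- The minimal representative of the coset `w W_T`. -/
noncomputable def minrep (T : Set B) (w : W) : W := (exists_minrep (cs := cs) T w).choose

/-- The component of `w` in `W_T`. -/
noncomputable def comp (T : Set B) (w : W) : W := (minrep cs T w)⁻¹ * w

lemma comp_mem (T : Set B) (w : W) : comp cs T w ∈ par cs T :=
  (exists_minrep (cs := cs) T w).choose_spec.1

lemma minrep_mul_comp (T : Set B) (w : W) : minrep cs T w * comp cs T w = w := by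
  unfold comp; group

lemma length_minrep_mul (T : Set B) (w : W) (v : W) (hv : v ∈ par cs T) :
    cs.length (minrep cs T w * v) = cs.length (minrep cs T w) + cs.length v :=
  (exists_minrep (cs := cs) T w).choose_spec.2 v hv

lemma minrep_unique (T : Set B) {m m' : W} (h : m⁻¹ * m' ∈ par cs T)
    (h1 : ∀ v ∈ par cs T, cs.length (m * v) = cs.length m + cs.length v)
    (h2 : ∀ v ∈ par cs T, cs.length (m' * v) = cs.length m' + cs.length v) : m = m' := by
  have e1 := h1 _ h
  have e2 := h2 (m'⁻¹ * m) (by
    have := Subgroup.inv_mem _ h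
    rwa [mul_inv_rev, inv_inv] at this)
  rw [mul_inv_cancel_left] at e1 e2
  have e3 : cs.length (m⁻¹ * m') = 0 := by omega
  rw [cs.length_eq_zero_iff] at e3
  exact (inv_mul_eq_one.1 e3)

lemma minrep_mul (T : Set B) (w v : W) (hv : v ∈ par cs T) :
    minrep cs T (w * v) = minrep cs T w := by
  apply minrep_unique cs T (m := minrep cs T (w * v))
  · have h1 := comp_mem cs T (w * v)
    have h2 := comp_mem cs T w
    have e1 : minrep cs T (w * v) = w * v * (comp cs T (w * v))⁻¹ := by
      rw [eq_mul_inv_iff_mul_eq]; exact minrep_mul_comp cs T _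
    have e2 : minrep cs T w = w * (comp cs T w)⁻¹ := by
      rw [eq_mul_inv_iff_mul_eq]; exact minrep_mul_comp cs T _
    have e3 : (minrep cs T (w * v))⁻¹ * minrep cs T w =
        comp cs T (w * v) * v⁻¹ * (comp cs T w)⁻¹ := by
      rw [e1, e2]; group
    rw [e3]
    exact Subgroup.mul_mem _ (Subgroup.mul_mem _ h1 (Subgroup.inv_mem _ hv)) (Subgroup.inv_mem _ h2)
  · exact length_minrep_mul cs T (w * v)
  · exact length_minrep_mul cs T w

lemma comp_mul (T : Set B) (w v : W) (hv : v ∈ par cs T) :
    comp cs T (w * v) = comp cs T w * v := by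
  unfold comp
  rw [minrep_mul cs T w v hv]; group

lemma length_eq_minrep_comp (T : Set B) (w : W) :
    cs.length w = cs.length (minrep cs T w) + cs.length (comp cs T w) := by
  conv_lhs => rw [← minrep_mul_comp cs T w]
  exact length_minrep_mul cs T w _ (comp_mem cs T w)

lemma minrep_one (T : Set B) : minrep cs T (1 : W) = 1 := by
  have h1 := comp_mem cs T (1 : W)
  have h2 := length_eq_minrep_comp cs T (1 : W)
  rw [cs.length_one] at h2
  exact (cs.length_eq_zero_iff).1 (by omega)

lemma comp_one (T : Set B) : comp cs T (1 : W) = 1 := by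
  unfold comp; rw [minrep_one]; simp

variable {cs} in
/-- A group of bounded length is finite. -/
lemma finite_of_length_le [Finite B] (n : ℕ) : {w : W | cs.length w ≤ n}.Finite := by
  have : {w : W | cs.length w ≤ n} ⊆ cs.wordProd '' {ω : List B | ω.length ≤ n} := by
    intro w hw
    obtain ⟨ω, h1, h2⟩ := cs.exists_isReduced w
    refine ⟨ω, ?_, h2.symm⟩
    change ω.length ≤ n
    rw [← h1, ← h2]; exact hw
  exact Set.Finite.subset ((List.finite_length_le B n).image _) this

variable {cs} in
lemma finite_par_of_descents [Finite B] {T : Set B} {w : W}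
    (hT : ∀ t ∈ T, cs.length (w * cs.simple t) < cs.length w) : (par cs T : Set W).Finite := by
  refine Set.Finite.subset (finite_of_length_le (cs := cs) (cs.length w)) ?_
  intro v hv
  have := length_of_descents hT v hv
  change cs.length v ≤ cs.length w
  omega

end Pool.Agent.W721.ZB
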