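import Pool.Agent.W721.ZB.Defs
import Pool.Agent.W721.ZB.Cox

/-! Combinatorics of buildings: galleries, spheres and gates. -/

set_option autoImplicit false
set_option linter.unusedSectionVars false

namespace Pool.Agent.W721.ZB

open CoxeterSystem

variable {B : Type*} {M : CoxeterMatrix B} {W : Type*} [Group W] {cs : CoxeterSystem M W}
  {C : Type*} (Δ : Building cs C)

namespace Building

lemma dist_self (c : C) : Δ.δ c c = 1 := (Δ.eq_one_iff c c).2 rfl

lemma simple_ne_one (s : B) : cs.simple s ≠ 1 := by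
  intro h
  have := cs.length_simple s
  rw [h, cs.length_one] at this
  omega

lemma symm_simple {c d : C} {s : B} (h : Δ.δ c d = cs.simple s) : Δ.δ d c = cs.simple s := by
  rcases Δ.step c d c s h with h1 | h1
  · exfalso
    rw [Δ.dist_self] at h1
    have := (Δ.eq_one_iff d c).1 h1.symm
    rw [this, Δ.dist_self] at h
    exact simple_ne_one s h.symm
  · rw [Δ.dist_self] at h1
    have := eq_inv_of_mul_eq_one_right h1.symm
    rw [this, cs.inv_simple]

/-- galleries of a given type -/
def Gal : List B → C → C → Prop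
  | [], c, d => c = d
  | s :: ω, c, d => ∃ c', Δ.δ c c' = cs.simple s ∧ Gal ω c' d

lemma gal_append {ω ω' : List B} {c d e : C} (h : Δ.Gal ω c d) (h' : Δ.Gal ω' d e) :
    Δ.Gal (ω ++ ω') c e := by
  induction ω generalizing c with
  | nil => cases h; exact h'
  | cons s ω ih =>
    obtain ⟨c', h1, h2⟩ := h
    exact ⟨c', h1, ih h2⟩

lemma gal_reverse {ω : List B} {c d : C} (h : Δ.Gal ω c d) : Δ.Gal ω.reverse d c := by
  induction ω generalizing c with
  | nil => cases h; rfl
  | cons s ω ih =>
    obtain ⟨c', h1, h2⟩ := h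
    rw [List.reverse_cons]
    exact Δ.gal_append (ih h2) ⟨c, Δ.symm_simple h1, rfl⟩

lemma dist_of_gal {ω : List B} (hω : cs.IsReduced ω) {c d : C} (h : Δ.Gal ω c d) :
    Δ.δ c d = cs.wordProd ω := by
  induction ω generalizing c with
  | nil => cases h; rw [Δ.dist_self, cs.wordProd_nil]
  | cons s ω ih =>
    obtain ⟨c', h1, h2⟩ := h
    have h' : cs.IsReduced ω := by
      have := CoxeterSystem.IsReduced.drop hω 1
      simpa using this
    have h3 := ih h' h2
    rw [cs.wordProd_cons, ← h3]
    refine Δ.step_up c c' d s h1 ?_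
    rw [h3, ← cs.wordProd_cons]
    unfold CoxeterSystem.IsReduced at hω h'
    rw [hω, h']; simp

lemma gal_of_dist {ω : List B} {c d : C} (h : Δ.δ c d = cs.wordProd ω) : Δ.Gal ω c d := by
  induction ω generalizing c with
  | nil => rw [cs.wordProd_nil] at h; exact (Δ.eq_one_iff c d).1 h
  | cons s ω ih =>
    obtain ⟨c', h1, h2⟩ := Δ.exists_step c d s
    refine ⟨c', Δ.symm_simple h1, ih ?_⟩
    rw [h2, h, cs.wordProd_cons, cs.simple_mul_simple_cancel_left]

lemma symm (c d : C) : Δ.δ d c = (Δ.δ c d)⁻¹ := by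
  obtain ⟨ω, h1, h2⟩ := cs.exists_isReduced (Δ.δ c d)
  rw [h2, ← cs.wordProd_reverse]
  exact Δ.dist_of_gal ((cs.isReduced_reverse_iff ω).2 h1) (Δ.gal_reverse (Δ.gal_of_dist h2))

/-- right versions of the axioms -/
lemma rstep {c d d' : C} {s : B} (h : Δ.δ d d' = cs.simple s) :
    Δ.δ c d' = Δ.δ c d ∨ Δ.δ c d' = Δ.δ c d * cs.simple s := by
  rw [Δ.symm d' c, Δ.symm d c]
  rcases Δ.step d' d c s (Δ.symm_simple h) with h1 | h1
  · left; rw [h1]
  · right; rw [h1, mul_inv_rev, cs.inv_simple]

lemma rstep_up {c d d' : C} {s : B} (h : Δ.δ d d' = cs.simple s)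
    (hl : cs.length (Δ.δ c d) < cs.length (Δ.δ c d * cs.simple s)) :
    Δ.δ c d' = Δ.δ c d * cs.simple s := by
  rw [Δ.symm d' c]
  rw [Δ.step_up d' d c s (Δ.symm_simple h), mul_inv_rev, cs.inv_simple, ← Δ.symm]
  rw [Δ.symm c d] at *
  have e1 : cs.length (cs.simple s * (Δ.δ c d)⁻¹) = cs.length (Δ.δ c d * cs.simple s) := by
    rw [← cs.length_inv]; simp
  rw [e1, cs.length_inv]
  rcases cs.length_mul_simple (Δ.δ c d) s with h2 | h2 <;> omega

lemma exists_rstep (c d : C) (s : B) :
    ∃ d', Δ.δ d d' = cs.simple s ∧ Δ.δ c d' = Δ.δ c d * cs.simple s := by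
  obtain ⟨d', h1, h2⟩ := Δ.exists_step d c s
  refine ⟨d', Δ.symm_simple h1, ?_⟩
  rw [Δ.symm d' c, h2, Δ.symm c d]; simp

/-- the distance is additive along reduced decompositions -/
lemma dist_mul {a b : W} (h : cs.length (a * b) = cs.length a + cs.length b) {c d e : C}
    (h1 : Δ.δ c d = a) (h2 : Δ.δ d e = b) : Δ.δ c e = a * b := by
  obtain ⟨α, hα, rfl⟩ := cs.exists_isReduced a
  obtain ⟨β, hβ, rfl⟩ := cs.exists_isReduced b
  rw [← cs.wordProd_append]
  refine Δ.dist_of_gal ?_ (Δ.gal_append (Δ.gal_of_dist h1) (Δ.gal_of_dist h2))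
  unfold CoxeterSystem.IsReduced at *
  rw [cs.wordProd_append, h, hα, hβ, List.length_append]

lemma gal_split {ω ω' : List B} {c e : C} (h : Δ.Gal (ω ++ ω') c e) :
    ∃ d, Δ.Gal ω c d ∧ Δ.Gal ω' d e := by
  induction ω generalizing c with
  | nil => exact ⟨c, rfl, h⟩
  | cons s ω ih =>
    obtain ⟨c', h1, h2⟩ := h
    obtain ⟨d, h3, h4⟩ := ih h2
    exact ⟨d, ⟨c', h1, h3⟩, h4⟩

/-- existence of intermediate chambers -/
lemma exists_between {a b : W} {c e : C} (h1 : Δ.δ c e = a * b) :
    ∃ d, Δ.δ c d = a ∧ Δ.δ d e = b := by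
  obtain ⟨α, hα, rfl⟩ := cs.exists_isReduced a
  obtain ⟨β, hβ, rfl⟩ := cs.exists_isReduced b
  rw [← cs.wordProd_append] at h1
  obtain ⟨d, h2, h3⟩ := Δ.gal_split (Δ.gal_of_dist h1)
  exact ⟨d, Δ.dist_of_gal hα h2, Δ.dist_of_gal hβ h3⟩

lemma panel_trans {a b c : C} {s : B} (h1 : Δ.δ a b = cs.simple s) (h2 : Δ.δ b c = cs.simple s) :
    a = c ∨ Δ.δ a c = cs.simple s := by
  rcases Δ.step a b c s h1 with h | h
  · right; rw [h, h2]
  · left
    rw [h2, cs.simple_mul_simple_self] at h
    exact (Δ.eq_one_iff a c).1 h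

/-- uniqueness of gates -/
lemma gate_unique {c e e' d : C} {s : B} {w : W} (h1 : Δ.δ c e = w) (h2 : Δ.δ c e' = w)
    (hl : cs.length w < cs.length (w * cs.simple s)) (h3 : Δ.δ e d = cs.simple s)
    (h4 : Δ.δ e' d = cs.simple s) : e = e' := by
  rcases Δ.panel_trans h3 (Δ.symm_simple h4) with h | h
  · exact h
  · exfalso
    have h5 := Δ.rstep_up (c := c) h (by rw [h1]; exact hl)
    rw [h1, h2] at h5
    rw [← h5] at hl
    exact lt_irrefl _ hl

/-- uniqueness of intermediate chambers in reduced decompositions -/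
lemma between_unique {a b : W} (h : cs.length (a * b) = cs.length a + cs.length b) {c d d' e : C}
    (h1 : Δ.δ c d = a) (h2 : Δ.δ d e = b) (h1' : Δ.δ c d' = a) (h2' : Δ.δ d' e = b) : d = d' := by
  obtain ⟨β, hβ, rfl⟩ := cs.exists_isReduced b
  induction β using List.reverseRecOn generalizing e with
  | nil =>
    rw [cs.wordProd_nil] at h2 h2'
    rw [(Δ.eq_one_iff _ _).1 h2, (Δ.eq_one_iff _ _).1 h2']
  | append_singleton β s ih =>
    have hβ' : cs.IsReduced β := by
      have := CoxeterSystem.IsReduced.take hβ β.length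
      simpa using this
    have e1 : cs.length (cs.wordProd (β ++ [s])) = β.length + 1 := by rw [hβ]; simp
    have e2 : cs.length (cs.wordProd β) = β.length := hβ'
    rw [cs.wordProd_append, cs.wordProd_singleton] at h h2 h2' e1
    obtain ⟨e1', h3, h4⟩ := Δ.exists_between h2
    obtain ⟨e2', h3', h4'⟩ := Δ.exists_between h2'
    rw [← mul_assoc] at h
    have e3 := cs.length_mul_simple (a * cs.wordProd β) s
    have e4 := cs.length_mul_le a (cs.wordProd β)
    have e5 : cs.length (a * cs.wordProd β) = cs.length a + cs.length (cs.wordProd β) := by omega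
    have h5 := Δ.dist_mul e5 h1 h3
    have h5' := Δ.dist_mul e5 h1' h3'
    have h6 : e1' = e2' := Δ.gate_unique h5 h5' (by omega) h4 h4'
    subst h6
    exact ih hβ' e5 h3 h3'

section Regular

variable {Δ} {q : B → ℕ} (hq : Δ.Regular q)

include hq

lemma Regular.finite_sphere (c : C) (w : W) : {d | Δ.δ c d = w}.Finite := by
  obtain ⟨ω, hω, rfl⟩ := cs.exists_isReduced w
  induction ω using List.reverseRecOn with
  | nil =>
    refine Set.Finite.subset (Set.finite_singleton c) ?_
    intro d hd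
    exact ((Δ.eq_one_iff c d).1 (by simpa using hd)).symm
  | append_singleton ω s ih =>
    have hω' : cs.IsReduced ω := by
      have := CoxeterSystem.IsReduced.take hω ω.length
      simpa using this
    have h1 : ({d | Δ.δ c d = cs.wordProd (ω ++ [s])} : Set C) ⊆
        ⋃ e ∈ {d | Δ.δ c d = cs.wordProd ω}, {d | Δ.δ e d = cs.simple s} := by
      intro d hd
      rw [Set.mem_ofPred_eq, cs.wordProd_append, cs.wordProd_singleton] at hd
      obtain ⟨e, h2, h3⟩ := Δ.exists_between hd
      simp only [Set.mem_iUnion]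
      exact ⟨e, h2, h3⟩
    refine Set.Finite.subset (Set.Finite.biUnion (ih hω') ?_) h1
    intro e _
    refine Set.finite_of_ncard_pos ?_
    rw [(hq s).2 e]
    exact (hq s).1

/-- the sphere of chambers at distance `w` from `c` -/
noncomputable def Regular.sph (c : C) (w : W) : Finset C := (hq.finite_sphere c w).toFinset

@[simp] lemma Regular.mem_sph {c d : C} {w : W} : d ∈ hq.sph c w ↔ Δ.δ c d = w := by
  unfold Regular.sph
  rw [Set.Finite.mem_toFinset]
  rfl

lemma Regular.card_simple (c : C) (s : B) : (hq.sph c (cs.simple s)).card = q s := by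
  rw [← (hq s).2 c]
  unfold Regular.sph
  rw [Set.ncard_eq_toFinset_card _ (hq.finite_sphere c (cs.simple s))]

lemma Regular.sum_sph {E : Type*} [AddCommMonoid E] (F : C → E) (c : C) {w : W} {s : B}
    (h : cs.length w < cs.length (w * cs.simple s)) :
    ∑ d ∈ hq.sph c (w * cs.simple s), F d =
      ∑ e ∈ hq.sph c w, ∑ d ∈ hq.sph e (cs.simple s), F d := by
  classical
  rw [← Finset.sum_biUnion]
  · refine Finset.sum_congr ?_ fun _ _ => rfl
    ext d
    simp only [Finset.mem_biUnion, Regular.mem_sph]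
    constructor
    · intro hd
      exact Δ.exists_between hd
    · rintro ⟨e, h1, h2⟩
      refine Δ.dist_mul ?_ h1 h2
      rw [cs.length_simple]
      rcases cs.length_mul_simple w s with h3 | h3 <;> omega
  · intro e he e' he' hne
    rw [Function.onFun, Finset.disjoint_left]
    intro d hd hd'
    rw [Regular.mem_sph] at hd hd'
    simp only [Finset.mem_coe, Regular.mem_sph] at he he'
    exact hne (Δ.gate_unique he he' h hd hd')

lemma Regular.card_sph (c : C) (ω : List B) (hω : cs.IsReduced ω) :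
    (hq.sph c (cs.wordProd ω)).card = (ω.map q).prod := by
  induction ω using List.reverseRecOn with
  | nil =>
    rw [cs.wordProd_nil, List.map_nil, List.prod_nil, Finset.card_eq_one]
    refine ⟨c, ?_⟩
    ext d
    rw [Regular.mem_sph, Finset.mem_singleton, Δ.eq_one_iff, eq_comm]
  | append_singleton ω s ih =>
    have hω' : cs.IsReduced ω := by
      have := CoxeterSystem.IsReduced.take hω ω.length
      simpa using this
    have e1 : cs.length (cs.wordProd (ω ++ [s])) = ω.length + 1 := by rw [hω]; simp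
    have e2 : cs.length (cs.wordProd ω) = ω.length := hω'
    rw [cs.wordProd_append, cs.wordProd_singleton] at e1 ⊢
    rw [Finset.card_eq_sum_ones, hq.sum_sph _ _ (by omega)]
    simp only [Finset.sum_const, hq.card_simple, ih hω', smul_eq_mul,
      List.map_append, List.prod_append, List.map_cons, List.map_nil, List.prod_cons, List.prod_nil,
      mul_one]

/-- the panel of type `s` of `c` -/
noncomputable def Regular.pan (c : C) (s : B) : Finset C :=
  Finset.cons c (hq.sph c (cs.simple s)) (by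
    rw [Regular.mem_sph, Δ.dist_self]
    exact fun h => simple_ne_one s h.symm)

lemma Regular.mem_pan {c d : C} {s : B} : d ∈ hq.pan c s ↔ d = c ∨ Δ.δ c d = cs.simple s := by
  unfold Regular.pan
  rw [Finset.mem_cons, Regular.mem_sph]

lemma Regular.pan_eq {c d : C} {s : B} (h : Δ.δ c d = cs.simple s) : hq.pan c s = hq.pan d s := by
  ext e
  rw [Regular.mem_pan, Regular.mem_pan]
  constructor
  · rintro (rfl | h1)
    · exact Or.inr (Δ.symm_simple h)
    · rcases Δ.panel_trans (Δ.symm_simple h) h1 with h2 | h2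
      · exact Or.inl h2.symm
      · exact Or.inr h2
  · rintro (rfl | h1)
    · exact Or.inr h
    · rcases Δ.panel_trans h h1 with h2 | h2
      · exact Or.inl h2.symm
      · exact Or.inr h2

lemma Regular.sum_pan {E : Type*} [AddCommMonoid E] (F : C → E) (c : C) (s : B) :
    ∑ d ∈ hq.pan c s, F d = F c + ∑ d ∈ hq.sph c (cs.simple s), F d := by
  unfold Regular.pan
  rw [Finset.sum_cons]

/-- all panel sums of type `s` vanish -/
def Regular.PanZ {E : Type*} [AddCommMonoid E] (s : B) (F : C → E) : Prop :=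
  ∀ c, ∑ d ∈ hq.pan c s, F d = 0

lemma Regular.panZ_of_gate {E : Type*} [AddCommMonoid E] {s : B} {F : C → E} (c0 : C)
    (h : ∀ d, cs.length (Δ.δ c0 d) < cs.length (Δ.δ c0 d * cs.simple s) →
      ∑ d ∈ hq.pan d s, F d = 0) : hq.PanZ s F := by
  intro c
  by_cases h1 : cs.length (Δ.δ c0 c) < cs.length (Δ.δ c0 c * cs.simple s)
  · exact h c h1
  · obtain ⟨e, h2, h3⟩ := Δ.exists_rstep c0 c s
    rw [hq.pan_eq h2]
    apply h
    rw [h3]
    simp only [mul_assoc, cs.simple_mul_simple_self, mul_one]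
    rcases cs.length_mul_simple (Δ.δ c0 c) s with h4 | h4 <;> omega

lemma Regular.sum_sph_of_panZ {E : Type*} [AddCommGroup E] {s : B} {F : C → E}
    (hF : hq.PanZ s F) (c : C) {w : W} (h : cs.length w < cs.length (w * cs.simple s)) :
    ∑ d ∈ hq.sph c (w * cs.simple s), F d = - ∑ e ∈ hq.sph c w, F e := by
  rw [hq.sum_sph F c h, ← Finset.sum_neg_distrib]
  refine Finset.sum_congr rfl fun e _ => ?_
  have := hF e
  rw [hq.sum_pan] at this
  exact eq_neg_of_add_eq_zero_right this

lemma Regular.sum_sph_par {E : Type*} [AddCommGroup E] {T : Set B} {F : C → E}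
    (hF : ∀ s ∈ T, hq.PanZ s F) (c : C) : ∀ u ∈ par cs T,
    ∑ d ∈ hq.sph c u, F d = ((-1 : ℤ) ^ cs.length u) • F c := by
  refine par_induction ?_ ?_
  · rw [cs.length_one, pow_zero, one_smul]
    have : hq.sph c 1 = {c} := by
      ext d
      rw [Regular.mem_sph, Finset.mem_singleton, Δ.eq_one_iff, eq_comm]
    rw [this, Finset.sum_singleton]
  · intro w hw t ht hlt ih
    rw [hq.sum_sph_of_panZ (hF t ht) c hlt, ih]
    have : cs.length (w * cs.simple t) = cs.length w + 1 := by
      rcases cs.length_mul_simple w t with h4 | h4 <;> omega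
    rw [this, pow_succ]
    simp

end Regular

end Building

end Pool.Agent.W721.ZB
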