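import Pool.Agent.W721.ZB.CHil

/-! Exactness of the Hilbert complex of the chambers. -/

set_option autoImplicit false
set_option linter.unusedSectionVars false

open scoped Matrix ENNReal
open Pool.Agent.H919R4.ZS

namespace Pool.Agent.W721.ZB

universe u

lemma summable_sq_add {ι : Type*} {a b : ι → ℂ} (ha : Summable fun i => ‖a i‖ ^ 2)
    (hb : Summable fun i => ‖b i‖ ^ 2) : Summable fun i => ‖a i + b i‖ ^ 2 := by
  refine Summable.of_nonneg_of_le (fun i => by positivity) (fun i => ?_) ((ha.add hb).mul_left 2)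
  have h1 := norm_add_le (a i) (b i)
  calc _ ≤ (‖a i‖ + ‖b i‖) ^ 2 := by gcongr
    _ ≤ 2 * (‖a i‖ ^ 2 + ‖b i‖ ^ 2) := by nlinarith [sq_nonneg (‖a i‖ - ‖b i‖)]

lemma summable_coord {I : Type*} (Φ : HS I) : Summable fun i => ‖Φ i‖ ^ 2 := by
  have h2 : (2 : ℝ≥0∞).toReal = ((2 : ℕ) : ℝ) := by norm_num
  have h1 := (lp.memℓp Φ).summable two_toReal_pos
  simpa only [h2, Real.rpow_natCast] using h1

namespace Building

variable {B : Type*} {M : CoxeterMatrix B} {W : Type*} [Group W] {cs : CoxeterSystem M W}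
  {C : Type*} {Δ : Building cs C} {q : B → ℕ} (hq : Δ.Regular q)
  [Fintype B] [LinearOrder B]

/-- the functional of an element of the Hilbert space -/
noncomputable def thA (Φ : HS (Finset B × C)) : (Finset B → (C →₀ ℚ)) →+ ℂ where
  toFun F := inner ℂ (emb F) Φ
  map_zero' := by simp
  map_add' F G := by rw [map_add, inner_add_left]

lemma thA_apply (Φ : HS (Finset B × C)) (F : Finset B → (C →₀ ℚ)) :
    thA Φ F = inner ℂ (emb F) Φ := rfl

lemma thA_single (Φ : HS (Finset B × C)) (T : Finset B) (c : C) (a : ℚ) :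
    thA Φ (Pi.single T (Finsupp.single c a)) = (a : ℂ) * Φ (T, c) := by
  classical
  rw [thA_apply, inner_emb, Finset.sum_eq_single T]
  · rw [Pi.single_eq_same]
    change (Finsupp.single c a).sum (fun d a => (a : ℂ) * Φ (T, d)) = _
    rw [Finsupp.sum_single_index (by simp)]
  · intro S _ hS
    rw [Pi.single_eq_of_ne hS]; simp
  · intro h; exact absurd (Finset.mem_univ T) h

/-- induction on families of finitely supported functions -/
lemma fam_induction {P : (Finset B → (C →₀ ℚ)) → Prop} (h0 : P 0)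
    (hadd : ∀ F G, P F → P G → P (F + G))
    (hsingle : ∀ T c a, P (Pi.single T (Finsupp.single c a))) (F : Finset B → (C →₀ ℚ)) : P F := by
  classical
  have h1 : ∀ T (g : C →₀ ℚ), P (Pi.single T g) := by
    intro T g
    induction g using Finsupp.induction_linear with
    | zero => rw [Pi.single_zero]; exact h0
    | add x y hx hy => rw [Pi.single_add]; exact hadd _ _ hx hy
    | single c a => exact hsingle T c a
  have h2 : ∀ S : Finset (Finset B), P (∑ T ∈ S, Pi.single T (F T)) := by
    intro S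
    induction S using Finset.induction_on with
    | empty => rw [Finset.sum_empty]; exact h0
    | insert a S ha ih => rw [Finset.sum_insert ha]; exact hadd _ _ (h1 _ _) ih
  have h3 := h2 Finset.univ
  rwa [Finset.univ_sum_single] at h3

section Action

variable {Γ : Type*} [Group Γ] [MulAction Γ C]
  (hfree : ∀ (γ : Γ) (c : C), γ • c = c → γ = 1)

attribute [local instance] permMod

lemma pi_smul_single (γ : Γ) (a : ℚ) (T : Finset B) (g : C →₀ ℚ) :
    (MonoidAlgebra.single γ a : MonoidAlgebra ℚ Γ) • (Pi.single T g : Finset B → (C →₀ ℚ)) =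
      Pi.single T ((MonoidAlgebra.single γ a : MonoidAlgebra ℚ Γ) • g) := by
  classical
  funext S
  rw [Pi.smul_apply]
  by_cases h : S = T
  · subst h; rw [Pi.single_eq_same, Pi.single_eq_same]
  · rw [Pi.single_eq_of_ne h, Pi.single_eq_of_ne h, smul_zero]

include hfree in
lemma L2f_thA (Φ : HS (Finset B × C)) : L2f (Γ := Γ) (thA Φ) := by
  intro F
  refine fam_induction (P := fun F => Summable (fun γ : Γ =>
    ‖thA Φ ((MonoidAlgebra.single γ (1 : ℚ) : MonoidAlgebra ℚ Γ) • F)‖ ^ 2)) ?_ ?_ ?_ F
  · simp only [smul_zero, map_zero, norm_zero]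
    simp
  · intro F G hF hG
    simp only [smul_add, map_add]
    exact summable_sq_add hF hG
  · intro T c a
    have hinj : Function.Injective (fun γ : Γ => (T, γ • c)) := by
      intro γ γ' h
      have h1 : γ • c = γ' • c := (Prod.mk.inj h).2
      have h2 : (γ'⁻¹ * γ) • c = c := by rw [mul_smul, h1, inv_smul_smul]
      exact (inv_mul_eq_one.1 (hfree _ _ h2)).symm
    refine (((summable_coord Φ).comp_injective hinj).mul_left (‖(a : ℂ)‖ ^ 2)).congr fun γ => ?_
    rw [pi_smul_single, single_smul_single, thA_single, one_mul, norm_mul, mul_pow]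
    rfl

variable [Finite (MulAction.orbitRel.Quotient Γ C)]

lemma summable_orbits (f : C → ℝ) (h0 : ∀ c, 0 ≤ f c) (h : ∀ c, Summable fun γ : Γ => f (γ • c)) :
    Summable f := by
  classical
  let F : MulAction.orbitRel.Quotient Γ C × Γ → ℝ := fun p => f (p.2 • p.1.out)
  have hF : Summable F := by
    rw [summable_prod_of_nonneg (fun p => h0 _)]
    refine ⟨fun x => h x.out, ?_⟩
    cases nonempty_fintype (MulAction.orbitRel.Quotient Γ C)
    exact Summable.of_finite
  have hex : ∀ c : C, ∃ γ : Γ, γ • (Quotient.mk (MulAction.orbitRel Γ C) c).out = c := by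
    intro c
    have h : (MulAction.orbitRel Γ C) c (Quotient.mk (MulAction.orbitRel Γ C) c).out :=
      Quotient.exact (Quotient.out_eq (Quotient.mk (MulAction.orbitRel Γ C) c)).symm
    exact MulAction.mem_orbit_iff.1 (MulAction.orbitRel_apply.1 h)
  choose σ hσ using hex
  have hinj : Function.Injective (fun c : C =>
      ((Quotient.mk (MulAction.orbitRel Γ C) c : MulAction.orbitRel.Quotient Γ C), σ c)) := by
    intro c c' hcc
    simp only [Prod.mk.injEq] at hcc
    rw [← hσ c, ← hσ c', hcc.1, hcc.2]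
  refine (hF.comp_injective hinj).congr fun c => ?_
  simp only [Function.comp_apply, F]
  rw [hσ]

variable (hδ : ∀ (γ : Γ) (c d : C), Δ.δ (γ • c) (γ • d) = Δ.δ c d) (c0 : C)

/-- the element of the Hilbert space of a family of `ℓ²`-functionals -/
noncomputable def Psi (ψ : ∀ k, Kmod hq hδ k →+ ℂ) (hψ : ∀ k, L2f (Γ := Γ) (ψ k)) :
    HS (Finset B × C) :=
  ⟨fun y => ψ y.1.card (ret hq hδ c0 y.1.card (Pi.single y.1 (Finsupp.single y.2 1))), by
    have h2 : (2 : ℝ≥0∞).toReal = ((2 : ℕ) : ℝ) := by norm_num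
    refine memℓp_gen ?_
    simp only [h2, Real.rpow_natCast]
    rw [summable_prod_of_nonneg (fun p => by positivity)]
    refine ⟨fun T => ?_, Summable.of_finite⟩
    refine summable_orbits (Γ := Γ) _ (fun c => by positivity) fun c => ?_
    refine (hψ T.card (ret hq hδ c0 T.card (Pi.single T (Finsupp.single c 1)))).congr fun γ => ?_
    simp only
    rw [← (ret hq hδ c0 T.card).map_smul, pi_smul_single, single_smul_single, one_mul]⟩

lemma Psi_apply (ψ : ∀ k, Kmod hq hδ k →+ ℂ) (hψ : ∀ k, L2f (Γ := Γ) (ψ k)) (T : Finset B) (c : C) :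
    Psi hq hδ c0 ψ hψ (T, c) =
      ψ T.card (ret hq hδ c0 T.card (Pi.single T (Finsupp.single c 1))) := rfl

lemma ret_single {k : ℕ} {T : Finset B} (h : ¬ (Sph cs T ∧ T.card = k)) (g : C →₀ ℚ) :
    ret hq hδ c0 k (Pi.single T g) = 0 := by
  classical
  apply Subtype.ext
  funext S
  rw [ret_apply]
  by_cases hS : S = T
  · subst hS; rw [if_neg h]; rfl
  · rw [Pi.single_eq_of_ne hS, map_zero, ite_self]; rfl

lemma inEC_Psi (ψ : ∀ k, Kmod hq hδ k →+ ℂ) (hψ : ∀ k, L2f (Γ := Γ) (ψ k)) :
    InEC hq (Psi hq hδ c0 ψ hψ) := by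
  classical
  intro T
  constructor
  · intro h c
    rw [Psi_apply, ret_single hq hδ c0 (fun h' => h h'.1), map_zero]
  · intro s hs c
    simp only [Psi_apply]
    rw [← map_sum, ← map_sum]
    have h1 : ∑ d ∈ hq.pan c s, (Pi.single T (Finsupp.single d 1) : Finset B → (C →₀ ℚ)) =
        Pi.single T (∑ d ∈ hq.pan c s, Finsupp.single d 1) := by
      funext S
      rw [Finset.sum_apply]
      by_cases hS : S = T
      · subst hS; simp only [Pi.single_eq_same]
      · simp only [Pi.single_eq_of_ne hS]; simp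
    have h2 : ret hq hδ c0 T.card (Pi.single T (∑ d ∈ hq.pan c s, Finsupp.single d 1)) = 0 := by
      apply Subtype.ext
      funext S
      rw [ret_apply]
      by_cases hS : S = T
      · subst hS
        rw [Pi.single_eq_same, map_sum]
        split_ifs
        · ext e
          rw [Finsupp.finsetSum_apply]
          simp only [PQ_single, one_smul]
          have h3 : ∀ d ∈ hq.pan c s, pk hq c0 S d e = pk hq c0 S e d := fun d _ => pk_symm hq c0 S d e
          rw [Finset.sum_congr rfl h3, panZ_pk hq c0 S hs e c]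
          rfl
        · rfl
      · rw [Pi.single_eq_of_ne hS, map_zero, ite_self]; rfl
    rw [h1, h2, map_zero]

/-- the element represents the functionals -/
lemma inner_Psi (ψ : ∀ k, Kmod hq hδ k →+ ℂ) (hψ : ∀ k, L2f (Γ := Γ) (ψ k)) (k : ℕ)
    (F : Kmod hq hδ k) : inner ℂ (emb F.1) (Psi hq hδ c0 ψ hψ) = ψ k F := by
  classical
  have key : ∀ F : Finset B → (C →₀ ℚ), (∀ T, F T ≠ 0 → T.card = k) →
      inner ℂ (emb F) (Psi hq hδ c0 ψ hψ) = ψ k (ret hq hδ c0 k F) := by
    intro F hF
    have e1 : F = ∑ T : Finset B, ∑ c ∈ (F T).support,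
        F T c • (Pi.single T (Finsupp.single c (1 : ℚ)) : Finset B → (C →₀ ℚ)) := by
      funext S
      rw [Finset.sum_apply, Finset.sum_eq_single S]
      · rw [Finset.sum_apply]
        conv_lhs => rw [← Finsupp.sum_single (F S)]
        refine Finset.sum_congr rfl fun c _ => ?_
        rw [Pi.smul_apply, Pi.single_eq_same, Finsupp.smul_single, smul_eq_mul, mul_one]
      · intro T _ hT
        rw [Finset.sum_apply]
        refine Finset.sum_eq_zero fun c _ => ?_
        rw [Pi.smul_apply, Pi.single_eq_of_ne hT.symm, smul_zero]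
      · intro h; exact absurd (Finset.mem_univ S) h
    have e2 : ψ k (ret hq hδ c0 k F) = ∑ T : Finset B, ∑ c ∈ (F T).support, ((F T c : ℚ) : ℂ) *
        ψ k (ret hq hδ c0 k (Pi.single T (Finsupp.single c 1))) := by
      let ψ' : (Finset B → (C →₀ ℚ)) →+ ℂ := (ψ k).comp (ret hq hδ c0 k).toAddMonoidHom
      change ψ' F = _
      conv_lhs => rw [e1]
      rw [map_sum]
      refine Finset.sum_congr rfl fun T _ => ?_
      rw [map_sum]
      refine Finset.sum_congr rfl fun c _ => ?_
      rw [map_rat_smul ψ', Rat.smul_def]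
      rfl
    rw [inner_emb, e2]
    refine Finset.sum_congr rfl fun T _ => Finset.sum_congr rfl fun c hc => ?_
    have h1 : F T ≠ 0 := by
      intro h; rw [h] at hc; simp at hc
    rw [Psi_apply, hF T h1]
  rw [key F.1 (fun T h => ((F.2 T).1 h).2), ret_of_mem]

end Action

end Building

end Pool.Agent.W721.ZB
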