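import Pool.Agent.W721.ZB.CEx

/-! Coercivity on the level of the building, and the contradiction via radial functions. -/

set_option autoImplicit false
set_option linter.unusedSectionVars false

open scoped Matrix ENNReal
open Pool.Agent.H919R4.ZS

namespace Pool.Agent.W721.ZB

universe u

namespace Building

variable {B : Type*} {M : CoxeterMatrix B} {W : Type*} [Group W] {cs : CoxeterSystem M W}
  {C : Type*} {Δ : Building cs C} {q : B → ℕ} (hq : Δ.Regular q)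
  [Fintype B] [LinearOrder B]

section Exact

variable {G : Type u} [Group G] (H : Subgroup G) [H.FiniteIndex]
  [MulAction H C] [Finite (MulAction.orbitRel.Quotient H C)]
  (hδ : ∀ (γ : H) (c d : C), Δ.δ (γ • c) (γ • d) = Δ.δ c d)
  (hfree : ∀ (γ : H) (c : C), γ • c = c → γ = 1) (X : FinRes G) (hV : VanAll X) (c0 : C)

attribute [local instance] permMod pMod

include H hδ hfree X hV c0

/-- exactness, in terms of pairings with finitely supported chains -/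
theorem exact_pair (Φ : HS (Finset B × C))
    (h : ∀ k (F : Finset B → (C →₀ ℚ)), InK hq (k + 1) F → inner ℂ (emb (low F)) Φ = 0) :
    ∃ Ψ, InEC hq Ψ ∧ ∀ k (F : Finset B → (C →₀ ℚ)), InK hq k F →
      inner ℂ (emb F) Φ = inner ℂ (emb (low F)) Ψ := by
  let θ : ∀ k, Kmod hq hδ k →+ ℂ := fun k => (thA Φ).comp (Kmod hq hδ k).subtype.toAddMonoidHom
  have hθ : ∀ k, L2f (Γ := H) (θ k) := fun k => (L2f_thA hfree Φ).comp _
  have hθd : ∀ k x, θ k (dK hq hδ k x) = 0 := fun k x => h k x.1 x.2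
  have h0 := transfer_zero hq H hδ hfree X hV c0 (θ 0) (hθ 0) (hθd 0)
  choose ψ hψ hψ' using fun k => transfer_succ hq H hδ hfree X hV c0 k (θ (k + 1)) (hθ (k + 1))
    (hθd (k + 1))
  refine ⟨Psi hq hδ c0 ψ hψ, inEC_Psi hq hδ c0 ψ hψ, ?_⟩
  intro k F hF
  cases k with
  | zero =>
    rw [InK.low_zero hF, map_zero, inner_zero_left]
    exact h0 ⟨F, hF⟩
  | succ k =>
    have e1 := inner_Psi hq hδ c0 ψ hψ k (dK hq hδ k ⟨F, hF⟩)
    have e2 := hψ' k ⟨F, hF⟩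
    rw [← e1] at e2
    exact e2

/-- coercivity on the level of the building -/
theorem coercive_C : ∃ (K : ℝ) (δ : HS (Finset B × C) → HS (Finset B × C)), 0 < K ∧
    ∀ Φ, InEC hq Φ → InEC hq (δ Φ) ∧ (∀ Ψ, InEC hq Ψ → inner ℂ (δ Φ) Ψ = inner ℂ Φ (ND Ψ)) ∧
      ‖Φ‖ ≤ K * (‖ND Φ‖ + ‖δ Φ‖) := by
  classical
  have hc : CompleteSpace (EC hq) := (isClosed_EC hq).completeSpace_coe
  let d : EC hq →L[ℂ] EC hq := ((ND : HS (Finset B × C) →L[ℂ] HS (Finset B × C)).comp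
    (EC hq).subtypeL).codRestrict (EC hq) (fun x => inEC_ND hq x.2)
  have hd : ∀ x, ((d x : EC hq) : HS (Finset B × C)) = ND (x : HS (Finset B × C)) := fun x => rfl
  let δ : EC hq →L[ℂ] EC hq := ContinuousLinearMap.adjoint d
  have hadj : ∀ x y : EC hq, inner ℂ (δ x) y = inner ℂ x (d y) := fun x y =>
    ContinuousLinearMap.adjoint_inner_left d y x
  have hadj' : ∀ x y : EC hq, inner ℂ (y : HS (Finset B × C)) (δ x : HS (Finset B × C)) =
      inner ℂ (ND (y : HS (Finset B × C))) (x : HS (Finset B × C)) := by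
    intro x y
    have := hadj x y
    rw [← inner_conj_symm, ← inner_conj_symm (ND (y : HS (Finset B × C)))]
    exact congrArg _ this
  have hδδ : ∀ x, δ (δ x) = 0 := by
    intro x
    refine ext_inner_right ℂ fun y => ?_
    rw [hadj, hadj, inner_zero_left]
    have : d (d y) = 0 := Subtype.ext (ND_ND _)
    rw [this, inner_zero_right]
  have hex : ∀ x, δ x = 0 → ∃ y, δ y = x := by
    intro x hx
    obtain ⟨Ψ, hΨ, hΨ'⟩ := exact_pair hq H hδ hfree X hV c0 (x : HS (Finset B × C)) (by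
      intro k F hF
      have h1 := hadj' x ⟨emb F, inEC_emb hq hF⟩
      rw [hx] at h1
      rw [← ND_emb]
      simpa using h1.symm)
    refine ⟨⟨Ψ, hΨ⟩, ?_⟩
    apply Subtype.ext
    ext ⟨T, c⟩
    by_cases hT : Sph cs T
    · rw [← inner_pE hq c0 hT c (δ ⟨Ψ, hΨ⟩).2, ← inner_pE hq c0 hT c x.2]
      have h1 := hadj' ⟨Ψ, hΨ⟩ ⟨emb (pE hq c0 T c), inEC_emb hq (inK_pE hq c0 hT c)⟩
      rw [hΨ' _ _ (inK_pE hq c0 hT c), ← ND_emb]
      exact h1
    · rw [((δ ⟨Ψ, hΨ⟩).2 T).1 hT, (x.2 T).1 hT]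
  obtain ⟨K, hK, hK'⟩ := coercive_of_exact d δ hadj hδδ hex
  refine ⟨K, fun Φ => if h : Φ ∈ EC hq then (δ ⟨Φ, h⟩ : HS (Finset B × C)) else 0, hK, ?_⟩
  intro Φ hΦ
  have e : (if h : Φ ∈ EC hq then (δ ⟨Φ, h⟩ : HS (Finset B × C)) else 0) = δ ⟨Φ, hΦ⟩ := dif_pos hΦ
  simp only [e]
  exact ⟨(δ ⟨Φ, hΦ⟩).2, fun Ψ hΨ => hadj ⟨Φ, hΦ⟩ ⟨Ψ, hΨ⟩, hK' ⟨Φ, hΦ⟩⟩

end Exact

end Building

end Pool.Agent.W721.ZB
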