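import Pool.Agent.W721.ZB.XFun

/-! Transfer of the vanishing from the resolution to the complex of the chambers, for
`ℓ²`-functionals. -/

set_option autoImplicit false
set_option linter.unusedSectionVars false

open scoped Matrix ENNReal
open Pool.Agent.H919R4.ZS

namespace Pool.Agent.W721.ZB

universe u

namespace Building

variable {B : Type*} {M : CoxeterMatrix B} {W : Type*} [Group W] {cs : CoxeterSystem M W}
  {C : Type*} {Δ : Building cs C} {q : B → ℕ} (hq : Δ.Regular q)
  [Fintype B] [LinearOrder B] {G : Type u} [Group G] (H : Subgroup G) [H.FiniteIndex]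
  [MulAction H C] (hδ : ∀ (γ : H) (c d : C), Δ.δ (γ • c) (γ • d) = Δ.δ c d)
  (hfree : ∀ (γ : H) (c : C), γ • c = c → γ = 1) (X : FinRes G) (hV : VanAll X) (c0 : C)

attribute [local instance] permMod pMod

include hfree hV c0

/-- the transfer of the vanishing in degree zero -/
theorem transfer_zero (θ : Kmod hq hδ 0 →+ ℂ) (hθ : L2f (Γ := H) θ)
    (h : ∀ x, θ (dK hq hδ 0 x) = 0) (x : Kmod hq hδ 0) : θ x = 0 := by
  obtain ⟨f, g, hh, h1, h2, h3, h4⟩ := comparison
    (K := fun k => Kmod hq hδ k) (X := fun k => Fin (X.n k) → MonoidAlgebra ℚ G)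
    (fun k => Kmod_projective hq hδ c0 hfree k)
    (fun k => pi_projective _ (fun _ => pMod_projective H)) (resK hq hδ c0) (resX H X)
  have e1 := acyclic_zero H X hV (θ.comp (g 0).toAddMonoidHom) (hθ.comp (g 0)) (fun x => by
    change θ (g 0 (dX H X 0 x)) = 0
    have := h2 0 x
    change dK hq hδ 0 (g 1 x) = g 0 (dX H X 0 x) at this
    rw [← this, h])
  have e2 := h3 x
  have e3 := e1 (f 0 x)
  change θ (g 0 (f 0 x)) = 0 at e3
  rw [e2, map_add] at e3
  have e4 : θ ((resK hq hδ c0).d 0 (hh 0 x)) = 0 := h _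
  rwa [e4, add_zero] at e3

/-- the transfer of the vanishing in positive degrees -/
theorem transfer_succ (k : ℕ) (θ : Kmod hq hδ (k + 1) →+ ℂ) (hθ : L2f (Γ := H) θ)
    (h : ∀ x, θ (dK hq hδ (k + 1) x) = 0) :
    ∃ ψ : Kmod hq hδ k →+ ℂ, L2f (Γ := H) ψ ∧ ∀ x, θ x = ψ (dK hq hδ k x) := by
  obtain ⟨f, g, hh, h1, h2, h3, h4⟩ := comparison
    (K := fun k => Kmod hq hδ k) (X := fun k => Fin (X.n k) → MonoidAlgebra ℚ G)
    (fun k => Kmod_projective hq hδ c0 hfree k)
    (fun k => pi_projective _ (fun _ => pMod_projective H)) (resK hq hδ c0) (resX H X)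
  obtain ⟨η, hη, e1⟩ := acyclic_succ H X hV k (θ.comp (g (k + 1)).toAddMonoidHom)
    (hθ.comp (g (k + 1))) (fun x => by
      change θ (g (k + 1) (dX H X (k + 1) x)) = 0
      have := h2 (k + 1) x
      change dK hq hδ (k + 1) (g (k + 2) x) = g (k + 1) (dX H X (k + 1) x) at this
      rw [← this, h])
  refine ⟨η.comp (f k).toAddMonoidHom - θ.comp (hh k).toAddMonoidHom,
    (hη.comp (f k)).sub (hθ.comp (hh k)), fun x => ?_⟩
  change θ x = η (f k (dK hq hδ k x)) - θ (hh k (dK hq hδ k x))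
  have e2 := e1 (f (k + 1) x)
  change θ (g (k + 1) (f (k + 1) x)) = η (dX H X k (f (k + 1) x)) at e2
  have e3 := h1 k x
  change dX H X k (f (k + 1) x) = f k (dK hq hδ k x) at e3
  have e4 := h4 k x
  change g (k + 1) (f (k + 1) x) = x + dK hq hδ (k + 1) (hh (k + 1) x) + hh k (dK hq hδ k x) at e4
  rw [e3, e4, map_add, map_add, h, add_zero] at e2
  rw [← e2]
  ring

end Building

end Pool.Agent.W721.ZB
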