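import Pool.Agent.W721.ZB.CFun

/-! The Hilbert space of the chambers. -/

set_option autoImplicit false
set_option linter.unusedSectionVars false

open scoped Matrix ENNReal
open Pool.Agent.H919R4.ZS

namespace Pool.Agent.W721.ZB

universe u

namespace Building

variable {B : Type*} {M : CoxeterMatrix B} {W : Type*} [Group W] {cs : CoxeterSystem M W}
  {C : Type*} {Δ : Building cs C} {q : B → ℕ} (hq : Δ.Regular q)
  [Fintype B] [LinearOrder B]

/-- the square summable chains with vanishing panel sums -/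
def InEC (Φ : HS (Finset B × C)) : Prop :=
  ∀ T : Finset B, (¬ Sph cs T → ∀ c, Φ (T, c) = 0) ∧ ∀ s ∈ T, hq.PanZ s (fun c => Φ (T, c))

/-- the closed subspace of these chains -/
def EC : Submodule ℂ (HS (Finset B × C)) where
  carrier := {Φ | InEC hq Φ}
  add_mem' := by
    intro Φ Ψ hΦ hΨ T
    refine ⟨fun h c => ?_, fun s hs c => ?_⟩
    · rw [lp.coeFn_add, Pi.add_apply, (hΦ T).1 h, (hΨ T).1 h, add_zero]
    · simp only [lp.coeFn_add, Pi.add_apply]
      rw [Finset.sum_add_distrib, (hΦ T).2 s hs c, (hΨ T).2 s hs c, add_zero]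
  zero_mem' := by
    intro T
    refine ⟨fun _ _ => rfl, fun s _ c => ?_⟩
    simp
  smul_mem' := by
    intro a Φ hΦ T
    refine ⟨fun h c => ?_, fun s hs c => ?_⟩
    · rw [lp.coeFn_smul, Pi.smul_apply, (hΦ T).1 h, smul_zero]
    · simp only [lp.coeFn_smul, Pi.smul_apply, smul_eq_mul]
      rw [← Finset.mul_sum, (hΦ T).2 s hs c, mul_zero]

lemma mem_EC {Φ : HS (Finset B × C)} : Φ ∈ EC hq ↔ InEC hq Φ := Iff.rfl

lemma continuous_coord {I : Type*} (i : I) : Continuous (fun Φ : HS I => Φ i) := by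
  have : (fun Φ : HS I => Φ i) = fun Φ => inner ℂ (bas i) Φ := by
    funext Φ
    exact (inner_bas i Φ).symm
  rw [this]
  exact continuous_const.inner continuous_id

lemma isClosed_EC : IsClosed (EC hq : Set (HS (Finset B × C))) := by
  have : (EC hq : Set (HS (Finset B × C))) =
      (⋂ (T : Finset B) (_ : ¬ Sph cs T) (c : C), {Φ | Φ (T, c) = 0}) ∩
      (⋂ (T : Finset B) (s : B) (_ : s ∈ T) (c : C), {Φ | ∑ d ∈ hq.pan c s, Φ (T, d) = 0}) := by
    ext Φ
    simp only [SetLike.mem_coe, mem_EC, Set.mem_inter_iff, Set.mem_iInter, Set.mem_ofPred_eq]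
    constructor
    · intro h
      exact ⟨fun T hT c => (h T).1 hT c, fun T s hs c => (h T).2 s hs c⟩
    · rintro ⟨h1, h2⟩ T
      exact ⟨fun hT c => h1 T hT c, fun s hs c => h2 T s hs c⟩
  rw [this]
  refine IsClosed.inter ?_ ?_
  · refine isClosed_iInter fun T => isClosed_iInter fun _ => isClosed_iInter fun c => ?_
    exact isClosed_eq (continuous_coord _) continuous_const
  · refine isClosed_iInter fun T => isClosed_iInter fun s => isClosed_iInter fun _ =>
      isClosed_iInter fun c => ?_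
    exact isClosed_eq (continuous_finsetSum _ fun d _ => continuous_coord _) continuous_const

lemma inEC_ND {Φ : HS (Finset B × C)} (hΦ : InEC hq Φ) : InEC hq (ND Φ) := by
  intro T
  constructor
  · intro h c
    rw [ND_apply_low, low_eq]
    refine Finset.sum_eq_zero fun s _ => ?_
    rw [(hΦ _).1 (fun h' => h (h'.mono (Finset.subset_insert s T))), smul_zero]
  · intro t ht c
    simp only [ND_apply_low, low_eq]
    rw [Finset.sum_comm]
    refine Finset.sum_eq_zero fun s _ => ?_
    rw [← Finset.smul_sum, (hΦ _).2 t (Finset.mem_insert_of_mem ht) c, smul_zero]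

/-- finitely supported rational chains as elements of the Hilbert space -/
noncomputable def emb : (Finset B → (C →₀ ℚ)) →+ HS (Finset B × C) where
  toFun F := ∑ T : Finset B, ∑ c ∈ (F T).support, ((F T c : ℚ) : ℂ) • bas (T, c)
  map_zero' := by simp
  map_add' F G := by
    rw [← Finset.sum_add_distrib]
    refine Finset.sum_congr rfl fun T _ => ?_
    have key : ∀ K : C →₀ ℚ, ∑ c ∈ K.support, ((K c : ℚ) : ℂ) • bas (T, c) =
        K.sum (fun c a => ((a : ℚ) : ℂ) • bas (T, c)) := fun K => rfl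
    rw [key, key, key, Pi.add_apply]
    refine Finsupp.sum_add_index' ?_ ?_
    · intro c; simp
    · intro c a b; push_cast; rw [add_smul]

lemma emb_def (F : Finset B → (C →₀ ℚ)) :
    emb F = ∑ T : Finset B, ∑ c ∈ (F T).support, ((F T c : ℚ) : ℂ) • bas (T, c) := rfl

lemma emb_apply (F : Finset B → (C →₀ ℚ)) (T : Finset B) (c : C) : emb F (T, c) = ((F T c : ℚ) : ℂ) := by
  rw [emb_def, lp.coeFn_sum, Finset.sum_apply, Finset.sum_eq_single T]
  · rw [lp.coeFn_sum, Finset.sum_apply, Finset.sum_eq_single c]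
    · rw [lp.coeFn_smul, Pi.smul_apply, bas_self]; simp
    · intro d _ hd
      rw [lp.coeFn_smul, Pi.smul_apply, bas_ne (fun h => hd (Prod.mk.inj h).2.symm), smul_zero]
    · intro h
      rw [Finsupp.notMem_support_iff.1 h]; simp
  · intro S _ hS
    rw [lp.coeFn_sum, Finset.sum_apply]
    refine Finset.sum_eq_zero fun d _ => ?_
    rw [lp.coeFn_smul, Pi.smul_apply, bas_ne (fun h => hS (Prod.mk.inj h).1.symm), smul_zero]
  · intro h; exact absurd (Finset.mem_univ T) h

lemma inner_emb (F : Finset B → (C →₀ ℚ)) (Φ : HS (Finset B × C)) :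
    inner ℂ (emb F) Φ = ∑ T : Finset B, ∑ c ∈ (F T).support, ((F T c : ℚ) : ℂ) * Φ (T, c) := by
  rw [emb_def, sum_inner]
  refine Finset.sum_congr rfl fun T _ => ?_
  rw [sum_inner]
  refine Finset.sum_congr rfl fun c _ => ?_
  rw [inner_smul_left, inner_bas]
  simp

lemma ND_emb (F : Finset B → (C →₀ ℚ)) : ND (emb F) = emb (low F) := by
  ext ⟨T, c⟩
  rw [ND_apply_low, emb_apply, low_eq, low_eq, Finsupp.finsetSum_apply]
  push_cast
  refine Finset.sum_congr rfl fun s _ => ?_
  rw [emb_apply, Pi.smul_apply, zsmul_eq_mul, zsmul_eq_mul]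
  push_cast; rfl

lemma inEC_emb {k : ℕ} {F : Finset B → (C →₀ ℚ)} (hF : InK hq k F) : InEC hq (emb F) := by
  intro T
  constructor
  · intro h c
    rw [emb_apply]
    have : F T = 0 := by
      by_contra h'
      exact h ((hF T).1 h').1
    rw [this]; simp
  · intro s hs c
    simp only [emb_apply]
    rw [← Rat.cast_sum, (hF T).2 s hs c]; simp

/-- the projected characteristic function of a chamber, in type `T` -/
noncomputable def pE (c0 : C) (T : Finset B) (c : C) : Finset B → (C →₀ ℚ) :=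
  Pi.single T (pk hq c0 T c)

lemma inK_pE (c0 : C) {T : Finset B} (hT : Sph cs T) (c : C) : InK hq T.card (pE hq c0 T c) := by
  classical
  intro S
  unfold pE
  by_cases h : S = T
  · subst h
    rw [Pi.single_eq_same]
    exact ⟨fun _ => ⟨hT, rfl⟩, fun s hs => panZ_pk hq c0 S hs c⟩
  · rw [Pi.single_eq_of_ne h]
    exact ⟨fun h' => absurd rfl h', fun s _ => panZ_zero s⟩

/-- the reproducing property -/
lemma inner_pE (c0 : C) {T : Finset B} (hT : Sph cs T) (c : C) {Φ : HS (Finset B × C)}
    (hΦ : InEC hq Φ) : inner ℂ (emb (pE hq c0 T c)) Φ = Φ (T, c) := by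
  classical
  have h1 : ∀ g : C →₀ ℚ, inner ℂ (emb (Pi.single T g)) Φ = g.sum (fun d a => (a : ℂ) * Φ (T, d)) := by
    intro g
    rw [inner_emb, Finset.sum_eq_single T]
    · rw [Pi.single_eq_same]; rfl
    · intro S _ hS
      rw [Pi.single_eq_of_ne hS]; simp
    · intro h; exact absurd (Finset.mem_univ T) h
  unfold pE
  rw [h1]
  unfold pk
  rw [← Finsupp.sum_finsetSum_index (h := fun d (a : ℚ) => (a : ℂ) * Φ (T, d)) (by intro d; simp)
    (by intro d a b; push_cast; ring)]
  have h2 := sum_pk hq c0 hT (fun d => Φ (T, d)) (fun s hs => (hΦ T).2 s hs) c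
  rw [← h2]
  refine Finset.sum_congr rfl fun u _ => ?_
  rw [← Finsupp.sum_finsetSum_index (h := fun d (a : ℚ) => (a : ℂ) * Φ (T, d)) (by intro d; simp)
    (by intro d a b; push_cast; ring)]
  refine Finset.sum_congr rfl fun d _ => ?_
  rw [Finsupp.sum_single_index (by simp), Rat.smul_def]

end Building

end Pool.Agent.W721.ZB
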