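import Pool.Agent.W721.ZB.WDef

/-! Coercivity estimates. -/

set_option autoImplicit false
set_option linter.unusedSectionVars false

open Filter Topology
open scoped NNReal

namespace Pool.Agent.W721.ZB

open CoxeterSystem

section Abstract

variable {E : Type*} [NormedAddCommGroup E] [InnerProductSpace ℂ E] [CompleteSpace E]

/-- If a complex on a Hilbert space is exact, then its Laplacian is coercive. -/
theorem coercive_of_exact (d δ : E →L[ℂ] E) (hadj : ∀ x y, inner ℂ (δ x) y = inner ℂ x (d y))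
    (hδδ : ∀ x, δ (δ x) = 0) (hex : ∀ x, δ x = 0 → ∃ y, δ y = x) :
    ∃ K : ℝ, 0 < K ∧ ∀ x, ‖x‖ ≤ K * (‖d x‖ + ‖δ x‖) := by
  let V : Submodule ℂ E := LinearMap.ker (δ : E →ₗ[ℂ] E)
  have hVc : IsClosed (V : Set E) := ContinuousLinearMap.isClosed_ker δ
  have : CompleteSpace V := hVc.completeSpace_coe
  let f : E →L[ℂ] V := δ.codRestrict V (fun x => hδδ x)
  have hf : Function.Surjective f := by
    rintro ⟨x, hx⟩
    obtain ⟨y, hy⟩ := hex x hx
    exact ⟨y, Subtype.ext hy⟩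
  obtain ⟨C, hC, h⟩ := f.exists_preimage_norm_le hf
  have h' : ∀ z, δ z = 0 → ∃ y, δ y = z ∧ ‖y‖ ≤ C * ‖z‖ := by
    intro z hz
    obtain ⟨y, h1, h2⟩ := h ⟨z, hz⟩
    exact ⟨y, congrArg Subtype.val h1, h2⟩
  refine ⟨3 * (C + 1), by positivity, ?_⟩
  intro x
  obtain ⟨y, hy1, hy2⟩ := h' (δ x) (hδδ x)
  obtain ⟨z, hz1, hz2⟩ := h' (x - y) (by rw [map_sub, hy1, sub_self])
  have hx : ‖x‖ ^ 2 ≤ ‖x‖ * ‖y‖ + ‖d x‖ * ‖z‖ := by
    have e1 : inner ℂ x x = inner ℂ x y + inner ℂ (d x) z := by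
      have e2 : inner ℂ (d x) z = inner ℂ x (δ z) := by
        rw [← inner_conj_symm, ← hadj, inner_conj_symm]
      rw [e2, hz1, ← inner_add_right]
      congr 1; abel
    calc ‖x‖ ^ 2 = ‖inner ℂ x x‖ := by rw [inner_self_eq_norm_sq_to_K]; simp
      _ ≤ ‖inner ℂ x y‖ + ‖inner ℂ (d x) z‖ := by rw [e1]; exact norm_add_le _ _
      _ ≤ _ := add_le_add (norm_inner_le_norm _ _) (norm_inner_le_norm _ _)
  set a := ‖δ x‖
  set b := ‖d x‖
  have hz3 : ‖z‖ ≤ C * (‖x‖ + C * a) := by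
    refine hz2.trans (mul_le_mul_of_nonneg_left ((norm_sub_le _ _).trans ?_) hC.le)
    linarith
  have ha : 0 ≤ a := norm_nonneg _
  have hb : 0 ≤ b := norm_nonneg _
  have hxx : 0 ≤ ‖x‖ := norm_nonneg _
  by_contra hcon
  push Not at hcon
  -- `‖x‖ > 3 (C+1) (b + a)`
  have h1 : C * a * 3 ≤ ‖x‖ := by nlinarith
  have h2 : C * b * 3 ≤ ‖x‖ := by nlinarith
  have h3 : ‖x‖ ^ 2 ≤ ‖x‖ * (C * a) + b * (C * (‖x‖ + C * a)) := by
    refine hx.trans (add_le_add (mul_le_mul_of_nonneg_left hy2 hxx) (mul_le_mul_of_nonneg_left hz3 hb))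
  have hpos : 0 < ‖x‖ := lt_of_le_of_lt (by positivity) hcon
  have h4 : ‖x‖ * (C * a) ≤ ‖x‖ * (‖x‖ / 3) := by gcongr; linarith
  have h5 : b * (C * (‖x‖ + C * a)) ≤ (‖x‖ / 3) * (‖x‖ + ‖x‖ / 3) := by
    calc b * (C * (‖x‖ + C * a)) = (C * b) * (‖x‖ + C * a) := by ring
      _ ≤ (‖x‖ / 3) * (‖x‖ + ‖x‖ / 3) := by gcongr <;> linarith
  nlinarith

end Abstract

section WLevel

variable {B : Type*} {M : CoxeterMatrix B} {W : Type*} [Group W] {cs : CoxeterSystem M W}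
variable {q : B → ℝ} {n : W → ℝ} [Fintype B] [LinearOrder B]

lemma par_mono {T T' : Set B} (h : T ⊆ T') : par cs T ≤ par cs T' :=
  Subgroup.closure_mono (Set.image_mono h)

lemma Sph.mono {T T' : Finset B} (h : T ⊆ T') (hT' : Sph cs T') : Sph cs T :=
  Set.Finite.subset hT' (par_mono (cs := cs) (by exact_mod_cast h))

lemma low_eq {E : Type*} [AddCommGroup E] (φ : Finset B → E) (T : Finset B) :
    low φ T = ∑ s ∈ Tᶜ, sgz s T • φ (insert s T) := rfl

/-- the lowering operator preserves the weighted sign-invariant functions -/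
lemma inE_ND {F : HS (Finset B × W)} (hF : InE cs q F) : InE cs q (ND F) := by
  intro T
  constructor
  · intro h w
    rw [ND_apply_low, low_eq]
    refine Finset.sum_eq_zero fun s _ => ?_
    rw [(hF _).1 (fun h' => h (h'.mono (Finset.subset_insert s T))), smul_zero]
  · intro h w t ht hlt
    rw [ND_apply_low, ND_apply_low, low_eq, low_eq, Finset.mul_sum]
    refine Finset.sum_congr rfl fun s _ => ?_
    by_cases h' : Sph cs (insert s T)
    · rw [(hF _).2 h' w t (Finset.mem_insert_of_mem ht) hlt, mul_smul_comm]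
    · rw [(hF _).1 h', (hF _).1 h']; simp

lemma inner_DD (F G : HS (Finset B × W)) : inner ℂ (DD cs n F) G = inner ℂ F (DD cs n G) := by
  unfold DD
  change inner ℂ (PP cs n (JJ (PP cs n F))) G = inner ℂ F (PP cs n (JJ (PP cs n G)))
  rw [inner_PP, ← inner_PP (F := F)]
  unfold JJ
  rw [add_apply, add_apply, inner_add_left, inner_add_right, inner_ND, inner_NU, add_comm]

variable (hn : IsWeight cs q n)

include hn

lemma norm_DD_sq {F : HS (Finset B × W)} (hF : InE cs q F) :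
    ‖DD cs n F‖ ^ 2 = ‖ND F‖ ^ 2 + ‖PP cs n (NU F)‖ ^ 2 := by
  have e1 : DD cs n F = ND F + PP cs n (NU F) := by
    unfold DD
    change PP cs n (JJ (PP cs n F)) = _
    rw [PP_of_inE hn hF]
    unfold JJ
    rw [add_apply, map_add, PP_of_inE hn (inE_ND hF)]
  rw [e1]
  have e2 : inner ℂ (ND F) (PP cs n (NU F)) = 0 := by
    rw [← inner_PP, PP_of_inE hn (inE_ND hF), ← inner_ND, ND_ND, inner_zero_left]
  have := norm_add_sq_eq_norm_sq_add_norm_sq_of_inner_eq_zero _ _ e2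
  rw [pow_two, this]; ring

/-- Coercivity implies that the Laplacian is invertible. -/
theorem isUnit_of_coercive {K : ℝ} (hK : 0 < K)
    (h : ∀ F : HS (Finset B × W), InE cs q F → ‖F‖ ≤ K * (‖ND F‖ + ‖PP cs n (NU F)‖)) :
    IsUnit (BB cs n) := by
  have hc : (0 : ℝ) < (2 * K ^ 2 + 1)⁻¹ := by positivity
  refine ContinuousLinearMap.isUnit_of_forall_le_norm_inner_map (𝕜 := ℂ) (BB cs n)
    (c := ⟨(2 * K ^ 2 + 1)⁻¹, hc.le⟩) hc ?_
  intro F
  change ‖F‖ ^ 2 * (2 * K ^ 2 + 1)⁻¹ ≤ _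
  set G := PP cs n F with hG
  have hGE : InE cs q G := inE_PP hn F
  have e1 : DD cs n F = DD cs n G := by
    have := congrArg (fun T : HS (Finset B × W) →L[ℂ] HS (Finset B × W) => T F) (DD_mul_PP hn)
    exact this.symm
  have e2 : inner ℂ (BB cs n F) F = ((‖DD cs n G‖ ^ 2 + ‖F - G‖ ^ 2 : ℝ) : ℂ) := by
    unfold BB
    rw [add_apply, sub_apply]
    change inner ℂ (DD cs n (DD cs n F) + (F - PP cs n F)) F = _
    rw [inner_add_left, inner_DD, e1, ← hG]
    have e3 : inner ℂ (F - G) F = inner ℂ (F - G) (F - G) := by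
      rw [inner_sub_right (F - G) F G]
      have : inner ℂ (F - G) G = 0 := by
        rw [hG, ← inner_PP, map_sub, PP_idem hn, sub_self, inner_zero_left]
      rw [this, sub_zero]
    rw [e3, inner_self_eq_norm_sq_to_K, inner_self_eq_norm_sq_to_K]
    push_cast
    rfl
  have e4 : ‖F‖ ^ 2 = ‖G‖ ^ 2 + ‖F - G‖ ^ 2 := by
    have e5 : inner ℂ G (F - G) = 0 := by
      rw [hG, inner_PP, map_sub, PP_idem hn, sub_self, inner_zero_right]
    have := norm_add_sq_eq_norm_sq_add_norm_sq_of_inner_eq_zero _ _ e5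
    rw [add_sub_cancel] at this
    rw [pow_two, this]; ring
  rw [e2, Complex.norm_real, Real.norm_eq_abs, abs_of_nonneg (by positivity), e4,
    norm_DD_sq hn hGE]
  have h1 := h G hGE
  set a := ‖ND G‖
  set b := ‖PP cs n (NU G)‖
  have ha : 0 ≤ a := norm_nonneg _
  have hb : 0 ≤ b := norm_nonneg _
  have h2 : ‖G‖ ^ 2 ≤ 2 * K ^ 2 * (a ^ 2 + b ^ 2) := by
    calc ‖G‖ ^ 2 ≤ (K * (a + b)) ^ 2 := by gcongr
      _ = K ^ 2 * (a + b) ^ 2 := by ring
      _ ≤ K ^ 2 * (2 * (a ^ 2 + b ^ 2)) := by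
          gcongr; nlinarith [sq_nonneg (a - b)]
      _ = _ := by ring
  rw [← div_eq_mul_inv, div_le_iff₀ (by positivity)]
  have h3 : 0 ≤ ‖F - G‖ ^ 2 * K ^ 2 := by positivity
  nlinarith [sq_nonneg a, sq_nonneg b, sq_nonneg ‖F - G‖]

/-- The weighted cochain complex is never coercive. -/
theorem not_coercive {K : ℝ} (hK : 0 < K)
    (h : ∀ F : HS (Finset B × W), InE cs q F → ‖F‖ ≤ K * (‖ND F‖ + ‖PP cs n (NU F)‖)) : False :=
  not_isUnit_BB hn (isUnit_of_coercive hn hK h)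

end WLevel

end Pool.Agent.W721.ZB
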