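import Mathlib

/-! The comparison theorem for projective resolutions, in elementary terms. -/

set_option autoImplicit false

namespace Pool.Agent.W721.ZB

variable {R : Type*} [Ring R] {A : Type*} [AddCommGroup A] [Module R A]

/-- a resolution -/
structure Res (R : Type*) [Ring R] (A : Type*) [AddCommGroup A] [Module R A] (K : ℕ → Type*)
    [∀ k, AddCommGroup (K k)] [∀ k, Module R (K k)] where
  d : ∀ k, K (k + 1) →ₗ[R] K k
  e : K 0 →ₗ[R] A
  surj : Function.Surjective e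
  ex0 : ∀ x, e x = 0 ↔ ∃ y, d 0 y = x
  ex : ∀ k x, d k x = 0 ↔ ∃ y, d (k + 1) y = x

lemma lift_ex {P M N : Type*} [AddCommGroup P] [Module R P] [Module.Projective R P]
    [AddCommGroup M] [Module R M] [AddCommGroup N] [Module R N]
    (f : M →ₗ[R] N) (φ : P →ₗ[R] N) (h : ∀ x, ∃ y, f y = φ x) :
    ∃ ψ : P →ₗ[R] M, ∀ x, f (ψ x) = φ x := by
  obtain ⟨ψ, hψ⟩ := Module.projective_lifting_property f.rangeRestrict
    (φ.codRestrict (LinearMap.range f) h) f.surjective_rangeRestrict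
  refine ⟨ψ, fun x => ?_⟩
  have := congrArg (fun g : P →ₗ[R] LinearMap.range f => (g x : N)) hψ
  exact this

variable {K : ℕ → Type*} [∀ k, AddCommGroup (K k)] [∀ k, Module R (K k)]
  {X : ℕ → Type*} [∀ k, AddCommGroup (X k)] [∀ k, Module R (X k)]

lemma Res.d_d (r : Res R A K) (k : ℕ) (x : K (k + 2)) : r.d k (r.d (k + 1) x) = 0 :=
  (r.ex k _).2 ⟨x, rfl⟩

lemma Res.e_d (r : Res R A K) (x : K 1) : r.e (r.d 0 x) = 0 := (r.ex0 _).2 ⟨x, rfl⟩

theorem exists_chain_map (hP : ∀ k, Module.Projective R (K k)) (r : Res R A K) (r' : Res R A X) :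
    ∃ f : ∀ k, K k →ₗ[R] X k, (∀ x, r'.e (f 0 x) = r.e x) ∧
      ∀ k x, r'.d k (f (k + 1) x) = f k (r.d k x) := by
  obtain ⟨f0, hf0⟩ := lift_ex r'.e r.e (fun x => r'.surj _)
  obtain ⟨f1, hf1⟩ := lift_ex (r'.d 0) (f0 ∘ₗ r.d 0) (fun x => (r'.ex0 _).1 (by
    rw [LinearMap.comp_apply, hf0, r.e_d]))
  have step : ∀ k (p : (K k →ₗ[R] X k) × (K (k + 1) →ₗ[R] X (k + 1))),
      (∀ x, r'.d k (p.2 x) = p.1 (r.d k x)) →
      ∃ f'' : K (k + 2) →ₗ[R] X (k + 2), ∀ x, r'.d (k + 1) (f'' x) = p.2 (r.d (k + 1) x) := by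
    intro k p hp
    obtain ⟨f'', h⟩ := lift_ex (r'.d (k + 1)) (p.2 ∘ₗ r.d (k + 1)) (fun x => (r'.ex k _).1 (by
      rw [LinearMap.comp_apply, hp, r.d_d, map_zero]))
    exact ⟨f'', h⟩
  let S : ℕ → Type _ := fun k => {p : (K k →ₗ[R] X k) × (K (k + 1) →ₗ[R] X (k + 1)) //
    ∀ x, r'.d k (p.2 x) = p.1 (r.d k x)}
  let s : ∀ k, S k := fun k => Nat.rec (motive := S) ⟨(f0, f1), hf1⟩
    (fun k s => ⟨(s.1.2, (step k s.1 s.2).choose), (step k s.1 s.2).choose_spec⟩) k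
  exact ⟨fun k => (s k).1.1, hf0, fun k x => (s k).2 x⟩

theorem exists_homotopy (hP : ∀ k, Module.Projective R (K k)) (r : Res R A K)
    (φ : ∀ k, K k →ₗ[R] K k) (h0 : ∀ x, r.e (φ 0 x) = 0)
    (hd : ∀ k x, r.d k (φ (k + 1) x) = φ k (r.d k x)) :
    ∃ h : ∀ k, K k →ₗ[R] K (k + 1), (∀ x, φ 0 x = r.d 0 (h 0 x)) ∧
      ∀ k x, φ (k + 1) x = r.d (k + 1) (h (k + 1) x) + h k (r.d k x) := by
  obtain ⟨g0, hg0⟩ := lift_ex (r.d 0) (φ 0) (fun x => (r.ex0 _).1 (h0 x))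
  have step : ∀ k (g : K k →ₗ[R] K (k + 1)), (∀ x, r.d k (φ (k + 1) x - g (r.d k x)) = 0) →
      ∃ g' : K (k + 1) →ₗ[R] K (k + 2), (∀ x, r.d (k + 1) (g' x) = φ (k + 1) x - g (r.d k x)) ∧
        ∀ x, r.d (k + 1) (φ (k + 2) x - g' (r.d (k + 1) x)) = 0 := by
    intro k g hg
    obtain ⟨g', h⟩ := lift_ex (r.d (k + 1)) (φ (k + 1) - g ∘ₗ r.d k) (fun x => (r.ex k _).1 (by
      rw [LinearMap.sub_apply, LinearMap.comp_apply, hg]))
    refine ⟨g', h, fun x => ?_⟩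
    rw [map_sub, h, hd, LinearMap.sub_apply, LinearMap.comp_apply, r.d_d, map_zero, sub_zero,
      sub_self]
  let S : ℕ → Type _ := fun k => {g : K k →ₗ[R] K (k + 1) //
    ∀ x, r.d k (φ (k + 1) x - g (r.d k x)) = 0}
  let s : ∀ k, S k := fun k => Nat.rec (motive := S)
    ⟨g0, fun x => by rw [map_sub, hg0, hd, sub_self]⟩
    (fun k s => ⟨(step k s.1 s.2).choose, (step k s.1 s.2).choose_spec.2⟩) k
  refine ⟨fun k => (s k).1, fun x => (hg0 x).symm, fun k x => ?_⟩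
  have h2 : r.d (k + 1) ((s (k + 1)).1 x) = φ (k + 1) x - (s k).1 (r.d k x) :=
    (step k (s k).1 (s k).2).choose_spec.1 x
  rw [h2]; abel

/-- Comparison of two projective resolutions. -/
theorem comparison (hK : ∀ k, Module.Projective R (K k)) (hX : ∀ k, Module.Projective R (X k))
    (r : Res R A K) (r' : Res R A X) :
    ∃ (f : ∀ k, K k →ₗ[R] X k) (g : ∀ k, X k →ₗ[R] K k) (h : ∀ k, K k →ₗ[R] K (k + 1)),
      (∀ k x, r'.d k (f (k + 1) x) = f k (r.d k x)) ∧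
      (∀ k x, r.d k (g (k + 1) x) = g k (r'.d k x)) ∧
      (∀ x, g 0 (f 0 x) = x + r.d 0 (h 0 x)) ∧
      (∀ k x, g (k + 1) (f (k + 1) x) = x + r.d (k + 1) (h (k + 1) x) + h k (r.d k x)) := by
  obtain ⟨f, hf0, hf⟩ := exists_chain_map hK r r'
  obtain ⟨g, hg0, hg⟩ := exists_chain_map hX r' r
  obtain ⟨h, hh0, hh⟩ := exists_homotopy hK r (fun k => g k ∘ₗ f k - LinearMap.id)
    (fun x => by
      rw [LinearMap.sub_apply, LinearMap.comp_apply, map_sub, hg0, hf0, LinearMap.id_apply,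
        sub_self])
    (fun k x => by
      rw [LinearMap.sub_apply, LinearMap.comp_apply, LinearMap.sub_apply, LinearMap.comp_apply,
        LinearMap.id_apply, LinearMap.id_apply, map_sub, hg, hf])
  refine ⟨f, g, h, hf, hg, fun x => ?_, fun k x => ?_⟩
  · have := hh0 x
    rw [LinearMap.sub_apply, LinearMap.comp_apply, LinearMap.id_apply] at this
    rw [← this]; abel
  · have := hh k x
    rw [LinearMap.sub_apply, LinearMap.comp_apply, LinearMap.id_apply] at this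
    rw [add_assoc, ← this]; abel

end Pool.Agent.W721.ZB
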