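import Mathlib

/-!
Buildings, as sets of chambers with a Weyl-group valued distance function (Abramenko–Brown,
*Buildings*, Definition 5.1).
-/

set_option autoImplicit false

namespace Pool.Agent.W721.ZB

/-- A building of type `(W, S)`, where `cs` is a Coxeter system with Coxeter group `W`: a set `C`
of chambers with a `W`-valued distance `δ`. With `s` a simple reflection, `w = δ(c, d)`:
`δ(c, d) = 1` iff `c = d`; if `δ(c', c) = s` then `δ(c', d) ∈ {w, s w}`, and `δ(c', d) = s w` if
`ℓ(s w) = ℓ(w) + 1`; and there is a chamber `c'` with `δ(c', c) = s` and `δ(c', d) = s w`. -/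
structure Building {B W : Type*} [Group W] {M : CoxeterMatrix B} (cs : CoxeterSystem M W)
    (C : Type*) where
  /-- the Weyl distance -/
  δ : C → C → W
  eq_one_iff : ∀ c d, δ c d = 1 ↔ c = d
  step : ∀ (c' c d : C) (s : B), δ c' c = cs.simple s →
    δ c' d = δ c d ∨ δ c' d = cs.simple s * δ c d
  step_up : ∀ (c' c d : C) (s : B), δ c' c = cs.simple s →
    cs.length (cs.simple s * δ c d) = cs.length (δ c d) + 1 → δ c' d = cs.simple s * δ c d
  exists_step : ∀ (c d : C) (s : B), ∃ c', δ c' c = cs.simple s ∧ δ c' d = cs.simple s * δ c d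

/-- A building is regular with (finite) parameters `q_s ≥ 1` if every chamber `c` has exactly
`q_s` chambers `d ≠ c` in its `s`-panel, for each simple reflection `s`. -/
def Building.Regular {B W : Type*} [Group W] {M : CoxeterMatrix B} {cs : CoxeterSystem M W}
    {C : Type*} (Δ : Building cs C) (q : B → ℕ) : Prop :=
  ∀ (s : B), 0 < q s ∧ ∀ c, {d | Δ.δ c d = cs.simple s}.ncard = q s

end Pool.Agent.W721.ZB
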