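import Pool.Agent.W721.ZB.Bld
import Pool.Agent.W721.ZB.Coer

/-! Exactness of the complex of finitely supported functions on the chambers with vanishing panel
sums. -/

set_option autoImplicit false
set_option linter.unusedSectionVars false

namespace Pool.Agent.W721.ZB

open CoxeterSystem

namespace Building

variable {B : Type*} {M : CoxeterMatrix B} {W : Type*} [Group W] {cs : CoxeterSystem M W}
  {C : Type*} {Δ : Building cs C} {q : B → ℕ} (hq : Δ.Regular q)

/-- The coefficient sum. -/
noncomputable def eps : (C →₀ ℚ) →ₗ[ℚ] ℚ := Finsupp.linearCombination ℚ (fun _ => (1 : ℚ))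

lemma eps_apply (G : C →₀ ℚ) : eps G = ∑ c ∈ G.support, G c := by
  unfold eps
  rw [Finsupp.linearCombination_apply, Finsupp.sum]
  simp

include hq in
lemma eps_of_panZ {s : B} {G : C →₀ ℚ} (hG : hq.PanZ s G) : eps G = 0 := by
  classical
  have h1 : ((1 + q s : ℕ) : ℚ) * eps G = 0 := by
    rw [eps_apply, Finset.mul_sum]
    have e1 : ∀ d ∈ G.support, ((1 + q s : ℕ) : ℚ) * G d = ∑ c ∈ hq.pan d s, G d := by
      intro d _
      rw [Finset.sum_const, nsmul_eq_mul]
      congr 2
      unfold Regular.pan
      rw [Finset.card_cons, hq.card_simple, add_comm]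
    rw [Finset.sum_congr rfl e1]
    rw [Finset.sum_comm' (t' := G.support.biUnion (fun d => hq.pan d s))
      (s' := fun c => (hq.pan c s).filter (fun d => d ∈ G.support))]
    · refine Finset.sum_eq_zero fun c _ => ?_
      rw [← hG c, Finset.sum_filter]
      refine Finset.sum_congr rfl fun d _ => ?_
      split_ifs with h
      · rfl
      · exact (Finsupp.notMem_support_iff.1 h).symm
    · intro d c
      have hsymm : c ∈ hq.pan d s ↔ d ∈ hq.pan c s := by
        rw [Regular.mem_pan, Regular.mem_pan]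
        constructor
        · rintro (h | h)
          · exact Or.inl h.symm
          · exact Or.inr (Δ.symm_simple h)
        · rintro (h | h)
          · exact Or.inl h.symm
          · exact Or.inr (Δ.symm_simple h)
      simp only [Finset.mem_biUnion, Finset.mem_filter]
      constructor
      · rintro ⟨h2, h3⟩
        exact ⟨⟨hsymm.1 h3, h2⟩, ⟨d, h2, h3⟩⟩
      · rintro ⟨⟨h2, h3⟩, -⟩
        exact ⟨h3, hsymm.2 h2⟩
  rcases mul_eq_zero.1 h1 with h2 | h2
  · exfalso
    have : (1 + q s : ℕ) = 0 := by exact_mod_cast h2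
    omega
  · exact h2

include hq in
/-- The generators: sign functions of apartments in spherical residues. -/
lemma exists_gen (c0 c : C) (T : Finset B) [Finite B]
    (hT : ∀ t ∈ T, cs.length (Δ.δ c0 c * cs.simple t) < cs.length (Δ.δ c0 c)) :
    ∃ g : C →₀ ℚ, g c = 1 ∧
      (∀ d, g d ≠ 0 → d = c ∨ cs.length (Δ.δ c0 d) < cs.length (Δ.δ c0 c)) ∧
      ∀ s ∈ T, hq.PanZ s g := by
  classical
  set w := Δ.δ c0 c with hw
  have hSph : Sph cs T := finite_par_of_descents (cs := cs) (w := w) (fun t ht => hT t (by exact_mod_cast ht))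
  have hlen : ∀ v ∈ par cs (T : Set B), cs.length w = cs.length (w * v⁻¹) + cs.length v :=
    fun v hv => length_of_descents (fun t ht => hT t (by exact_mod_cast ht)) v hv
  have hex : ∀ v : W, ∃ e : C, Δ.δ c0 e = w * v⁻¹ ∧ Δ.δ e c = v := by
    intro v
    exact Δ.exists_between (by rw [inv_mul_cancel_right])
  choose e he1 he2 using hex
  have huniq : ∀ v ∈ par cs (T : Set B), ∀ f, Δ.δ c0 f = w * v⁻¹ → Δ.δ f c = v → f = e v := by
    intro v hv f h1 h2
    refine Δ.between_unique (a := w * v⁻¹) (b := v) ?_ h1 h2 (he1 v) (he2 v)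
    rw [inv_mul_cancel_right]
    exact hlen v hv
  have hadj' : ∀ v ∈ par cs (T : Set B), ∀ s ∈ T, cs.length v < cs.length (cs.simple s * v) →
      Δ.δ (e v) (e (cs.simple s * v)) = cs.simple s := by
    intro v hv s hs hlt
    have hs' : cs.simple s ∈ par cs (T : Set B) := simple_mem_par (by exact_mod_cast hs)
    obtain ⟨f, h1, h2⟩ := Δ.exists_step (e (cs.simple s * v)) c s
    rw [he2, cs.simple_mul_simple_cancel_left] at h2
    have h3 := hlen v hv
    have h4 := hlen _ (Subgroup.mul_mem _ hs' hv)
    have h5 : w * (cs.simple s * v)⁻¹ = w * v⁻¹ * cs.simple s := by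
      rw [mul_inv_rev, cs.inv_simple, mul_assoc]
    have h6 := Δ.rstep_up (c := c0) (d := e (cs.simple s * v)) (d' := f) (Δ.symm_simple h1) (by
      rw [he1, h5, mul_assoc _ (cs.simple s), cs.simple_mul_simple_self, mul_one, ← h5]
      omega)
    rw [he1, h5, mul_assoc _ (cs.simple s), cs.simple_mul_simple_self, mul_one] at h6
    rw [← huniq v hv f h6 h2]
    exact h1
  have hadj : ∀ v ∈ par cs (T : Set B), ∀ s ∈ T,
      Δ.δ (e v) (e (cs.simple s * v)) = cs.simple s := by
    intro v hv s hs
    by_cases h : cs.length v < cs.length (cs.simple s * v)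
    · exact hadj' v hv s hs h
    · have hs' : cs.simple s ∈ par cs (T : Set B) := simple_mem_par (by exact_mod_cast hs)
      have := hadj' (cs.simple s * v) (Subgroup.mul_mem _ hs' hv) s hs (by
        rw [cs.simple_mul_simple_cancel_left]
        rcases cs.length_simple_mul v s with h4 | h4 <;> omega)
      rw [cs.simple_mul_simple_cancel_left] at this
      exact Δ.symm_simple this
  refine ⟨∑ v ∈ parF cs T, Finsupp.single (e v) ((-1 : ℚ) ^ cs.length v), ?_, ?_, ?_⟩
  · rw [Finsupp.finsetSum_apply, Finset.sum_eq_single 1]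
    · have : e 1 = c := (Δ.eq_one_iff _ _).1 (he2 1)
      rw [this]; simp
    · intro v _ hv
      rw [Finsupp.single_apply, if_neg]
      intro h
      apply hv
      rw [← he2 v, h, Δ.dist_self]
    · intro h
      exact absurd ((mem_parF hSph).2 (Subgroup.one_mem _)) h
  · intro d hd
    rw [Finsupp.finsetSum_apply] at hd
    obtain ⟨v, hv, hvd⟩ := Finset.exists_ne_zero_of_sum_ne_zero hd
    rw [Finsupp.single_apply] at hvd
    have hvd' : e v = d := by
      by_contra h
      rw [if_neg h] at hvd
      exact hvd rfl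
    by_cases hv1 : v = 1
    · left
      rw [← hvd', hv1]
      exact (Δ.eq_one_iff _ _).1 (he2 1)
    · right
      rw [← hvd', he1]
      have h1 := hlen v (mem_par_of_mem_parF hv)
      have h2 : cs.length v ≠ 0 := fun h => hv1 (cs.length_eq_zero_iff.1 h)
      omega
  · intro s hs d
    have hs' : cs.simple s ∈ par cs (T : Set B) := simple_mem_par (by exact_mod_cast hs)
    simp only [Finsupp.finsetSum_apply]
    rw [Finset.sum_comm]
    have e1 : ∀ v ∈ parF cs T, ∑ x ∈ hq.pan d s, (Finsupp.single (e v) ((-1 : ℚ) ^ cs.length v)) x =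
        if e v ∈ hq.pan d s then (-1 : ℚ) ^ cs.length v else 0 := by
      intro v _
      simp only [Finsupp.single_apply]
      rw [Finset.sum_ite_eq]
    rw [Finset.sum_congr rfl e1]
    have hiff : ∀ v ∈ parF cs T, (e (cs.simple s * v) ∈ hq.pan d s ↔ e v ∈ hq.pan d s) := by
      intro v hv
      have h1 := hadj v (mem_par_of_mem_parF hv) s hs
      constructor
      · intro h2
        have h3 : hq.pan d s = hq.pan (e (cs.simple s * v)) s := by
          rcases (hq.mem_pan).1 h2 with h4 | h4
          · rw [h4]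
          · exact hq.pan_eq h4
        rw [h3, hq.mem_pan]
        exact Or.inr (Δ.symm_simple h1)
      · intro h2
        have h3 : hq.pan d s = hq.pan (e v) s := by
          rcases (hq.mem_pan).1 h2 with h4 | h4
          · rw [h4]
          · exact hq.pan_eq h4
        rw [h3, hq.mem_pan]
        exact Or.inr h1
    refine Finset.sum_involution (fun v _ => cs.simple s * v) ?_ ?_ ?_ ?_
    · intro v hv
      have h1 : (-1 : ℚ) ^ cs.length (cs.simple s * v) = - (-1 : ℚ) ^ cs.length v := by
        rcases cs.length_simple_mul v s with h | h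
        · rw [h, pow_succ]; ring
        · rw [← h, pow_succ]; ring
      by_cases h : e v ∈ hq.pan d s
      · rw [if_pos h, if_pos ((hiff v hv).2 h), h1]; ring
      · rw [if_neg h, if_neg (fun h' => h ((hiff v hv).1 h'))]; ring
    · intro v _ _ h
      exact simple_ne_one s (mul_eq_right.1 h)
    · intro v hv
      rw [mem_parF hSph] at hv ⊢
      exact Subgroup.mul_mem _ hs' hv
    · intro v _
      exact cs.simple_mul_simple_cancel_left s

section KK

variable [Fintype B] [LinearOrder B]

/-- the chains of degree `k` -/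
def InK (k : ℕ) (F : Finset B → (C →₀ ℚ)) : Prop :=
  ∀ T, (F T ≠ 0 → Sph cs T ∧ T.card = k) ∧ ∀ s ∈ T, hq.PanZ s (F T)

variable {hq}

lemma panZ_zero (s : B) : hq.PanZ s (⇑(0 : C →₀ ℚ)) := by
  intro c
  simp

lemma panZ_add {s : B} {F G : C →₀ ℚ} (hF : hq.PanZ s F) (hG : hq.PanZ s G) :
    hq.PanZ s (⇑(F + G)) := by
  intro c
  simp only [Finsupp.add_apply]
  rw [Finset.sum_add_distrib, hF c, hG c, add_zero]

lemma panZ_smul {s : B} {F : C →₀ ℚ} (a : ℚ) (hF : hq.PanZ s F) :
    hq.PanZ s (⇑(a • F)) := by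
  intro c
  simp only [Finsupp.smul_apply, smul_eq_mul]
  rw [← Finset.mul_sum, hF c, mul_zero]

lemma panZ_zsmul {s : B} {F : C →₀ ℚ} (a : ℤ) (hF : hq.PanZ s F) :
    hq.PanZ s (⇑(a • F)) := by
  rw [← Int.cast_smul_eq_zsmul ℚ]
  exact panZ_smul _ hF

lemma panZ_sum {ι : Type*} (S : Finset ι) {s : B} {F : ι → (C →₀ ℚ)}
    (h : ∀ i ∈ S, hq.PanZ s (F i)) : hq.PanZ s (⇑(∑ i ∈ S, F i)) := by
  classical
  induction S using Finset.induction_on with
  | empty => rw [Finset.sum_empty]; exact panZ_zero s
  | insert a S ha ih =>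
    rw [Finset.sum_insert ha]
    exact panZ_add (h a (Finset.mem_insert_self a S))
      (ih (fun i hi => h i (Finset.mem_insert_of_mem hi)))

lemma InK.zero (k : ℕ) : InK hq k (0 : Finset B → (C →₀ ℚ)) :=
  fun T => ⟨fun h => absurd rfl h, fun s _ => panZ_zero s⟩

lemma InK.add {k : ℕ} {F G : Finset B → (C →₀ ℚ)} (hF : InK hq k F) (hG : InK hq k G) :
    InK hq k (F + G) := by
  intro T
  refine ⟨fun h => ?_, fun s hs => panZ_add ((hF T).2 s hs) ((hG T).2 s hs)⟩
  by_cases h1 : F T = 0
  · refine (hG T).1 (fun h2 => h ?_)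
    rw [Pi.add_apply, h1, h2, add_zero]
  · exact (hF T).1 h1

lemma InK.smul {k : ℕ} {F : Finset B → (C →₀ ℚ)} (a : ℚ) (hF : InK hq k F) :
    InK hq k (a • F) := by
  intro T
  refine ⟨fun h => (hF T).1 (fun h1 => h ?_), fun s hs => panZ_smul a ((hF T).2 s hs)⟩
  rw [Pi.smul_apply, h1, smul_zero]

lemma InK.sub {k : ℕ} {F G : Finset B → (C →₀ ℚ)} (hF : InK hq k F) (hG : InK hq k G) :
    InK hq k (F - G) := by
  have := hF.add (hG.smul (-1))
  rwa [neg_one_smul, ← sub_eq_add_neg] at this

lemma InK.sum {ι : Type*} (S : Finset ι) {k : ℕ} {F : ι → Finset B → (C →₀ ℚ)}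
    (h : ∀ i ∈ S, InK hq k (F i)) : InK hq k (∑ i ∈ S, F i) := by
  classical
  induction S using Finset.induction_on with
  | empty => rw [Finset.sum_empty]; exact InK.zero k
  | insert a S ha ih =>
    rw [Finset.sum_insert ha]
    exact (h a (Finset.mem_insert_self a S)).add
      (ih (fun i hi => h i (Finset.mem_insert_of_mem hi)))

lemma InK.low {k : ℕ} {F : Finset B → (C →₀ ℚ)} (hF : InK hq (k + 1) F) :
    InK hq k (low F) := by
  intro T
  constructor
  · intro h
    obtain ⟨s, hs, h1⟩ := Finset.exists_ne_zero_of_sum_ne_zero h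
    have h2 : F (insert s T) ≠ 0 := fun h2 => h1 (by rw [h2, smul_zero])
    obtain ⟨h3, h4⟩ := (hF _).1 h2
    rw [Finset.card_insert_of_notMem (Finset.mem_compl.1 hs)] at h4
    exact ⟨h3.mono (Finset.subset_insert s T), by omega⟩
  · intro t ht
    exact panZ_sum _ fun s _ => panZ_zsmul _ ((hF _).2 t (Finset.mem_insert_of_mem ht))

lemma InK.low_zero {F : Finset B → (C →₀ ℚ)} (hF : InK hq 0 F) : Pool.Agent.W721.ZB.low F = 0 := by
  funext T
  rw [low_eq]
  refine Finset.sum_eq_zero fun s hs => ?_
  have : F (insert s T) = 0 := by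
    by_contra h
    have := ((hF _).1 h).2
    rw [Finset.card_insert_of_notMem (Finset.mem_compl.1 hs)] at this
    omega
  rw [this, smul_zero]

lemma eps_low {F : Finset B → (C →₀ ℚ)} (hF : InK hq 1 F) :
    eps (Pool.Agent.W721.ZB.low F ∅) = 0 := by
  rw [low_eq, map_sum]
  refine Finset.sum_eq_zero fun s _ => ?_
  rw [map_zsmul, eps_of_panZ hq ((hF _).2 s (Finset.mem_insert_self s ∅)), smul_zero]

lemma low_sub' {E : Type*} [AddCommGroup E] (φ ψ : Finset B → E) : low (φ - ψ) = low φ - low ψ := by
  funext T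
  simp only [low_eq, Pi.sub_apply, smul_sub, Finset.sum_sub_distrib]

lemma low_add' {E : Type*} [AddCommGroup E] (φ ψ : Finset B → E) : low (φ + ψ) = low φ + low ψ := by
  funext T
  simp only [low_eq, Pi.add_apply, smul_add, Finset.sum_add_distrib]

lemma low_sum' {E ι : Type*} [AddCommGroup E] (S : Finset ι) (φ : ι → Finset B → E)
    (T : Finset B) : low (∑ i ∈ S, φ i) T = ∑ i ∈ S, low (φ i) T := by
  simp only [low_eq, Finset.sum_apply, Finset.smul_sum]
  rw [Finset.sum_comm]

/-- at a chamber of maximal distance the type consists of descents -/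
lemma top_desc {k n : ℕ} {c0 : C} {F : Finset B → (C →₀ ℚ)} (hF : InK hq k F)
    (hs : ∀ T c, F T c ≠ 0 → cs.length (Δ.δ c0 c) ≤ n) {T : Finset B} {c : C} (hc : F T c ≠ 0)
    (hl : cs.length (Δ.δ c0 c) = n) {t : B} (ht : t ∈ T) :
    cs.length (Δ.δ c0 c * cs.simple t) < cs.length (Δ.δ c0 c) := by
  by_contra h
  have h1 : cs.length (Δ.δ c0 c) < cs.length (Δ.δ c0 c * cs.simple t) := by
    rcases cs.length_mul_simple (Δ.δ c0 c) t with h4 | h4 <;> omega
  have h2 := (hF T).2 t ht c
  rw [hq.sum_pan, Finset.sum_eq_zero, add_zero] at h2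
  · exact hc h2
  · intro d hd
    rw [Regular.mem_sph] at hd
    have h3 := Δ.rstep_up hd h1
    by_contra h4
    have h5 := hs T d h4
    rw [h3] at h5
    omega

/-- clearing the top part at one chamber -/
lemma exists_clear {k : ℕ} {c0 : C} {F : Finset B → (C →₀ ℚ)} (hF : InK hq k F) (hlow : low F = 0)
    {n : ℕ} (hs : ∀ T c, F T c ≠ 0 → cs.length (Δ.δ c0 c) ≤ n) (c : C)
    (hl : cs.length (Δ.δ c0 c) = n) (hn : n ≠ 0) :
    ∃ H : Finset B → (C →₀ ℚ), InK hq (k + 1) H ∧
      (∀ T d, H T d ≠ 0 → d = c ∨ cs.length (Δ.δ c0 d) < n) ∧ ∀ T, low H T c = F T c := by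
  classical
  have hw : Δ.δ c0 c ≠ 1 := by
    intro h; rw [h, cs.length_one] at hl; exact hn hl.symm
  obtain ⟨a, ha⟩ := cs.exists_rightDescent_of_ne_one hw
  have hgen : ∀ T : Finset B, ∃ g : C →₀ ℚ,
      (∀ t ∈ T, cs.length (Δ.δ c0 c * cs.simple t) < cs.length (Δ.δ c0 c)) →
      (g c = 1 ∧ (∀ d, g d ≠ 0 → d = c ∨ cs.length (Δ.δ c0 d) < cs.length (Δ.δ c0 c)) ∧
        ∀ s ∈ T, hq.PanZ s g) := by
    intro T
    by_cases h : ∀ t ∈ T, cs.length (Δ.δ c0 c * cs.simple t) < cs.length (Δ.δ c0 c)
    · obtain ⟨g, hg⟩ := exists_gen hq c0 c T h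
      exact ⟨g, fun _ => hg⟩
    · exact ⟨0, fun h' => absurd h' h⟩
  choose g hg using hgen
  set φ : Finset B → ℚ := fun T => F T c with hφ
  have hφlow : low φ = 0 := by
    funext T
    have := congrArg (fun G : C →₀ ℚ => G c) (congrFun hlow T)
    simp only [low_eq, Finsupp.finsetSum_apply, Finsupp.smul_apply] at this
    rw [low_eq]
    simpa using this
  have hcone : ∀ T, cone a φ T ≠ 0 →
      (∀ t ∈ T, cs.length (Δ.δ c0 c * cs.simple t) < cs.length (Δ.δ c0 c)) ∧ T.card = k + 1 := by
    intro T hT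
    unfold cone at hT
    split_ifs at hT with h
    · have h1 : φ (T.erase a) ≠ 0 := fun h1 => hT (by rw [h1, smul_zero])
      refine ⟨fun t ht => ?_, ?_⟩
      · by_cases hta : t = a
        · rw [hta]; exact ha
        · exact top_desc hF hs h1 hl (Finset.mem_erase.2 ⟨hta, ht⟩)
      · have h2 : F (T.erase a) ≠ 0 := by
          intro h2
          apply h1
          change F (T.erase a) c = 0
          rw [h2]; rfl
        have h3 := ((hF _).1 h2).2
        rw [Finset.card_erase_of_mem h] at h3
        have h4 : 0 < T.card := Finset.card_pos.2 ⟨a, h⟩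
        omega
    · exact absurd rfl hT
  refine ⟨fun T => cone a φ T • g T, ?_, ?_, ?_⟩
  · intro T
    constructor
    · intro h
      have h1 : cone a φ T ≠ 0 := fun h1 => h (by simp only [h1, zero_smul])
      obtain ⟨h2, h3⟩ := hcone T h1
      exact ⟨finite_par_of_descents (cs := cs) (w := Δ.δ c0 c)
        (fun t ht => h2 t (by exact_mod_cast ht)), h3⟩
    · intro s hs
      by_cases h1 : cone a φ T = 0
      · simp only [h1, zero_smul]; exact panZ_zero s
      · exact panZ_smul _ ((hg T (hcone T h1).1).2.2 s hs)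
  · intro T d hd
    have h1 : cone a φ T ≠ 0 := fun h1 => hd (by simp only [h1, zero_smul]; rfl)
    have h2 : g T d ≠ 0 := fun h2 => hd (by
      simp only [Finsupp.smul_apply, h2, smul_zero])
    have h3 := (hg T (hcone T h1).1).2.1 d h2
    rwa [hl] at h3
  · intro T
    have h1 := low_cone a φ hφlow T
    rw [low_eq] at h1
    rw [low_eq, Finsupp.finsetSum_apply]
    change _ = φ T
    rw [← h1]
    refine Finset.sum_congr rfl fun s _ => ?_
    simp only [Finsupp.smul_apply]
    by_cases h2 : cone a φ (insert s T) = 0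
    · rw [h2]; simp
    · rw [(hg _ (hcone _ h2).1).1, smul_eq_mul, mul_one]

/-- exactness of the complex of chambers -/
theorem K_exact (c0 : C) (k : ℕ) : ∀ (n : ℕ) (F : Finset B → (C →₀ ℚ)), InK hq k F → low F = 0 →
    (k = 0 → eps (F ∅) = 0) → (∀ T c, F T c ≠ 0 → cs.length (Δ.δ c0 c) < n) →
    ∃ H, InK hq (k + 1) H ∧ low H = F := by
  classical
  intro n
  induction n with
  | zero =>
    intro F hF _ _ hs
    have hF0 : F = 0 := by
      funext T
      ext c
      by_contra h
      exact absurd (hs T c h) (by omega)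
    exact ⟨0, InK.zero _, by rw [hF0]; funext T; simp [low_eq]⟩
  | succ n ih =>
    intro F hF hlow heps hs
    have hs' : ∀ T c, F T c ≠ 0 → cs.length (Δ.δ c0 c) ≤ n := fun T c h => by
      have := hs T c h; omega
    by_cases hn : n = 0
    · subst hn
      have hc0 : ∀ T c, F T c ≠ 0 → c = c0 := by
        intro T c h
        have h1 : cs.length (Δ.δ c0 c) = 0 := by have := hs' T c h; omega
        rw [cs.length_eq_zero_iff] at h1
        exact ((Δ.eq_one_iff _ _).1 h1).symm
      have hT0 : ∀ T c, F T c ≠ 0 → T = ∅ := by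
        intro T c h
        rw [Finset.eq_empty_iff_forall_notMem]
        intro t ht
        have h1 := top_desc hF hs' h (by have := hs' T c h; omega) ht
        have := hs' T c h
        omega
      have hF0 : F = 0 := by
        funext T
        ext c
        by_contra h
        have h1 := hT0 T c h
        have h2 := hc0 T c h
        subst h1
        have h3 : F ∅ ≠ 0 := fun h3 => h (by rw [h3]; rfl)
        have h4 := ((hF _).1 h3).2
        rw [Finset.card_empty] at h4
        have h5 := heps h4.symm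
        apply h
        change F ∅ c = 0
        rw [← h5, eps_apply, h2, Finset.sum_eq_single c0]
        · intro d hd hdc
          exact absurd (hc0 _ _ (Finsupp.mem_support_iff.1 hd)) hdc
        · intro h6
          exact Finsupp.notMem_support_iff.1 h6
      exact ⟨0, InK.zero _, by rw [hF0]; funext T; simp [low_eq]⟩
    · have hcl : ∀ c : C, ∃ H : Finset B → (C →₀ ℚ), cs.length (Δ.δ c0 c) = n → (InK hq (k + 1) H ∧
          (∀ T d, H T d ≠ 0 → d = c ∨ cs.length (Δ.δ c0 d) < n) ∧ ∀ T, low H T c = F T c) := by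
        intro c
        by_cases hl : cs.length (Δ.δ c0 c) = n
        · obtain ⟨H, hH⟩ := exists_clear hF hlow hs' c hl hn
          exact ⟨H, fun _ => hH⟩
        · exact ⟨0, fun h => absurd h hl⟩
      choose Hc hHc using hcl
      set top : Finset C := (Finset.univ.biUnion (fun T : Finset B => (F T).support)).filter
        (fun c => cs.length (Δ.δ c0 c) = n) with htop
      have htopl : ∀ c ∈ top, cs.length (Δ.δ c0 c) = n := fun c hc => (Finset.mem_filter.1 hc).2
      set H : Finset B → (C →₀ ℚ) := ∑ c ∈ top, Hc c with hH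
      have hHK : InK hq (k + 1) H := InK.sum _ fun c hc => (hHc c (htopl c hc)).1
      have hval : ∀ T d, low H T d = ∑ c ∈ top, low (Hc c) T d := by
        intro T d
        rw [hH, low_sum', Finsupp.finsetSum_apply]
      have hlowne : ∀ c ∈ top, ∀ T d, low (Hc c) T d ≠ 0 → d = c ∨ cs.length (Δ.δ c0 d) < n := by
        intro c hc T d h
        rw [low_eq, Finsupp.finsetSum_apply] at h
        obtain ⟨s, _, h1⟩ := Finset.exists_ne_zero_of_sum_ne_zero h
        refine (hHc c (htopl c hc)).2.1 (insert s T) d (fun h2 => h1 ?_)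
        rw [Finsupp.smul_apply, h2, smul_zero]
      have hmem : ∀ T d, F T d ≠ 0 → cs.length (Δ.δ c0 d) = n → d ∈ top := by
        intro T d h h1
        exact Finset.mem_filter.2 ⟨Finset.mem_biUnion.2 ⟨T, Finset.mem_univ _,
          Finsupp.mem_support_iff.2 h⟩, h1⟩
      obtain ⟨H', hH'K, hH'⟩ := ih (F - low H) (hF.sub hHK.low) (by
        rw [low_sub', hlow, sub_eq_zero]
        funext T
        exact (low_low H T).symm) (by
        intro hk
        subst hk
        rw [Pi.sub_apply, map_sub, heps rfl, eps_low hHK, sub_zero]) (by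
        intro T d h
        by_contra hcon
        rw [Pi.sub_apply, Finsupp.sub_apply, hval] at h
        by_cases hd : d ∈ top
        · rw [Finset.sum_eq_single d, (hHc d (htopl d hd)).2.2 T, sub_self] at h
          · exact h rfl
          · intro c hc hcd
            by_contra h1
            rcases hlowne c hc T d h1 with h2 | h2
            · exact hcd h2.symm
            · exact hcon h2
          · intro h1; exact absurd hd h1
        · rw [Finset.sum_eq_zero, sub_zero] at h
          · have h1 := hs' T d h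
            exact hd (hmem T d h (by omega))
          · intro c hc
            by_contra h1
            rcases hlowne c hc T d h1 with h2 | h2
            · exact hd (h2 ▸ hc)
            · exact hcon h2)
      refine ⟨H + H', hHK.add hH'K, ?_⟩
      rw [low_add', hH', add_sub_cancel]

end KK

end Building

end Pool.Agent.W721.ZB
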