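import Mathlib

/-! Permutation modules over rational group rings; projectivity for free actions. -/

set_option autoImplicit false

namespace Pool.Agent.W721.ZB

variable {Γ : Type*} [Group Γ]

/-- Additive maps commuting with monomials are linear over the group ring. -/
def mkLin {M N : Type*} [AddCommGroup M] [Module (MonoidAlgebra ℚ Γ) M] [AddCommGroup N]
    [Module (MonoidAlgebra ℚ Γ) N] (f : M →+ N)
    (h : ∀ (γ : Γ) (a : ℚ) (x : M), f (MonoidAlgebra.single γ a • x) =
      MonoidAlgebra.single γ a • f x) : M →ₗ[MonoidAlgebra ℚ Γ] N where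
  toFun := f
  map_add' := f.map_add
  map_smul' r x := by
    refine MonoidAlgebra.induction_linear r ?_ ?_ ?_
    · simp
    · intro r s hr hs
      simp only [RingHom.id_apply] at hr hs ⊢
      rw [add_smul, map_add, hr, hs, add_smul]
    · intro γ a
      exact h γ a x

@[simp] lemma mkLin_apply {M N : Type*} [AddCommGroup M] [Module (MonoidAlgebra ℚ Γ) M]
    [AddCommGroup N] [Module (MonoidAlgebra ℚ Γ) N] (f : M →+ N)
    (h : ∀ (γ : Γ) (a : ℚ) (x : M), f (MonoidAlgebra.single γ a • x) =
      MonoidAlgebra.single γ a • f x) (x : M) : mkLin f h x = f x := rfl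

section Perm

variable {Y : Type*} [MulAction Γ Y]

/-- the action on finitely supported functions -/
noncomputable def permAct : Γ →* Module.End ℚ (Y →₀ ℚ) where
  toFun γ := Finsupp.lmapDomain ℚ ℚ (γ • ·)
  map_one' := by
    ext y : 2
    simp
  map_mul' γ γ' := by
    ext y : 2
    simp [mul_smul]

/-- the ring homomorphism giving the module structure -/
noncomputable def permHom : MonoidAlgebra ℚ Γ →+* Module.End ℚ (Y →₀ ℚ) :=
  (MonoidAlgebra.lift ℚ (Module.End ℚ (Y →₀ ℚ)) Γ permAct).toRingHom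

variable (Γ Y) in
/-- the permutation module structure -/
@[reducible] noncomputable def permMod : Module (MonoidAlgebra ℚ Γ) (Y →₀ ℚ) :=
  Module.compHom (Y →₀ ℚ) (permHom (Γ := Γ) (Y := Y))

attribute [local instance] permMod

lemma single_smul (γ : Γ) (a : ℚ) (F : Y →₀ ℚ) :
    (MonoidAlgebra.single γ a : MonoidAlgebra ℚ Γ) • F = a • Finsupp.mapDomain (γ • ·) F := by
  change (MonoidAlgebra.lift ℚ (Module.End ℚ (Y →₀ ℚ)) Γ permAct (MonoidAlgebra.single γ a)) F = _
  rw [MonoidAlgebra.lift_single]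
  rfl

lemma single_smul_single (γ : Γ) (a : ℚ) (y : Y) (b : ℚ) :
    (MonoidAlgebra.single γ a : MonoidAlgebra ℚ Γ) • Finsupp.single y b =
      Finsupp.single (γ • y) (a * b) := by
  rw [single_smul, Finsupp.mapDomain_single, Finsupp.smul_single, smul_eq_mul]

lemma single_smul_apply (γ : Γ) (a : ℚ) (F : Y →₀ ℚ) (y : Y) :
    ((MonoidAlgebra.single γ a : MonoidAlgebra ℚ Γ) • F) y = a * F (γ⁻¹ • y) := by
  rw [single_smul, Finsupp.smul_apply, smul_eq_mul]
  congr 1
  conv_lhs => rw [← smul_inv_smul γ y]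
  exact Finsupp.mapDomain_apply (MulAction.injective γ) F (γ⁻¹ • y)

/-- a free action gives a projective permutation module -/
theorem perm_projective (hfree : ∀ (γ : Γ) (y : Y), γ • y = y → γ = 1) :
    Module.Projective (MonoidAlgebra ℚ Γ) (Y →₀ ℚ) := by
  classical
  have hrep : ∃ r : Y → Y, (∀ y, ∃ γ : Γ, γ • r y = y) ∧ ∀ (γ : Γ) (y : Y), r (γ • y) = r y := by
    refine ⟨fun y => (Quotient.mk (MulAction.orbitRel Γ Y) y).out, ?_, ?_⟩
    · intro y
      have h : (MulAction.orbitRel Γ Y) y (Quotient.mk (MulAction.orbitRel Γ Y) y).out :=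
        Quotient.exact (Quotient.out_eq (Quotient.mk (MulAction.orbitRel Γ Y) y)).symm
      exact MulAction.mem_orbit_iff.1 (MulAction.orbitRel_apply.1 h)
    · intro γ y
      have : Quotient.mk (MulAction.orbitRel Γ Y) (γ • y) = Quotient.mk (MulAction.orbitRel Γ Y) y :=
        Quotient.sound (MulAction.orbitRel_apply.2 ⟨γ, rfl⟩)
      simp only [this]
  obtain ⟨r, hr, hr'⟩ := hrep
  choose g hg using hr
  have hg' : ∀ (γ : Γ) (y : Y), g (γ • y) = γ * g y := by
    intro γ y
    have h1 := hg (γ • y)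
    rw [hr'] at h1
    have h2 : (γ * g y)⁻¹ * g (γ • y) = 1 := by
      apply hfree _ (r y)
      rw [mul_smul, h1, mul_inv_rev, mul_smul, inv_smul_smul, inv_smul_eq_iff, hg]
    exact (inv_mul_eq_one.1 h2).symm
  let i0 : (Y →₀ ℚ) →+ (Y →₀ MonoidAlgebra ℚ Γ) := Finsupp.liftAddHom (fun y =>
    (Finsupp.singleAddHom (r y)).comp (MonoidAlgebra.singleAddHom (g y)))
  have hi0 : ∀ y a, i0 (Finsupp.single y a) = Finsupp.single (r y) (MonoidAlgebra.single (g y) a) := by
    intro y a
    simp [i0]
  have hi0' : ∀ (γ : Γ) (a : ℚ) (x : Y →₀ ℚ), i0 ((MonoidAlgebra.single γ a : MonoidAlgebra ℚ Γ) • x) =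
      (MonoidAlgebra.single γ a : MonoidAlgebra ℚ Γ) • i0 x := by
    intro γ a x
    induction x using Finsupp.induction_linear with
    | zero => simp
    | add x y hx hy => rw [smul_add, map_add, hx, hy, map_add, smul_add]
    | single y b =>
      rw [single_smul_single, hi0, hi0, hr', hg', Finsupp.smul_single, smul_eq_mul,
        MonoidAlgebra.single_mul_single]
  let i : (Y →₀ ℚ) →ₗ[MonoidAlgebra ℚ Γ] (Y →₀ MonoidAlgebra ℚ Γ) := mkLin i0 hi0'
  let s : (Y →₀ MonoidAlgebra ℚ Γ) →ₗ[MonoidAlgebra ℚ Γ] (Y →₀ ℚ) :=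
    Finsupp.linearCombination (MonoidAlgebra ℚ Γ) (fun y => Finsupp.single y (1 : ℚ))
  refine Module.Projective.of_split i s ?_
  apply LinearMap.ext
  intro x
  rw [LinearMap.comp_apply, LinearMap.id_apply]
  change s (i0 x) = x
  induction x using Finsupp.induction_linear with
  | zero => simp
  | add x y hx hy => rw [map_add, map_add, hx, hy]
  | single y b =>
    rw [hi0]
    change Finsupp.linearCombination (MonoidAlgebra ℚ Γ) (fun y => Finsupp.single y (1 : ℚ))
      (Finsupp.single (r y) (MonoidAlgebra.single (g y) b)) = _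
    rw [Finsupp.linearCombination_single, single_smul_single, hg, mul_one]

end Perm

/-- finite products of projective modules are projective -/
theorem pi_projective {R : Type*} [Ring R] {ι : Type*} [Finite ι] (M : ι → Type*)
    [∀ i, AddCommGroup (M i)] [∀ i, Module R (M i)] (h : ∀ i, Module.Projective R (M i)) :
    Module.Projective R (∀ i, M i) := by
  classical
  cases nonempty_fintype ι
  exact Module.Projective.of_equiv' (DFinsupp.linearEquivFunOnFintype (R := R) (M := M))

end Pool.Agent.W721.ZB
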