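import Pool.Agent.W721.ZB.KEx
import Pool.Agent.W721.ZB.Perm
import Pool.Agent.W721.ZB.Comp

/-! The complex of the chambers as a complex of projective modules over the group ring. -/

set_option autoImplicit false
set_option linter.unusedSectionVars false

namespace Pool.Agent.W721.ZB

open CoxeterSystem

namespace Building

variable {B : Type*} {M : CoxeterMatrix B} {W : Type*} [Group W] {cs : CoxeterSystem M W}
  {C : Type*} {Δ : Building cs C} {q : B → ℕ} (hq : Δ.Regular q)

section Weights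

variable [Fintype B] [LinearOrder B] (c0 : C)

/-- the size of a sphere -/
noncomputable def nq (w : W) : ℕ := (hq.sph c0 w).card

lemma nq_word (ω : List B) (hω : cs.IsReduced ω) : nq hq c0 (cs.wordProd ω) = (ω.map q).prod :=
  hq.card_sph c0 ω hω

lemma card_sph_eq (c : C) (w : W) : (hq.sph c w).card = nq hq c0 w := by
  obtain ⟨ω, hω, rfl⟩ := cs.exists_isReduced w
  rw [hq.card_sph c ω hω, nq_word hq c0 ω hω]

lemma isWeight_nq : IsWeight cs (fun s => (q s : ℝ)) (fun w => (nq hq c0 w : ℝ)) := by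
  refine ⟨fun s => by exact_mod_cast (hq s).1, ?_⟩
  intro ω hω
  rw [nq_word hq c0 ω hω]
  push_cast
  rw [List.map_map]
  rfl

lemma nq_pos (w : W) : 0 < nq hq c0 w := by
  exact_mod_cast (isWeight_nq hq c0).pos w

lemma nq_inv (w : W) : nq hq c0 w⁻¹ = nq hq c0 w := by
  obtain ⟨ω, hω, rfl⟩ := cs.exists_isReduced w
  rw [← cs.wordProd_reverse, nq_word hq c0 _ ((cs.isReduced_reverse_iff ω).2 hω),
    nq_word hq c0 ω hω, List.map_reverse, List.prod_reverse]

lemma nq_mul_simple {w : W} {s : B} (h : cs.length w < cs.length (w * cs.simple s)) :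
    nq hq c0 (w * cs.simple s) = nq hq c0 w * q s := by
  exact_mod_cast (isWeight_nq hq c0).mul_simple h

/-- the normalisation -/
noncomputable def NQ (T : Finset B) : ℚ := ∑ u ∈ parF cs T, ((nq hq c0 u : ℚ))⁻¹

lemma NQ_pos {T : Finset B} (h : Sph cs T) : 0 < NQ hq c0 T := by
  unfold NQ
  refine Finset.sum_pos (fun u _ => inv_pos.2 (by exact_mod_cast nq_pos hq c0 u)) ⟨1, ?_⟩
  rw [mem_parF h]
  exact Subgroup.one_mem _

/-- the kernel of the projection -/
noncomputable def kap (T : Finset B) (u : W) : ℚ :=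
  (NQ hq c0 T)⁻¹ * ((-1) ^ cs.length u * (nq hq c0 u : ℚ)⁻¹)

lemma kap_inv (T : Finset B) (u : W) : kap hq c0 T u⁻¹ = kap hq c0 T u := by
  unfold kap
  rw [nq_inv, cs.length_inv]

/-- the projection of the characteristic function of a chamber -/
noncomputable def pk (T : Finset B) (c : C) : C →₀ ℚ :=
  ∑ u ∈ parF cs T, ∑ d ∈ hq.sph c u, Finsupp.single d (kap hq c0 T u)

open Classical in
lemma pk_apply (T : Finset B) (c d : C) :
    pk hq c0 T c d = if Δ.δ c d ∈ parF cs T then kap hq c0 T (Δ.δ c d) else 0 := by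
  unfold pk
  simp only [Finsupp.finsetSum_apply, Finsupp.single_apply]
  have e1 : ∀ u ∈ parF cs T, ∑ x ∈ hq.sph c u, (if x = d then kap hq c0 T u else 0) =
      if Δ.δ c d = u then kap hq c0 T u else 0 := by
    intro u _
    rw [Finset.sum_ite_eq']
    simp only [Regular.mem_sph]
  rw [Finset.sum_congr rfl e1, Finset.sum_ite_eq]

lemma mem_parF_inv (T : Finset B) (u : W) : u⁻¹ ∈ parF cs T ↔ u ∈ parF cs T := by
  by_cases h : Sph cs T
  · rw [mem_parF h, mem_parF h, Subgroup.inv_mem_iff]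
  · unfold parF
    rw [dif_neg h]
    simp

lemma pk_symm (T : Finset B) (c d : C) : pk hq c0 T c d = pk hq c0 T d c := by
  rw [pk_apply, pk_apply, Δ.symm c d, kap_inv]
  have h := mem_parF_inv (cs := cs) T (Δ.δ c d)
  by_cases h1 : Δ.δ c d ∈ parF cs T
  · rw [if_pos h1, if_pos (h.2 h1)]
  · rw [if_neg h1, if_neg (fun h2 => h1 (h.1 h2))]

open Classical in
lemma panZ_pk (T : Finset B) {s : B} (hs : s ∈ T) (c : C) : hq.PanZ s (pk hq c0 T c) := by
  by_cases hT : Sph cs T
  swap
  · have : pk hq c0 T c = 0 := by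
      unfold pk parF
      rw [dif_neg hT]; simp
    rw [this]
    exact panZ_zero s
  refine hq.panZ_of_gate c ?_
  intro d hd
  rw [hq.sum_pan]
  have hs' : cs.simple s ∈ par cs (T : Set B) := simple_mem_par (by exact_mod_cast hs)
  have e1 : ∀ e ∈ hq.sph d (cs.simple s), pk hq c0 T c e =
      if Δ.δ c d * cs.simple s ∈ parF cs T then kap hq c0 T (Δ.δ c d * cs.simple s) else 0 := by
    intro e he
    rw [Regular.mem_sph] at he
    rw [pk_apply, Δ.rstep_up he hd]
  rw [Finset.sum_congr rfl e1, Finset.sum_const, hq.card_simple, pk_apply]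
  have hiff : Δ.δ c d * cs.simple s ∈ parF cs T ↔ Δ.δ c d ∈ parF cs T := by
    rw [mem_parF hT, mem_parF hT, Subgroup.mul_mem_cancel_right _ hs']
  by_cases h : Δ.δ c d ∈ parF cs T
  · rw [if_pos h, if_pos (hiff.2 h)]
    unfold kap
    rw [nq_mul_simple hq c0 hd]
    have e2 : cs.length (Δ.δ c d * cs.simple s) = cs.length (Δ.δ c d) + 1 := by
      rcases cs.length_mul_simple (Δ.δ c d) s with h4 | h4 <;> omega
    rw [e2, pow_succ]
    have e3 : (q s : ℚ) ≠ 0 := by exact_mod_cast (hq s).1.ne'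
    have e4 : (nq hq c0 (Δ.δ c d) : ℚ) ≠ 0 := by exact_mod_cast (nq_pos hq c0 _).ne'
    push_cast
    rw [nsmul_eq_mul]
    field_simp
    ring
  · rw [if_neg h, if_neg (fun h' => h (hiff.1 h'))]; simp

/-- the reproducing property of the kernel -/
lemma sum_pk {E : Type*} [AddCommGroup E] [Module ℚ E] {T : Finset B} (hT : Sph cs T)
    (F : C → E) (hF : ∀ s ∈ T, hq.PanZ s F) (c : C) :
    ∑ u ∈ parF cs T, ∑ d ∈ hq.sph c u, kap hq c0 T u • F d = F c := by
  have e1 : ∀ u ∈ parF cs T, ∑ d ∈ hq.sph c u, kap hq c0 T u • F d =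
      ((NQ hq c0 T)⁻¹ * (nq hq c0 u : ℚ)⁻¹) • F c := by
    intro u hu
    rw [← Finset.smul_sum, hq.sum_sph_par (T := (T : Set B)) (fun s hs => hF s (by exact_mod_cast hs))
      c u (mem_par_of_mem_parF hu), ← Int.cast_smul_eq_zsmul ℚ, smul_smul]
    congr 1
    unfold kap
    push_cast
    have : ((-1 : ℚ) ^ cs.length u) * ((-1 : ℚ) ^ cs.length u) = 1 := by
      rw [← pow_add, ← two_mul, pow_mul]; norm_num
    calc _ = (NQ hq c0 T)⁻¹ * (nq hq c0 u : ℚ)⁻¹ * (((-1 : ℚ) ^ cs.length u) * ((-1 : ℚ) ^ cs.length u)) := by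
          ring
      _ = _ := by rw [this, mul_one]
  rw [Finset.sum_congr rfl e1, ← Finset.sum_smul, ← Finset.mul_sum]
  change ((NQ hq c0 T)⁻¹ * NQ hq c0 T) • F c = F c
  rw [inv_mul_cancel₀ (NQ_pos hq c0 hT).ne', one_smul]

/-- the projection on finitely supported functions -/
noncomputable def PQ (T : Finset B) : (C →₀ ℚ) →ₗ[ℚ] (C →₀ ℚ) :=
  Finsupp.linearCombination ℚ (pk hq c0 T)

lemma PQ_single (T : Finset B) (c : C) (a : ℚ) :
    PQ hq c0 T (Finsupp.single c a) = a • pk hq c0 T c := by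
  unfold PQ
  rw [Finsupp.linearCombination_single]

lemma panZ_PQ (T : Finset B) {s : B} (hs : s ∈ T) (G : C →₀ ℚ) : hq.PanZ s (PQ hq c0 T G) := by
  unfold PQ
  rw [Finsupp.linearCombination_apply, Finsupp.sum]
  exact panZ_sum _ fun c _ => panZ_smul _ (panZ_pk hq c0 T hs c)

lemma PQ_of_panZ {T : Finset B} (hT : Sph cs T) (G : C →₀ ℚ) (hG : ∀ s ∈ T, hq.PanZ s G) :
    PQ hq c0 T G = G := by
  classical
  ext d
  rw [← sum_pk hq c0 hT (fun c => G c) hG d]
  unfold PQ
  rw [Finsupp.linearCombination_apply, Finsupp.sum, Finsupp.finsetSum_apply]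
  simp only [Finsupp.smul_apply, smul_eq_mul]
  have e1 : ∀ c, pk hq c0 T c d = ∑ u ∈ parF cs T, ∑ x ∈ hq.sph d u, if x = c then kap hq c0 T u else 0 := by
    intro c
    rw [pk_symm]
    unfold pk
    simp only [Finsupp.finsetSum_apply, Finsupp.single_apply]
  simp only [e1, Finset.mul_sum]
  rw [Finset.sum_comm]
  refine Finset.sum_congr rfl fun u _ => ?_
  rw [Finset.sum_comm]
  refine Finset.sum_congr rfl fun x _ => ?_
  simp only [mul_ite, mul_zero]
  rw [Finset.sum_ite_eq]
  split_ifs with h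
  · ring
  · rw [Finsupp.notMem_support_iff.1 h, mul_zero]

end Weights

section Action

variable [Fintype B] [LinearOrder B] {Γ : Type*} [Group Γ] [MulAction Γ C] (hδ : ∀ (γ : Γ) (c d : C), Δ.δ (γ • c) (γ • d) = Δ.δ c d)

include hδ

lemma pan_smul {E : Type*} [AddCommMonoid E] (γ : Γ) (c : C) (s : B) (F : C → E) :
    ∑ d ∈ hq.pan c s, F (γ⁻¹ • d) = ∑ d ∈ hq.pan (γ⁻¹ • c) s, F d := by
  refine Finset.sum_nbij' (fun d => γ⁻¹ • d) (fun d => γ • d) ?_ ?_ ?_ ?_ ?_
  · intro d hd
    rw [hq.mem_pan] at hd ⊢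
    rcases hd with h | h
    · left; rw [h]
    · right; rw [hδ]; exact h
  · intro d hd
    rw [hq.mem_pan] at hd ⊢
    rcases hd with h | h
    · left; rw [h, smul_inv_smul]
    · right
      rw [← hδ γ⁻¹, inv_smul_smul]; exact h
  · intro d _; exact smul_inv_smul γ d
  · intro d _; exact inv_smul_smul γ d
  · intro d _; rfl

attribute [local instance] permMod

lemma panZ_single_smul {s : B} (γ : Γ) (a : ℚ) {G : C →₀ ℚ} (hG : hq.PanZ s G) :
    hq.PanZ s (⇑((MonoidAlgebra.single γ a : MonoidAlgebra ℚ Γ) • G)) := by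
  intro c
  simp only [single_smul_apply]
  rw [← Finset.mul_sum, pan_smul hq hδ γ c s (fun d => G d), hG, mul_zero]

lemma pk_smul (c0 : C) (T : Finset B) (γ : Γ) (c d : C) :
    pk hq c0 T (γ • c) d = pk hq c0 T c (γ⁻¹ • d) := by
  have : Δ.δ (γ • c) d = Δ.δ c (γ⁻¹ • d) := by rw [← hδ γ c, smul_inv_smul]
  rw [pk_apply, pk_apply, this]

lemma PQ_smul (c0 : C) (T : Finset B) (γ : Γ) (a : ℚ) (G : C →₀ ℚ) :
    PQ hq c0 T ((MonoidAlgebra.single γ a : MonoidAlgebra ℚ Γ) • G) =
      (MonoidAlgebra.single γ a : MonoidAlgebra ℚ Γ) • PQ hq c0 T G := by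
  induction G using Finsupp.induction_linear with
  | zero => simp
  | add x y hx hy => rw [smul_add, map_add, hx, hy, map_add, smul_add]
  | single c b =>
    rw [single_smul_single, PQ_single, PQ_single]
    ext d
    rw [single_smul_apply, Finsupp.smul_apply, Finsupp.smul_apply, pk_smul hq hδ]
    simp only [smul_eq_mul]
    ring

lemma inK_smul {k : ℕ} (r : MonoidAlgebra ℚ Γ) {F : Finset B → (C →₀ ℚ)} (hF : InK hq k F) :
    InK hq k (r • F) := by
  refine MonoidAlgebra.induction_linear r ?_ ?_ ?_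
  · rw [zero_smul]; exact InK.zero k
  · intro x y hx hy
    rw [add_smul]; exact hx.add hy
  · intro γ a T
    refine ⟨fun h => (hF T).1 (fun h1 => h ?_), fun s hs => ?_⟩
    · rw [Pi.smul_apply, h1, smul_zero]
    · exact panZ_single_smul hq hδ γ a ((hF T).2 s hs)

/-- the module of chains of degree `k` -/
def Kmod (k : ℕ) : Submodule (MonoidAlgebra ℚ Γ) (Finset B → (C →₀ ℚ)) where
  carrier := {F | InK hq k F}
  add_mem' hF hG := InK.add hF hG
  zero_mem' := InK.zero k
  smul_mem' r _ hF := inK_smul hq hδ r hF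

/-- the differential -/
noncomputable def dK (k : ℕ) : Kmod hq hδ (k + 1) →ₗ[MonoidAlgebra ℚ Γ] Kmod hq hδ k where
  toFun x := ⟨low x.1, InK.low x.2⟩
  map_add' x y := Subtype.ext (low_add' _ _)
  map_smul' r x := by
    apply Subtype.ext
    funext T
    change low (r • (x : Finset B → (C →₀ ℚ))) T = r • low (x : Finset B → (C →₀ ℚ)) T
    rw [low_eq, low_eq, Finset.smul_sum]
    refine Finset.sum_congr rfl fun s _ => ?_
    rw [Pi.smul_apply]
    exact smul_comm _ _ _

open Classical in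
/-- the retraction onto the chains of degree `k`, as an additive map -/
noncomputable def ret0 (c0 : C) (k : ℕ) : (Finset B → (C →₀ ℚ)) →+ Kmod hq hδ k where
  toFun F := ⟨fun T => if Sph cs T ∧ T.card = k then PQ hq c0 T (F T) else 0, by
    intro T
    constructor
    · intro h
      by_contra h'
      exact h (if_neg h')
    · intro s hs
      simp only
      split_ifs
      · exact panZ_PQ hq c0 T hs _
      · exact panZ_zero s⟩
  map_zero' := by
    apply Subtype.ext
    funext T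
    simp
  map_add' F G := by
    apply Subtype.ext
    funext T
    change (if Sph cs T ∧ T.card = k then PQ hq c0 T ((F + G) T) else 0) =
      (if Sph cs T ∧ T.card = k then PQ hq c0 T (F T) else 0) +
      (if Sph cs T ∧ T.card = k then PQ hq c0 T (G T) else 0)
    split_ifs
    · rw [Pi.add_apply, map_add]
    · rw [add_zero]

open Classical in
lemma ret0_apply (c0 : C) (k : ℕ) (F : Finset B → (C →₀ ℚ)) (T : Finset B) :
    (ret0 hq hδ c0 k F).1 T = if Sph cs T ∧ T.card = k then PQ hq c0 T (F T) else 0 := rfl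

/-- the retraction onto the chains of degree `k` -/
noncomputable def ret (c0 : C) (k : ℕ) :
    (Finset B → (C →₀ ℚ)) →ₗ[MonoidAlgebra ℚ Γ] Kmod hq hδ k := mkLin (ret0 hq hδ c0 k) (by
  intro γ a F
  apply Subtype.ext
  funext T
  change (ret0 hq hδ c0 k _).1 T =
    (MonoidAlgebra.single γ a : MonoidAlgebra ℚ Γ) • (ret0 hq hδ c0 k F).1 T
  rw [ret0_apply, ret0_apply]
  split_ifs
  · exact PQ_smul hq hδ c0 T γ a _
  · rw [smul_zero])

open Classical in
lemma ret_apply (c0 : C) (k : ℕ) (F : Finset B → (C →₀ ℚ)) (T : Finset B) :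
    (ret hq hδ c0 k F).1 T = if Sph cs T ∧ T.card = k then PQ hq c0 T (F T) else 0 := rfl

lemma ret_of_mem (c0 : C) (k : ℕ) (F : Kmod hq hδ k) : ret hq hδ c0 k F.1 = F := by
  classical
  obtain ⟨F, hF⟩ := F
  apply Subtype.ext
  funext T
  rw [ret_apply]
  change (if Sph cs T ∧ T.card = k then PQ hq c0 T (F T) else 0) = F T
  by_cases h : F T = 0
  · rw [h]; simp
  · rw [if_pos ((hF T).1 h), PQ_of_panZ hq c0 ((hF T).1 h).1 _ (hF T).2]

/-- chains of degree `k` form a projective module -/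
theorem Kmod_projective (c0 : C) (hfree : ∀ (γ : Γ) (c : C), γ • c = c → γ = 1) (k : ℕ) :
    Module.Projective (MonoidAlgebra ℚ Γ) (Kmod hq hδ k) := by
  have h1 : Module.Projective (MonoidAlgebra ℚ Γ) (C →₀ ℚ) := perm_projective hfree
  have h2 : Module.Projective (MonoidAlgebra ℚ Γ) (Finset B → (C →₀ ℚ)) :=
    pi_projective _ (fun _ => h1)
  refine Module.Projective.of_split (Kmod hq hδ k).subtype (ret hq hδ c0 k) ?_
  apply LinearMap.ext
  intro F
  exact ret_of_mem hq hδ c0 k F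

end Action

end Building

/-- the trivial module -/
def TrivQ : Type := ℚ

noncomputable instance : AddCommGroup TrivQ := inferInstanceAs (AddCommGroup ℚ)

/-- the augmentation of the rational group ring -/
noncomputable def augq (Γ : Type*) [Group Γ] : MonoidAlgebra ℚ Γ →+* ℚ :=
  (MonoidAlgebra.lift ℚ ℚ Γ 1).toRingHom

noncomputable instance (Γ : Type*) [Group Γ] : Module (MonoidAlgebra ℚ Γ) TrivQ :=
  Module.compHom ℚ (augq Γ)

end Pool.Agent.W721.ZB
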