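import Pool.Agent.W721.ZB.KMod

/-! The complex of the chambers is a projective resolution. -/

set_option autoImplicit false
set_option linter.unusedSectionVars false

namespace Pool.Agent.W721.ZB

open CoxeterSystem

lemma trivQ_smul {Γ : Type*} [Group Γ] (γ : Γ) (a : ℚ) (t : ℚ) :
    ((MonoidAlgebra.single γ a : MonoidAlgebra ℚ Γ) • (show TrivQ from t) : TrivQ) =
      (show TrivQ from (a * t)) := by
  change (MonoidAlgebra.lift ℚ ℚ Γ 1 (MonoidAlgebra.single γ a)) * t = a * t
  rw [MonoidAlgebra.lift_single]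
  simp

namespace Building

variable {B : Type*} {M : CoxeterMatrix B} {W : Type*} [Group W] {cs : CoxeterSystem M W}
  {C : Type*} {Δ : Building cs C} {q : B → ℕ} (hq : Δ.Regular q)
  [Fintype B] [LinearOrder B] {Γ : Type*} [Group Γ] [MulAction Γ C]
  (hδ : ∀ (γ : Γ) (c d : C), Δ.δ (γ • c) (γ • d) = Δ.δ c d)

attribute [local instance] permMod

lemma eps_smul (γ : Γ) (a : ℚ) (G : C →₀ ℚ) :
    eps ((MonoidAlgebra.single γ a : MonoidAlgebra ℚ Γ) • G) = a * eps G := by
  induction G using Finsupp.induction_linear with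
  | zero => simp
  | add x y hx hy => rw [smul_add, map_add, hx, hy, map_add, mul_add]
  | single c b =>
    rw [single_smul_single]
    unfold eps
    rw [Finsupp.linearCombination_single, Finsupp.linearCombination_single]
    simp

/-- the augmentation -/
noncomputable def eK : Kmod hq hδ 0 →ₗ[MonoidAlgebra ℚ Γ] TrivQ :=
  mkLin (M := Kmod hq hδ 0) (N := TrivQ)
    { toFun := fun x => (show TrivQ from (eps (x.1 ∅)))
      map_zero' := by
        change eps ((0 : Finset B → (C →₀ ℚ)) ∅) = 0
        simp
      map_add' := by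
        intro x y
        change eps ((x.1 + y.1) ∅) = eps (x.1 ∅) + eps (y.1 ∅)
        rw [Pi.add_apply, map_add] } (by
    intro γ a x
    change (show TrivQ from (eps ((MonoidAlgebra.single γ a : MonoidAlgebra ℚ Γ) • x.1 ∅))) =
      (MonoidAlgebra.single γ a : MonoidAlgebra ℚ Γ) • (show TrivQ from (eps (x.1 ∅)))
    rw [trivQ_smul, eps_smul])

lemma eK_apply (x : Kmod hq hδ 0) : eK hq hδ x = (show TrivQ from (eps (x.1 ∅))) := rfl

lemma exists_bound (c0 : C) (F : Finset B → (C →₀ ℚ)) :
    ∃ n, ∀ T c, F T c ≠ 0 → cs.length (Δ.δ c0 c) < n := by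
  classical
  refine ⟨(Finset.univ.biUnion (fun T : Finset B => (F T).support)).sup
    (fun c => cs.length (Δ.δ c0 c)) + 1, ?_⟩
  intro T c h
  have : c ∈ Finset.univ.biUnion (fun T : Finset B => (F T).support) :=
    Finset.mem_biUnion.2 ⟨T, Finset.mem_univ _, Finsupp.mem_support_iff.2 h⟩
  have := Finset.le_sup (f := fun c => cs.length (Δ.δ c0 c)) this
  omega

/-- the resolution given by the building -/
noncomputable def resK (c0 : C) :
    Res (MonoidAlgebra ℚ Γ) TrivQ (fun k => Kmod hq hδ k) where
  d := dK hq hδ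
  e := eK hq hδ
  surj := by
    classical
    intro a
    refine ⟨⟨fun T => if T = ∅ then Finsupp.single c0 (show ℚ from a) else 0, ?_⟩, ?_⟩
    · intro T
      constructor
      · intro h
        have hT : T = ∅ := by
          by_contra h'
          exact h (if_neg h')
        subst hT
        exact ⟨sph_empty, rfl⟩
      · intro s hs
        have hT : T ≠ ∅ := fun h => by rw [h] at hs; simp at hs
        simp only [if_neg hT]
        exact panZ_zero s
    · rw [eK_apply]
      simp only [if_true]
      change eps (Finsupp.single c0 (show ℚ from a)) = a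
      unfold eps
      rw [Finsupp.linearCombination_single]
      exact mul_one (show ℚ from a)
  ex0 := by
    rintro ⟨F, hF⟩
    constructor
    · intro h
      obtain ⟨n, hn⟩ := exists_bound (Δ := Δ) c0 F
      obtain ⟨H, hH, hHF⟩ := K_exact (hq := hq) c0 0 n F hF (InK.low_zero hF) (fun _ => h) hn
      exact ⟨⟨H, hH⟩, Subtype.ext hHF⟩
    · rintro ⟨⟨H, hH⟩, hHF⟩
      rw [eK_apply, ← hHF]
      exact eps_low hH
  ex := by
    rintro k ⟨F, hF⟩
    constructor
    · intro h
      obtain ⟨n, hn⟩ := exists_bound (Δ := Δ) c0 F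
      obtain ⟨H, hH, hHF⟩ := K_exact (hq := hq) c0 (k + 1) n F hF (congrArg Subtype.val h)
        (fun h => absurd h (Nat.succ_ne_zero k)) hn
      exact ⟨⟨H, hH⟩, Subtype.ext hHF⟩
    · rintro ⟨⟨H, hH⟩, hHF⟩
      rw [← hHF]
      apply Subtype.ext
      funext T
      exact low_low H T

end Building

end Pool.Agent.W721.ZB
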