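import Pool.Agent.W721.ZB.CFin

/-! Radial functions and the conclusion. -/

set_option autoImplicit false
set_option linter.unusedSectionVars false

open scoped Matrix ENNReal
open Pool.Agent.H919R4.ZS

namespace Pool.Agent.W721.ZB

universe u

namespace Building

variable {B : Type*} {M : CoxeterMatrix B} {W : Type*} [Group W] {cs : CoxeterSystem M W}
  {C : Type*} {Δ : Building cs C} {q : B → ℕ} (hq : Δ.Regular q)
  [Fintype B] [LinearOrder B] (c0 : C)

/-- the inverse square root of the size of a sphere -/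
noncomputable def rs (w : W) : ℝ := (√(nq hq c0 w : ℝ))⁻¹

lemma rs_sq (w : W) : rs hq c0 w * rs hq c0 w * (nq hq c0 w : ℝ) = 1 := by
  have h : (0 : ℝ) < nq hq c0 w := by exact_mod_cast nq_pos hq c0 w
  have h2 : √(nq hq c0 w : ℝ) ≠ 0 := Real.sqrt_ne_zero'.2 h
  unfold rs
  conv_lhs => rw [← Real.mul_self_sqrt h.le]
  rw [Real.sqrt_mul_self (Real.sqrt_nonneg _)]
  field_simp

/-- the normalised characteristic functions of the spheres -/
noncomputable def vr (y : Finset B × W) : HS (Finset B × C) :=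
  ((rs hq c0 y.2 : ℝ) : ℂ) • ∑ c ∈ hq.sph c0 y.2, bas (y.1, c)

open Classical in
lemma vr_apply (T : Finset B) (w : W) (S : Finset B) (c : C) :
    vr hq c0 (T, w) (S, c) = if S = T ∧ Δ.δ c0 c = w then ((rs hq c0 w : ℝ) : ℂ) else 0 := by
  unfold vr
  rw [lp.coeFn_smul, Pi.smul_apply, lp.coeFn_sum, Finset.sum_apply, smul_eq_mul]
  by_cases h : S = T ∧ Δ.δ c0 c = w
  · rw [if_pos h, Finset.sum_eq_single c]
    · rw [h.1, bas_self, mul_one]
    · intro d _ hd
      exact bas_ne (fun h' => hd (Prod.mk.inj h').2.symm)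
    · intro h'
      exact absurd ((hq.mem_sph).2 h.2) h'
  · rw [if_neg h, Finset.sum_eq_zero, mul_zero]
    intro d hd
    refine bas_ne (fun h' => h ?_)
    have := Prod.mk.inj h'
    exact ⟨this.1, by rw [this.2]; exact (hq.mem_sph).1 hd⟩

lemma orthonormal_vr : Orthonormal ℂ (vr hq c0) := by
  classical
  rw [orthonormal_iff_ite]
  rintro ⟨T, w⟩ ⟨T', w'⟩
  have e1 : inner ℂ (vr hq c0 (T, w)) (vr hq c0 (T', w')) =
      ((rs hq c0 w : ℝ) : ℂ) * ∑ c ∈ hq.sph c0 w, vr hq c0 (T', w') (T, c) := by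
    conv_lhs => rw [vr]
    rw [inner_smul_left, sum_inner, Complex.conj_ofReal]
    congr 1
    exact Finset.sum_congr rfl fun c _ => inner_bas _ _
  rw [e1]
  have e2 : ∀ c ∈ hq.sph c0 w, vr hq c0 (T', w') (T, c) =
      if T = T' ∧ w = w' then ((rs hq c0 w' : ℝ) : ℂ) else 0 := by
    intro c hc
    rw [vr_apply, (hq.mem_sph).1 hc]
  rw [Finset.sum_congr rfl e2, Finset.sum_const]
  by_cases h : T = T' ∧ w = w'
  · obtain ⟨rfl, rfl⟩ := h
    rw [if_pos ⟨rfl, rfl⟩, if_pos rfl, nsmul_eq_mul]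
    have h1 := rs_sq hq c0 w
    have h2 : (hq.sph c0 w).card = nq hq c0 w := rfl
    rw [h2]
    have h3 := congrArg (fun x : ℝ => (x : ℂ)) h1
    push_cast at h3
    rw [← h3]
    ring
  · rw [if_neg h, if_neg (fun h' => h (Prod.mk.inj h')), smul_zero, mul_zero]

/-- the isometry onto the radial functions -/
noncomputable def rad : HS (Finset B × W) →ₗᵢ[ℂ] HS (Finset B × C) :=
  (orthonormal_vr hq c0).orthogonalFamily.linearIsometry

lemma rad_apply (F : HS (Finset B × W)) (T : Finset B) (c : C) :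
    rad hq c0 F (T, c) = ((rs hq c0 (Δ.δ c0 c) : ℝ) : ℂ) * F (T, Δ.δ c0 c) := by
  classical
  have h1 := (orthonormal_vr hq c0).orthogonalFamily.hasSum_linearIsometry F
  have h2 := (innerSL ℂ (bas (T, c))).hasSum h1
  simp only [innerSL_apply_apply, inner_bas, LinearIsometry.toSpanSingleton_apply] at h2
  have h3 : HasSum (fun y : Finset B × W => (F y • vr hq c0 y) (T, c))
      ((F (T, Δ.δ c0 c) • vr hq c0 (T, Δ.δ c0 c)) (T, c)) := by
    refine hasSum_single _ ?_
    rintro ⟨S, w⟩ hne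
    rw [lp.coeFn_smul, Pi.smul_apply, vr_apply, if_neg, smul_zero]
    rintro ⟨h4, h5⟩
    exact hne (by rw [h4, h5])
  have h4 := h2.unique h3
  change (orthonormal_vr hq c0).orthogonalFamily.linearIsometry F (T, c) = _
  rw [h4, lp.coeFn_smul, Pi.smul_apply, vr_apply, if_pos ⟨rfl, rfl⟩, smul_eq_mul, mul_comm]

lemma rad_bas (T : Finset B) (w : W) : rad hq c0 (bas (T, w)) = vr hq c0 (T, w) := by
  classical
  ext ⟨S, c⟩
  rw [rad_apply, vr_apply]
  by_cases h : S = T ∧ Δ.δ c0 c = w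
  · rw [if_pos h, h.1, h.2, bas_self, mul_one]
  · rw [if_neg h, bas_ne (fun h' => h (Prod.mk.inj h')), mul_zero]

lemma ND_rad (F : HS (Finset B × W)) : ND (rad hq c0 F) = rad hq c0 (ND F) := by
  ext ⟨T, c⟩
  rw [ND_apply, rad_apply, ND_apply, Finset.mul_sum]
  refine Finset.sum_congr rfl fun s _ => ?_
  simp only [tg_apply]
  rw [rad_apply]
  have : cD s (T, c) = cD s (T, Δ.δ c0 c) := rfl
  rw [this]
  ring

lemma NU_rad (F : HS (Finset B × W)) : NU (rad hq c0 F) = rad hq c0 (NU F) := by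
  ext ⟨T, c⟩
  rw [NU_apply, rad_apply, NU_apply, Finset.mul_sum]
  refine Finset.sum_congr rfl fun s _ => ?_
  simp only [tg_apply]
  rw [rad_apply]
  have : cU s (T, c) = cU s (T, Δ.δ c0 c) := rfl
  rw [this]
  ring

lemma rs_mul_simple {w : W} {s : B} (h : cs.length w < cs.length (w * cs.simple s)) :
    rs hq c0 (w * cs.simple s) = rs hq c0 w * (√(q s : ℝ))⁻¹ := by
  unfold rs
  rw [nq_mul_simple hq c0 h]
  push_cast
  rw [Real.sqrt_mul (by positivity), mul_inv]

lemma inEC_rad {F : HS (Finset B × W)} (hF : InE cs (fun s => (q s : ℝ)) F) :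
    InEC hq (rad hq c0 F) := by
  intro T
  constructor
  · intro h c
    rw [rad_apply, (hF T).1 h, mul_zero]
  · intro s hs
    by_cases hT : Sph cs T
    · refine hq.panZ_of_gate c0 ?_
      intro d hd
      rw [hq.sum_pan]
      have e1 : ∀ e ∈ hq.sph d (cs.simple s), rad hq c0 F (T, e) =
          (((rs hq c0 (Δ.δ c0 d) * (√(q s : ℝ))⁻¹ : ℝ)) : ℂ) *
            (((-(√(q s : ℝ))⁻¹ : ℝ) : ℂ) * F (T, Δ.δ c0 d)) := by
        intro e he
        rw [hq.mem_sph] at he
        rw [rad_apply, Δ.rstep_up he hd, (hF T).2 hT _ s hs hd, rs_mul_simple hq c0 hd]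
      rw [Finset.sum_congr rfl e1, Finset.sum_const, hq.card_simple, rad_apply, nsmul_eq_mul]
      have h1 : (0 : ℝ) < q s := by exact_mod_cast (hq s).1
      have h2 : ((√(q s : ℝ) : ℝ) : ℂ) ≠ 0 := by
        exact_mod_cast Real.sqrt_ne_zero'.2 h1
      have h3 : ((q s : ℕ) : ℂ) = ((√(q s : ℝ) : ℝ) : ℂ) * ((√(q s : ℝ) : ℝ) : ℂ) := by
        rw [← Complex.ofReal_mul, Real.mul_self_sqrt h1.le]; simp
      rw [h3]
      push_cast
      field_simp
      ring
    · intro c
      refine Finset.sum_eq_zero fun d _ => ?_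
      rw [rad_apply, (hF T).1 hT, mul_zero]

/-- the adjoint of the isometry maps chains to weighted sign-invariant functions -/
lemma inE_rad_adj {Φ : HS (Finset B × C)} (hΦ : InEC hq Φ) :
    InE cs (fun s => (q s : ℝ))
      (ContinuousLinearMap.adjoint (rad hq c0).toContinuousLinearMap Φ) := by
  have e0 : ∀ T w, ContinuousLinearMap.adjoint (rad hq c0).toContinuousLinearMap Φ (T, w) =
      ((rs hq c0 w : ℝ) : ℂ) * ∑ c ∈ hq.sph c0 w, Φ (T, c) := by
    intro T w
    rw [← inner_bas, ContinuousLinearMap.adjoint_inner_right]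
    change inner ℂ (rad hq c0 (bas (T, w))) Φ = _
    rw [rad_bas, vr, inner_smul_left, sum_inner, Complex.conj_ofReal]
    congr 1
    exact Finset.sum_congr rfl fun c _ => inner_bas _ _
  intro T
  constructor
  · intro h w
    rw [e0, Finset.sum_eq_zero, mul_zero]
    intro c _
    exact (hΦ T).1 h c
  · intro h w t ht hlt
    rw [e0, e0, hq.sum_sph_of_panZ ((hΦ T).2 t ht) c0 hlt, rs_mul_simple hq c0 hlt]
    push_cast
    ring

end Building

section Final

variable {B : Type*} {M : CoxeterMatrix B} {W : Type*} [Group W] {cs : CoxeterSystem M W}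
  {C : Type*} {Δ : Building cs C} {q : B → ℕ}

open Building in
/-- The main theorem, for a linearly ordered finite set of generators. -/
theorem main_order (hq : Δ.Regular q) [Fintype B] [LinearOrder B] {G : Type u} [Group G]
    (H : Subgroup G) [H.FiniteIndex] [MulAction H C] [Finite (MulAction.orbitRel.Quotient H C)]
    (hδ : ∀ (γ : H) (c d : C), Δ.δ (γ • c) (γ • d) = Δ.δ c d)
    (hfree : ∀ (γ : H) (c : C), γ • c = c → γ = 1) (X : FinRes G) (hV : VanAll X) (c0 : C) :
    False := by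
  obtain ⟨K, δ, hK, h⟩ := coercive_C hq H hδ hfree X hV c0
  have hn := isWeight_nq hq c0
  refine not_coercive hn hK ?_
  intro F hF
  obtain ⟨h1, h2, h3⟩ := h (rad hq c0 F) (inEC_rad hq c0 hF)
  rw [LinearIsometry.norm_map, ND_rad, LinearIsometry.norm_map] at h3
  refine h3.trans (mul_le_mul_of_nonneg_left (add_le_add le_rfl ?_) hK.le)
  set e := δ (rad hq c0 F) with he
  set e' := ContinuousLinearMap.adjoint (rad hq c0).toContinuousLinearMap e with he'
  have h4 : inner ℂ e e = inner ℂ (PP cs (fun w => (nq hq c0 w : ℝ)) (NU F)) e' := by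
    rw [h2 e h1, ← inner_NU, NU_rad, inner_PP, PP_of_inE hn (inE_rad_adj hq c0 h1),
      ContinuousLinearMap.adjoint_inner_right]
    rfl
  have h5 : ‖e'‖ ≤ ‖e‖ := by
    have h6 := ContinuousLinearMap.le_opNorm
      (ContinuousLinearMap.adjoint (rad hq c0).toContinuousLinearMap) e
    rw [LinearIsometryEquiv.norm_map] at h6
    refine h6.trans ?_
    have h7 := (rad hq c0).norm_toContinuousLinearMap_le
    calc _ ≤ 1 * ‖e‖ := mul_le_mul_of_nonneg_right h7 (norm_nonneg _)
      _ = ‖e‖ := one_mul _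
  have h8 : ‖e‖ * ‖e‖ ≤ ‖PP cs (fun w => (nq hq c0 w : ℝ)) (NU F)‖ * ‖e‖ := by
    calc ‖e‖ * ‖e‖ = ‖inner ℂ e e‖ := by
          rw [inner_self_eq_norm_sq_to_K]; simp [pow_two]
      _ = ‖inner ℂ (PP cs (fun w => (nq hq c0 w : ℝ)) (NU F)) e'‖ := by rw [h4]
      _ ≤ ‖PP cs (fun w => (nq hq c0 w : ℝ)) (NU F)‖ * ‖e'‖ := norm_inner_le_norm _ _
      _ ≤ _ := by gcongr
  rcases eq_or_lt_of_le (norm_nonneg e) with h9 | h9
  · rw [← h9]; exact norm_nonneg _
  · exact le_of_mul_le_mul_right h8 h9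

/-- Zero-in-the-spectrum for groups commensurable to uniform lattices in buildings. -/
theorem main_building [Finite B] [Nonempty C] (hq : Δ.Regular q) {G : Type u} [Group G]
    (H : Subgroup G) [H.FiniteIndex] [MulAction H C] [Finite (MulAction.orbitRel.Quotient H C)]
    (hδ : ∀ (γ : H) (c d : C), Δ.δ (γ • c) (γ • d) = Δ.δ c d)
    (hfree : ∀ (γ : H) (c : C), γ • c = c → γ = 1) (X : FinRes G) :
    ∃ i, Nontrivial (X.homology (toRed G) i) := by
  classical
  by_contra hcon
  push Not at hcon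
  have hs : ∀ i, Subsingleton (X.homology (toRed G) i) := hcon
  cases nonempty_fintype B
  obtain ⟨c0⟩ := ‹Nonempty C›
  let _ : LinearOrder B := LinearOrder.lift' (Fintype.equivFin B) (Fintype.equivFin B).injective
  exact main_order hq H hδ hfree X (vanAll_of_homology X hs) c0

end Final

end Pool.Agent.W721.ZB
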