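import Pool.Agent.W721.ZB.Wp

/-! The signs and the operators changing the type. -/

set_option autoImplicit false
set_option linter.unusedSectionVars false

namespace Pool.Agent.W721.ZB

section Signs

variable {B : Type*} [Fintype B] [LinearOrder B]

/-- the incidence signs -/
def sgz (s : B) (T : Finset B) : ℤ := (-1) ^ (T.filter (fun t => t < s)).card

lemma sgz_sq (s : B) (T : Finset B) : sgz s T * sgz s T = 1 := by
  unfold sgz
  rw [← pow_add, ← two_mul, pow_mul]; norm_num

lemma sgz_insert {s t : B} {T : Finset B} (ht : t ∉ T) :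
    sgz s (insert t T) = (if t < s then -1 else 1) * sgz s T := by
  unfold sgz
  rw [Finset.filter_insert]
  split_ifs with h
  · rw [Finset.card_insert_of_notMem (fun h' => ht (Finset.mem_filter.1 h').1), pow_succ]; ring
  · ring

lemma sgz_insert_self {s : B} {T : Finset B} (hs : s ∉ T) : sgz s (insert s T) = sgz s T := by
  rw [sgz_insert hs]; simp

lemma sgz_swap {s t : B} {T : Finset B} (hs : s ∉ T) (ht : t ∉ T) (hst : s ≠ t) :
    sgz t T * sgz s (insert t T) = - (sgz s T * sgz t (insert s T)) := by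
  rw [sgz_insert ht, sgz_insert hs]
  rcases lt_or_gt_of_ne hst with h | h
  · rw [if_neg (not_lt.2 h.le), if_pos h]; ring
  · rw [if_pos h, if_neg (not_lt.2 h.le)]; ring

lemma abs_sgz (s : B) (T : Finset B) : |((sgz s T : ℤ) : ℝ)| = 1 := by
  unfold sgz
  push_cast
  rw [abs_pow]; simp

/-- the lowering differential on families indexed by types -/
def low {E : Type*} [AddCommGroup E] (φ : Finset B → E) (T : Finset B) : E :=
  ∑ s ∈ Tᶜ, sgz s T • φ (insert s T)

lemma low_low {E : Type*} [AddCommGroup E] (φ : Finset B → E) (T : Finset B) :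
    low (low φ) T = 0 := by
  unfold low
  simp only [Finset.smul_sum]
  rw [Finset.sum_sigma']
  refine Finset.sum_involution (fun x _ => ⟨x.2, x.1⟩) ?_ ?_ ?_ ?_
  · rintro ⟨s, t⟩ h
    simp only [Finset.mem_sigma, Finset.mem_compl, Finset.mem_insert, not_or] at h
    obtain ⟨h1, h2, h3⟩ := h
    simp only
    rw [smul_smul, smul_smul, Finset.insert_comm t s T, ← add_smul,
      sgz_swap h3 h1 h2]
    simp
  · rintro ⟨s, t⟩ h _ h'
    simp only [Finset.mem_sigma, Finset.mem_compl, Finset.mem_insert, not_or] at h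
    simp only [Sigma.mk.injEq, heq_eq_eq] at h'
    exact h.2.1 h'.1
  · rintro ⟨s, t⟩ h
    simp only [Finset.mem_sigma, Finset.mem_compl, Finset.mem_insert, not_or] at h ⊢
    exact ⟨h.2.2, fun h' => h.2.1 h'.symm, h.1⟩
  · rintro ⟨s, t⟩ _
    rfl

/-- the cone on a vertex -/
def cone {E : Type*} [AddCommGroup E] (a : B) (φ : Finset B → E) (T : Finset B) : E :=
  if a ∈ T then sgz a (T.erase a) • φ (T.erase a) else 0

lemma low_cone {E : Type*} [AddCommGroup E] (a : B) (φ : Finset B → E) (h : low φ = 0)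
    (T : Finset B) : low (cone a φ) T = φ T := by
  unfold low
  by_cases ha : a ∈ T
  · obtain ⟨T0, hT0, rfl⟩ : ∃ T0, a ∉ T0 ∧ T = insert a T0 :=
      ⟨T.erase a, Finset.notMem_erase a T, (Finset.insert_erase ha).symm⟩
    have h0 := congrFun h T0
    unfold low at h0
    have e1 : (T0ᶜ : Finset B) = insert a (insert a T0)ᶜ := by
      ext x
      simp only [Finset.mem_compl, Finset.mem_insert, not_or]
      by_cases hx : x = a
      · subst hx; simp [hT0]
      · simp [hx]
    rw [e1, Finset.sum_insert (by simp)] at h0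
    have e2 : ∀ s ∈ (insert a T0)ᶜ, sgz s (insert a T0) • cone a φ (insert s (insert a T0)) =
        (- sgz a T0) • (sgz s T0 • φ (insert s T0)) := by
      intro s hs
      simp only [Finset.mem_compl, Finset.mem_insert, not_or] at hs
      unfold cone
      have e3 : (insert s (insert a T0)).erase a = insert s T0 := by
        ext x
        simp only [Finset.mem_erase, Finset.mem_insert]
        constructor
        · rintro ⟨h1, h2 | h2 | h2⟩
          · exact Or.inl h2
          · exact absurd h2 h1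
          · exact Or.inr h2
        · rintro (h1 | h1)
          · subst h1; exact ⟨hs.1, Or.inl rfl⟩
          · exact ⟨fun h2 => hT0 (h2 ▸ h1), Or.inr (Or.inr h1)⟩
      rw [if_pos (by simp), e3, smul_smul, smul_smul]
      congr 1
      have e4 := sgz_swap hs.2 hT0 hs.1
      have e5 := sgz_sq a (insert s T0)
      have e6 := sgz_sq a T0
      have e7 := sgz_sq s (insert a T0)
      have e8 := sgz_sq s T0
      calc sgz s (insert a T0) * sgz a (insert s T0)
          = (sgz a T0 * sgz a T0) * (sgz s (insert a T0) * sgz a (insert s T0)) := by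
            rw [e6, one_mul]
        _ = sgz a T0 * (sgz a T0 * sgz s (insert a T0)) * sgz a (insert s T0) := by ring
        _ = - sgz a T0 * sgz s T0 * (sgz a (insert s T0) * sgz a (insert s T0)) := by
            rw [e4]; ring
        _ = _ := by rw [e5, mul_one]
    rw [Finset.sum_congr rfl e2, ← Finset.smul_sum, neg_smul, ← smul_neg]
    have e9 : - ∑ s ∈ (insert a T0)ᶜ, sgz s T0 • φ (insert s T0) = sgz a T0 • φ (insert a T0) := by
      rw [neg_eq_iff_add_eq_zero, add_comm]
      exact h0
    rw [e9, smul_smul, sgz_sq, one_smul]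
  · rw [Finset.sum_eq_single a]
    · unfold cone
      rw [if_pos (Finset.mem_insert_self a T), Finset.erase_insert ha, smul_smul, sgz_sq, one_smul]
    · intro s _ hs
      unfold cone
      rw [if_neg, smul_zero]
      rw [Finset.mem_insert]
      rintro (h1 | h1)
      · exact hs h1.symm
      · exact ha h1
    · intro h1
      exact absurd (Finset.mem_compl.2 ha) h1

end Signs

section Ops

variable {B : Type*} [Fintype B] [LinearOrder B] {Y : Type*}

lemma sdt_sdt (T : Finset B) (s : B) : symmDiff (symmDiff T {s}) {s} = T := by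
  rw [symmDiff_assoc, symmDiff_self]; simp

lemma sdt_of_notMem {T : Finset B} {s : B} (h : s ∉ T) : symmDiff T {s} = insert s T := by
  ext x
  simp only [Finset.mem_symmDiff, Finset.mem_singleton, Finset.mem_insert]
  constructor
  · rintro (⟨h1, -⟩ | ⟨h1, -⟩)
    · exact Or.inr h1
    · exact Or.inl h1
  · rintro (h1 | h1)
    · subst h1; exact Or.inr ⟨rfl, h⟩
    · exact Or.inl ⟨h1, fun h2 => h (h2 ▸ h1)⟩

lemma mem_sdt {T : Finset B} {s : B} : s ∈ symmDiff T {s} ↔ s ∉ T := by
  simp [Finset.mem_symmDiff]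

lemma sgz_sdt (T : Finset B) (s : B) : sgz s (symmDiff T {s}) = sgz s T := by
  by_cases h : s ∈ T
  · have h1 : s ∉ symmDiff T {s} := by rw [mem_sdt]; exact fun h2 => h2 h
    conv_rhs => rw [← sdt_sdt T s, sdt_of_notMem h1, sgz_insert_self h1]
  · rw [sdt_of_notMem h, sgz_insert_self h]

/-- the toggle of an element of the type -/
def tg (s : B) : Finset B × Y ≃ Finset B × Y where
  toFun y := (symmDiff y.1 {s}, y.2)
  invFun y := (symmDiff y.1 {s}, y.2)
  left_inv y := by simp [sdt_sdt]
  right_inv y := by simp [sdt_sdt]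

@[simp] lemma tg_apply (s : B) (y : Finset B × Y) : tg s y = (symmDiff y.1 {s}, y.2) := rfl

lemma tg_symm (s : B) : (tg s : Finset B × Y ≃ Finset B × Y).symm = tg s := rfl

/-- coefficients of the lowering operator -/
def cD (s : B) (y : Finset B × Y) : ℝ := if s ∈ y.1 then 0 else ((sgz s y.1 : ℤ) : ℝ)

/-- coefficients of the raising operator -/
def cU (s : B) (y : Finset B × Y) : ℝ := if s ∈ y.1 then ((sgz s y.1 : ℤ) : ℝ) else 0

lemma bdd_cD (s : B) : Bdd (cD (Y := Y) s) := by
  refine ⟨1, fun y => ?_⟩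
  unfold cD
  split_ifs
  · simp
  · rw [abs_sgz]

lemma bdd_cU (s : B) : Bdd (cU (Y := Y) s) := by
  refine ⟨1, fun y => ?_⟩
  unfold cU
  split_ifs
  · rw [abs_sgz]
  · simp

/-- the lowering operator -/
noncomputable def ND : HS (Finset B × Y) →L[ℂ] HS (Finset B × Y) :=
  ∑ s : B, wp (tg s) (cD s) (bdd_cD s)

/-- the raising operator -/
noncomputable def NU : HS (Finset B × Y) →L[ℂ] HS (Finset B × Y) :=
  ∑ s : B, wp (tg s) (cU s) (bdd_cU s)

lemma ND_apply (F : HS (Finset B × Y)) (y : Finset B × Y) :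
    ND F y = ∑ s : B, (cD s y : ℂ) * F (tg s y) := by
  unfold ND
  rw [sum_apply, lp.coeFn_sum, Finset.sum_apply]
  rfl

lemma NU_apply (F : HS (Finset B × Y)) (y : Finset B × Y) :
    NU F y = ∑ s : B, (cU s y : ℂ) * F (tg s y) := by
  unfold NU
  rw [sum_apply, lp.coeFn_sum, Finset.sum_apply]
  rfl

lemma ND_apply_low (F : HS (Finset B × Y)) (T : Finset B) (y : Y) :
    ND F (T, y) = low (fun S => F (S, y)) T := by
  rw [ND_apply]
  unfold low
  rw [← Finset.sum_subset (Finset.subset_univ (Tᶜ))]
  · refine Finset.sum_congr rfl fun s hs => ?_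
    rw [Finset.mem_compl] at hs
    unfold cD
    rw [if_neg hs, tg_apply, sdt_of_notMem hs]
    push_cast
    rw [zsmul_eq_mul]
  · intro s _ hs
    rw [Finset.mem_compl, not_not] at hs
    unfold cD
    rw [if_pos hs]; simp

lemma ND_ND (F : HS (Finset B × Y)) : ND (ND F) = 0 := by
  ext ⟨T, y⟩
  rw [ND_apply_low]
  have : (fun S => ND F (S, y)) = low (fun S => F (S, y)) := by
    funext S
    exact ND_apply_low F S y
  rw [this, low_low]
  rfl

lemma inner_ND (F G : HS (Finset B × Y)) : inner ℂ (ND F) G = inner ℂ F (NU G) := by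
  unfold ND NU
  rw [sum_apply, sum_apply, sum_inner, inner_sum]
  refine Finset.sum_congr rfl fun s _ => ?_
  rw [inner_wp]
  congr 1
  ext y
  rw [wp_apply, wp_apply, tg_symm]
  congr 2
  unfold cD cU
  rw [tg_apply]
  simp only [mem_sdt, sgz_sdt]
  by_cases h : s ∈ y.1
  · rw [if_neg (not_not.2 h), if_pos h]
  · rw [if_pos h, if_neg h]

lemma inner_NU (F G : HS (Finset B × Y)) : inner ℂ (NU F) G = inner ℂ F (ND G) := by
  rw [← inner_conj_symm, ← inner_ND, inner_conj_symm]

lemma NU_NU (F : HS (Finset B × Y)) : NU (NU F) = 0 := by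
  refine ext_inner_right ℂ fun K => ?_
  rw [inner_NU, inner_NU, ND_ND]; simp

/-- the parity of the type -/
def cP (y : Finset B × Y) : ℝ := (-1) ^ y.1.card

lemma bdd_cP : Bdd (cP (B := B) (Y := Y)) := ⟨1, fun y => by unfold cP; rw [abs_pow]; simp⟩

/-- the grading operator -/
noncomputable def PE : HS (Finset B × Y) →L[ℂ] HS (Finset B × Y) :=
  wp (Equiv.refl _) cP bdd_cP

lemma PE_apply (F : HS (Finset B × Y)) (y : Finset B × Y) : PE F y = (cP y : ℂ) * F y := rfl

lemma cP_sdt (T : Finset B) (s : B) (y : Y) : cP (symmDiff T {s}, y) = - cP (T, y) := by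
  unfold cP
  by_cases h : s ∈ T
  · have h1 : s ∉ symmDiff T {s} := by rw [mem_sdt]; exact fun h2 => h2 h
    have h2 : T.card = (symmDiff T {s}).card + 1 := by
      conv_lhs => rw [← sdt_sdt T s, sdt_of_notMem h1, Finset.card_insert_of_notMem h1]
    simp only [h2, pow_succ]; ring
  · rw [sdt_of_notMem h, Finset.card_insert_of_notMem h, pow_succ]; ring

lemma ND_PE (F : HS (Finset B × Y)) : ND (PE F) = - PE (ND F) := by
  ext ⟨T, y⟩
  rw [lp.coeFn_neg, Pi.neg_apply, PE_apply, ND_apply, ND_apply, Finset.mul_sum,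
    ← Finset.sum_neg_distrib]
  refine Finset.sum_congr rfl fun s _ => ?_
  rw [PE_apply, tg_apply, cP_sdt]
  push_cast; ring

lemma NU_PE (F : HS (Finset B × Y)) : NU (PE F) = - PE (NU F) := by
  ext ⟨T, y⟩
  rw [lp.coeFn_neg, Pi.neg_apply, PE_apply, NU_apply, NU_apply, Finset.mul_sum,
    ← Finset.sum_neg_distrib]
  refine Finset.sum_congr rfl fun s _ => ?_
  rw [PE_apply, tg_apply, cP_sdt]
  push_cast; ring

end Ops

end Pool.Agent.W721.ZB
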