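import Pool.Agent.W721.ZB.Radial

/-! The thin building of a Coxeter group, and the corollary for Coxeter groups. -/

set_option autoImplicit false
set_option linter.unusedSectionVars false

open Pool.Agent.H919R4.ZS

namespace Pool.Agent.W721.ZB

universe u

variable {B : Type*} {M : CoxeterMatrix B} {W : Type*} [Group W] (cs : CoxeterSystem M W)

/-- A Coxeter group is a building over itself, with `δ(v, w) = v⁻¹ w`. -/
def thin : Building cs W where
  δ v w := v⁻¹ * w
  eq_one_iff v w := inv_mul_eq_one
  step c' c d s h := by
    right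
    have : c'⁻¹ = cs.simple s * c⁻¹ := by rw [← h]; group
    rw [this, mul_assoc]
  step_up c' c d s h _ := by
    have : c'⁻¹ = cs.simple s * c⁻¹ := by rw [← h]; group
    rw [this, mul_assoc]
  exists_step c d s := by
    refine ⟨c * cs.simple s, ?_, ?_⟩
    · rw [mul_inv_rev, cs.inv_simple, mul_assoc, inv_mul_cancel, mul_one]
    · rw [mul_inv_rev, cs.inv_simple, mul_assoc]

lemma thin_regular : (thin cs).Regular (fun _ => 1) := by
  intro s
  refine ⟨one_pos, fun c => ?_⟩
  rw [Set.ncard_eq_one]
  refine ⟨c * cs.simple s, ?_⟩
  ext d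
  change c⁻¹ * d = cs.simple s ↔ d = c * cs.simple s
  exact inv_mul_eq_iff_eq_mul

/-- The special case of Coxeter groups: if a subgroup `H` of finite index in `G` is isomorphic to a
subgroup of finite index in a finitely generated Coxeter group, then the homology of every finite
free resolution over `ℤ[G]` with coefficients in `C*_r(G)` does not vanish in some degree. -/
theorem coxeter {B : Type*} {M : CoxeterMatrix B} {W : Type*} [Group W]
    (cs : CoxeterSystem M W) [Finite B] {G : Type u} [Group G] (H : Subgroup G) [H.FiniteIndex] (φ : H →* W)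
    (hφ : Function.Injective φ) [φ.range.FiniteIndex] (X : FinRes G) :
    ∃ i, Nontrivial (X.homology (toRed G) i) := by
  let _ : MulAction H W := MulAction.compHom W φ
  have hsmul : ∀ (h : H) (w : W), h • w = φ h * w := fun _ _ => rfl
  have hfin : Finite (MulAction.orbitRel.Quotient H W) := by
    have hf : Finite (W ⧸ φ.range) := inferInstance
    let f : W ⧸ φ.range → MulAction.orbitRel.Quotient H W := fun x =>
      Quotient.mk (MulAction.orbitRel H W) (x.out)⁻¹
    refine Finite.of_surjective f ?_
    intro y
    obtain ⟨w, rfl⟩ := Quotient.exists_rep y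
    refine ⟨QuotientGroup.mk w⁻¹, ?_⟩
    apply Quotient.sound
    change (MulAction.orbitRel H W) _ _
    rw [MulAction.orbitRel_apply]
    have h1 : QuotientGroup.mk (s := φ.range) ((QuotientGroup.mk (s := φ.range) w⁻¹).out) =
        QuotientGroup.mk w⁻¹ := Quotient.out_eq' _
    rw [QuotientGroup.eq] at h1
    obtain ⟨h, hh⟩ := h1
    refine ⟨h, ?_⟩
    change φ h * w = _
    rw [hh]; group
  refine main_building (Δ := thin cs) (thin_regular cs) H ?_ ?_ X
  · intro γ c d
    change (γ • c)⁻¹ * (γ • d) = c⁻¹ * d
    rw [hsmul, hsmul]; group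
  · intro γ c hc
    rw [hsmul, mul_eq_right] at hc
    exact hφ (by rw [hc, map_one])

end Pool.Agent.W721.ZB
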