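import Pool.Agent.W721.ZB.WTrace

/-! Deformation of the weight and the conclusion on the level of the Coxeter group. -/

set_option autoImplicit false
set_option linter.unusedSectionVars false

open Filter Topology

namespace Pool.Agent.W721.ZB

open CoxeterSystem

variable {B : Type*} {M : CoxeterMatrix B} {W : Type*} [Group W] (cs : CoxeterSystem M W)

/-- the deformed weight -/
noncomputable def nx (n : W → ℝ) (x : ℝ) (w : W) : ℝ := x ^ cs.length w * n w

variable {cs} {q : B → ℝ} {n : W → ℝ}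

lemma isWeight_nx (hn : IsWeight cs q n) {x : ℝ} (hx : 0 < x) :
    IsWeight cs (fun s => x * q s) (nx cs n x) := by
  refine ⟨fun s => mul_pos hx (hn.qpos s), ?_⟩
  intro ω hω
  unfold nx
  rw [hn.word ω hω, hω]
  clear hω
  induction ω with
  | nil => simp
  | cons a ω ih =>
    rw [List.map_cons, List.prod_cons, List.map_cons, List.prod_cons, ← ih, List.length_cons,
      pow_succ]
    ring

lemma nx_one : nx cs n 1 = n := by
  funext w; simp [nx]

lemma continuousAt_NT (hn : IsWeight cs q n) (T : Finset B) :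
    ContinuousAt (fun x => NT cs (nx cs n x) T) 1 := by
  unfold NT
  refine tendsto_finsetSum _ fun u _ => ?_
  refine ContinuousAt.inv₀ ?_ ?_
  · unfold nx; fun_prop
  · rw [nx_one]; exact (hn.pos u).ne'

lemma continuousAt_nu (hn : IsWeight cs q n) (u : W) :
    ContinuousAt (fun x => nu cs (nx cs n x) u) 1 := by
  unfold nu
  refine ContinuousAt.mul continuousAt_const ?_
  refine ContinuousAt.inv₀ ?_ ?_
  · unfold nx; fun_prop
  · rw [nx_one]; exact Real.sqrt_ne_zero'.2 (hn.pos u)

variable [Fintype B]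

lemma continuousAt_pA (hn : IsWeight cs q n) (g : W) (T : Finset B) (u : W) :
    ContinuousAt (fun x => pA cs (nx cs n x) g T u) 1 := by
  unfold pA
  by_cases h : Sph cs T ∧ g ∈ par cs (T : Set B)
  · simp only [if_pos h]
    refine ((ContinuousAt.inv₀ (continuousAt_NT hn T) ?_).mul (continuousAt_nu hn u)).mul
      (continuousAt_nu hn _)
    rw [nx_one]; exact (NT_pos hn h.1).ne'
  · simp only [if_neg h]
    exact continuousAt_const

lemma continuousAt_wp (hn : IsWeight cs q n) (g : W) :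
    ContinuousAt (fun x => wp (shR g) (pa cs (nx cs n x) g) (bdd_pa cs (nx cs n x) g)) 1 := by
  unfold ContinuousAt
  rw [tendsto_iff_norm_sub_tendsto_zero]
  refine squeeze_zero (fun x => norm_nonneg _)
    (g := fun x => ∑ T : Finset B, ∑ u ∈ parF cs T, |pA cs (nx cs n x) g T u -
      pA cs (nx cs n 1) g T u|) ?_ ?_
  · intro x
    rw [wp_sub]
    refine norm_wp_le _ _ _ _ ?_ (abs_pa_sub_le cs _ _ g)
    exact Finset.sum_nonneg (fun T _ => Finset.sum_nonneg (fun u _ => abs_nonneg _))
  · have h0 : (0 : ℝ) = ∑ T : Finset B, ∑ u ∈ parF cs T, |pA cs (nx cs n 1) g T u -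
      pA cs (nx cs n 1) g T u| := by simp
    conv => rhs; rw [h0]
    refine tendsto_finsetSum _ fun T _ => tendsto_finsetSum _ fun u _ => ?_
    exact ((continuousAt_pA hn g T u).tendsto.sub_const _).abs

lemma continuousAt_PP (hn : IsWeight cs q n) :
    ContinuousAt (fun x => PP cs (nx cs n x)) 1 := by
  unfold PP
  exact tendsto_finsetSum _ fun g _ => continuousAt_wp hn g

variable [LinearOrder B]

lemma continuousAt_BB (hn : IsWeight cs q n) :
    ContinuousAt (fun x => BB cs (nx cs n x)) 1 := by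
  have h1 := continuousAt_PP hn
  have h2 : ContinuousAt (fun x => DD cs (nx cs n x)) 1 := (h1.mul continuousAt_const).mul h1
  exact (h2.mul h2).add (continuousAt_const.sub h1)

lemma eventually_unit (hn : IsWeight cs q n) (hU : IsUnit (BB cs n)) :
    ∀ᶠ x in 𝓝 (1 : ℝ), IsUnit (BB cs (nx cs n x)) := by
  have h1 := continuousAt_BB hn
  have h2 : {a : HS (Finset B × W) →L[ℂ] HS (Finset B × W) | IsUnit a} ∈ 𝓝 (BB cs (nx cs n 1)) := by
    rw [nx_one]
    exact Units.isOpen.mem_nhds hU
  exact h1 h2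

/-- A rational function argument: a signed sum of inverses of polynomials which vanishes near `1`
vanishes on the positive axis. -/
lemma rat_zero {ι : Type*} (S : Finset ι) (c : ι → ℝ) (p : ι → Polynomial ℝ)
    (hp : ∀ i ∈ S, ∀ y : ℝ, 0 < y → (p i).eval y ≠ 0)
    (h : ∀ᶠ y in 𝓝 (1 : ℝ), ∑ i ∈ S, c i * ((p i).eval y)⁻¹ = 0) (y : ℝ) (hy : 0 < y) :
    ∑ i ∈ S, c i * ((p i).eval y)⁻¹ = 0 := by
  classical
  set Q : Polynomial ℝ := ∑ i ∈ S, Polynomial.C (c i) * ∏ j ∈ S.erase i, p j with hQ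
  have key : ∀ y : ℝ, 0 < y → Q.eval y = (∑ i ∈ S, c i * ((p i).eval y)⁻¹) * ∏ j ∈ S, (p j).eval y := by
    intro y hy
    rw [hQ, Polynomial.eval_finset_sum, Finset.sum_mul]
    refine Finset.sum_congr rfl fun i hi => ?_
    rw [Polynomial.eval_mul, Polynomial.eval_C, Polynomial.eval_prod,
      ← Finset.mul_prod_erase S _ hi]
    have := hp i hi y hy
    field_simp
  have hQ0 : Q = 0 := by
    apply Polynomial.eq_zero_of_infinite_isRoot
    have h1 : ∀ᶠ y in 𝓝 (1 : ℝ), Q.IsRoot y := by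
      filter_upwards [h, lt_mem_nhds (one_pos : (0 : ℝ) < 1)] with y h1 h2
      change Q.eval y = 0
      rw [key y h2, h1, zero_mul]
    exact infinite_of_mem_nhds (1 : ℝ) h1
  have h2 := key y hy
  rw [hQ0, Polynomial.eval_zero] at h2
  rcases mul_eq_zero.1 h2.symm with h3 | h3
  · exact h3
  · exfalso
    obtain ⟨i, hi, h4⟩ := Finset.prod_eq_zero_iff.1 h3
    exact hp i hi y hy h4

/-- the polynomial of a finite parabolic subgroup -/
noncomputable def pT (cs : CoxeterSystem M W) (n : W → ℝ) (T : Finset B) : Polynomial ℝ :=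
  ∑ u ∈ parF cs T, Polynomial.C (n u)⁻¹ * Polynomial.X ^ cs.length u

lemma pT_eval (T : Finset B) (y : ℝ) :
    (pT cs n T).eval y = NT cs (nx cs n y⁻¹) T := by
  unfold pT NT nx
  rw [Polynomial.eval_finset_sum]
  refine Finset.sum_congr rfl fun u _ => ?_
  rw [Polynomial.eval_mul, Polynomial.eval_C, Polynomial.eval_pow, Polynomial.eval_X, mul_inv,
    inv_pow, inv_inv, mul_comm]

lemma sph_empty : Sph cs (∅ : Finset B) := by
  unfold Sph par
  simp

lemma parF_empty : parF cs (∅ : Finset B) = {1} := by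
  ext g
  rw [mem_parF sph_empty]
  unfold par
  simp [Subgroup.mem_bot]

/-- The Laplacian of a weight is never invertible. -/
theorem not_isUnit_BB (hn : IsWeight cs q n) : ¬ IsUnit (BB cs n) := by
  classical
  intro hU
  set S : Finset (Finset B) := Finset.univ.filter (fun T => Sph cs T) with hS
  have h1 : ∀ᶠ x in 𝓝 (1 : ℝ), ∑ T ∈ S, (-1 : ℝ) ^ T.card * (NT cs (nx cs n x) T)⁻¹ = 0 := by
    filter_upwards [eventually_unit hn hU, lt_mem_nhds (one_pos : (0 : ℝ) < 1)] with x h1 h2
    convert euler_eq_zero (isWeight_nx hn h2) h1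
  have h2 : ∀ᶠ y in 𝓝 (1 : ℝ), ∑ T ∈ S, (-1 : ℝ) ^ T.card * ((pT cs n T).eval y)⁻¹ = 0 := by
    have h3 : Tendsto (fun y : ℝ => y⁻¹) (𝓝 1) (𝓝 1) := by
      have := (continuousAt_inv₀ (one_ne_zero : (1 : ℝ) ≠ 0)).tendsto
      rwa [inv_one] at this
    filter_upwards [h3.eventually h1] with y hy
    simp only [pT_eval]
    exact hy
  have h3 := rat_zero S (fun T => (-1 : ℝ) ^ T.card) (pT cs n) (by
    intro T hT y hy
    rw [pT_eval]
    exact (NT_pos (isWeight_nx hn (inv_pos.2 hy)) (Finset.mem_filter.1 hT).2).ne') h2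
  have h4 : Tendsto (fun y : ℝ => ∑ T ∈ S, (-1 : ℝ) ^ T.card * ((pT cs n T).eval y)⁻¹) atTop
      (𝓝 (∑ T ∈ S, if T = ∅ then 1 else 0)) := by
    refine tendsto_finsetSum _ fun T hT => ?_
    have hT' : Sph cs T := (Finset.mem_filter.1 hT).2
    by_cases hT0 : T = ∅
    · subst hT0
      rw [if_pos rfl]
      have : ∀ y : ℝ, (-1 : ℝ) ^ (∅ : Finset B).card * ((pT cs n ∅).eval y)⁻¹ = 1 := by
        intro y
        rw [pT_eval]
        unfold NT nx
        rw [parF_empty]
        simp [hn.one]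
      simp only [this]
      exact tendsto_const_nhds
    · rw [if_neg hT0]
      obtain ⟨s, hs⟩ := Finset.nonempty_iff_ne_empty.2 hT0
      have h5 : ∀ᶠ y : ℝ in atTop, (n (cs.simple s))⁻¹ * y ≤ (pT cs n T).eval y := by
        filter_upwards [eventually_gt_atTop 0] with y hy
        rw [pT_eval]
        unfold NT
        have h6 := Finset.single_le_sum (f := fun u => (nx cs n y⁻¹ u)⁻¹)
          (s := parF cs T) (fun u _ => (inv_pos.2 ((isWeight_nx hn (inv_pos.2 hy)).pos u)).le)
          ((mem_parF hT').2 (simple_mem_par (by exact_mod_cast hs)) : cs.simple s ∈ parF cs T)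
        refine le_trans (le_of_eq ?_) h6
        unfold nx
        rw [cs.length_simple]
        simp [mul_comm]
      have h6 : Tendsto (fun y : ℝ => (n (cs.simple s))⁻¹ * y) atTop atTop :=
        tendsto_id.const_mul_atTop (inv_pos.2 (hn.pos _))
      have h7 : Tendsto (fun y : ℝ => (pT cs n T).eval y) atTop atTop :=
        tendsto_atTop_mono' _ h5 h6
      have h8 := h7.inv_tendsto_atTop.const_mul ((-1 : ℝ) ^ T.card)
      rw [mul_zero] at h8
      exact h8
  have h5 : ∑ T ∈ S, (if T = ∅ then (1 : ℝ) else 0) = 1 := by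
    rw [Finset.sum_ite_eq' S ∅ (fun _ => (1 : ℝ)), if_pos]
    exact Finset.mem_filter.2 ⟨Finset.mem_univ _, sph_empty⟩
  rw [h5] at h4
  have h6 : Tendsto (fun y : ℝ => ∑ T ∈ S, (-1 : ℝ) ^ T.card * ((pT cs n T).eval y)⁻¹) atTop
      (𝓝 0) := by
    refine Tendsto.congr' ?_ tendsto_const_nhds
    filter_upwards [eventually_gt_atTop 0] with y hy
    exact (h3 y hy).symm
  exact zero_ne_one (tendsto_nhds_unique h6 h4)

end Pool.Agent.W721.ZB
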