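import Pool.Agent.W721.ZB.WOp

/-! The left Hecke operators and their commutation with the projections. -/

set_option autoImplicit false
set_option linter.unusedSectionVars false

namespace Pool.Agent.W721.ZB

open CoxeterSystem

variable {B : Type*} {M : CoxeterMatrix B} {W : Type*} [Group W] (cs : CoxeterSystem M W)

/-- left translation by a simple reflection on the total space -/
def shL (s : B) : Finset B × W ≃ Finset B × W where
  toFun y := (y.1, cs.simple s * y.2)
  invFun y := (y.1, cs.simple s * y.2)
  left_inv y := by simp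
  right_inv y := by simp

@[simp] lemma shL_apply (s : B) (y : Finset B × W) : shL cs s y = (y.1, cs.simple s * y.2) := rfl

lemma shL_symm (s : B) : (shL cs s).symm = shL cs s := rfl

lemma bdd_one {I : Type*} : Bdd (fun _ : I => (1 : ℝ)) := ⟨1, by simp⟩

open Classical in
/-- the diagonal coefficient of the left Hecke operator -/
noncomputable def lc (q : B → ℝ) (s : B) (y : Finset B × W) : ℝ :=
  if cs.length (cs.simple s * y.2) < cs.length y.2 then √(q s) - (√(q s))⁻¹ else 0

lemma bdd_lc (q : B → ℝ) (s : B) : Bdd (lc cs q s) := by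
  refine ⟨|√(q s) - (√(q s))⁻¹|, fun y => ?_⟩
  unfold lc
  split_ifs
  · exact le_rfl
  · rw [abs_zero]; exact abs_nonneg _

/-- The left Hecke operator. -/
noncomputable def LL (q : B → ℝ) (s : B) : HS (Finset B × W) →L[ℂ] HS (Finset B × W) :=
  wp (shL cs s) (fun _ => 1) bdd_one + wp (Equiv.refl _) (lc cs q s) (bdd_lc cs q s)

lemma LL_apply (q : B → ℝ) (s : B) (F : HS (Finset B × W)) (T : Finset B) (w : W) :
    LL cs q s F (T, w) = F (T, cs.simple s * w) + (lc cs q s (T, w) : ℂ) * F (T, w) := by
  unfold LL
  rw [add_apply, lp.coeFn_add, Pi.add_apply, wp_apply, wp_apply]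
  simp

lemma inner_LL (q : B → ℝ) (s : B) (F G : HS (Finset B × W)) :
    inner ℂ (LL cs q s F) G = inner ℂ F (LL cs q s G) := by
  unfold LL
  rw [add_apply, add_apply, inner_add_left, inner_add_right, inner_wp, inner_wp]
  rfl

variable {cs}

lemma weight_eq {q : B → ℝ} {n : W → ℝ} (hn : IsWeight cs q n) {w : W} {s t : B}
    (h1 : cs.length w < cs.length (cs.simple s * w))
    (h2 : cs.length w < cs.length (w * cs.simple t))
    (h : cs.simple s * w = w * cs.simple t) : q s = q t := by
  have e1 := hn.simple_mul h1
  have e2 := hn.mul_simple h2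
  rw [h, e2, mul_comm] at e1
  exact (mul_right_cancel₀ (hn.pos w).ne' e1).symm

/-- The left Hecke operators preserve the weighted sign-invariant functions. -/
lemma inE_LL {q : B → ℝ} {n : W → ℝ} (hn : IsWeight cs q n) (s : B) {F : HS (Finset B × W)}
    (hF : InE cs q F) : InE cs q (LL cs q s F) := by
  intro T
  constructor
  · intro h w
    rw [LL_apply, (hF T).1 h, (hF T).1 h]; simp
  intro h w t ht hlt
  rw [LL_apply, LL_apply, ← mul_assoc]
  have hw := cs.length_mul_simple w t
  have hs := cs.length_simple_mul w s
  have hst := cs.length_mul_simple (cs.simple s * w) t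
  have hts := cs.length_simple_mul (w * cs.simple t) s
  rw [← mul_assoc] at hts
  have hsq : √(q s) ≠ 0 := Real.sqrt_ne_zero'.2 (hn.qpos s)
  by_cases h1 : cs.length (cs.simple s * w) < cs.length w
  · -- case `s w < w`
    have h2 : cs.length (cs.simple s * w * cs.simple t) < cs.length (w * cs.simple t) := by omega
    have e1 : lc cs q s (T, w * cs.simple t) = √(q s) - (√(q s))⁻¹ := by
      unfold lc
      rw [if_pos (by rw [← mul_assoc]; exact h2)]
    have e2 : lc cs q s (T, w) = √(q s) - (√(q s))⁻¹ := by
      unfold lc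
      rw [if_pos h1]
    rw [e1, e2, (hF T).2 h w t ht hlt, (hF T).2 h (cs.simple s * w) t ht (by omega)]
    ring
  · have e2 : lc cs q s (T, w) = 0 := by
      unfold lc
      rw [if_neg h1]
    rw [e2]
    by_cases h2 : cs.length (cs.simple s * w * cs.simple t) < cs.length (w * cs.simple t)
    · have h3 := simple_mul_eq_mul_simple cs w s t (by omega) hlt h2
      have e1 : lc cs q s (T, w * cs.simple t) = √(q s) - (√(q s))⁻¹ := by
        unfold lc
        rw [if_pos (by rw [← mul_assoc]; exact h2)]
      have h4 : cs.simple s * w * cs.simple t = w := by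
        rw [h3, mul_assoc, cs.simple_mul_simple_self, mul_one]
      have h5 : q s = q t := weight_eq hn (by omega) hlt h3
      rw [h4, e1, h3, (hF T).2 h w t ht hlt, ← h5]
      push_cast
      have h6 : ((√(q s) : ℝ) : ℂ) ≠ 0 := by exact_mod_cast hsq
      field_simp
      ring
    · have e1 : lc cs q s (T, w * cs.simple t) = 0 := by
        unfold lc
        rw [if_neg (by rw [← mul_assoc]; exact h2)]
      rw [e1, (hF T).2 h (cs.simple s * w) t ht (by omega)]
      simp

section Comm

variable [Fintype B] {q : B → ℝ} {n : W → ℝ} (hn : IsWeight cs q n)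

include hn

/-- The projections commute with the left Hecke operators. -/
lemma PP_LL (s : B) (F : HS (Finset B × W)) :
    PP cs n (LL cs q s F) = LL cs q s (PP cs n F) := by
  have h1 : ∀ G, PP cs n (LL cs q s (PP cs n G)) = LL cs q s (PP cs n G) := fun G =>
    PP_of_inE hn (inE_LL hn s (inE_PP hn G))
  have h2 : ∀ G, PP cs n (LL cs q s (PP cs n G)) = PP cs n (LL cs q s G) := by
    intro G
    refine ext_inner_right ℂ fun K => ?_
    rw [inner_PP, inner_LL, inner_PP, inner_PP, inner_LL, ← inner_LL, h1, inner_LL, ← inner_LL]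
  rw [← h2, h1]

end Comm

end Pool.Agent.W721.ZB
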