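import Mathlib

/-! Weighted permutation operators on `ℓ²`. -/

set_option autoImplicit false

open scoped ENNReal ComplexConjugate

namespace Pool.Agent.W721.ZB

/-- `ℓ²(I)` -/
abbrev HS (I : Type*) : Type _ := lp (fun _ : I => ℂ) 2

variable {I : Type*}

lemma two_toReal_pos : 0 < (2 : ℝ≥0∞).toReal := by norm_num

/-- bounded real functions -/
def Bdd (a : I → ℝ) : Prop := ∃ K, ∀ i, |a i| ≤ K

lemma wp_aux (e : I ≃ I) (a : I → ℝ) (K : ℝ) (hK : ∀ i, |a i| ≤ K) (F : HS I) (s : Finset I) :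
    ∑ i ∈ s, ‖(a i : ℂ) * F (e i)‖ ^ (2 : ℝ≥0∞).toReal ≤ (K * ‖F‖) ^ (2 : ℝ≥0∞).toReal := by
  have h2 : (2 : ℝ≥0∞).toReal = ((2 : ℕ) : ℝ) := by norm_num
  have h3 := lp.sum_rpow_le_norm_rpow two_toReal_pos F (s.map e.toEmbedding)
  rw [Finset.sum_map] at h3
  rw [h2] at h3 ⊢
  simp only [Real.rpow_natCast] at h3 ⊢
  calc ∑ i ∈ s, ‖(a i : ℂ) * F (e i)‖ ^ 2 ≤ ∑ i ∈ s, K ^ 2 * ‖F (e i)‖ ^ 2 := by
        refine Finset.sum_le_sum fun i _ => ?_
        rw [norm_mul, mul_pow, Complex.norm_real, Real.norm_eq_abs]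
        have := hK i
        gcongr
    _ = K ^ 2 * ∑ i ∈ s, ‖F (e i)‖ ^ 2 := by rw [Finset.mul_sum]
    _ ≤ K ^ 2 * ‖F‖ ^ 2 := by
        have : 0 ≤ K ^ 2 := by positivity
        exact mul_le_mul_of_nonneg_left h3 this
    _ = (K * ‖F‖) ^ 2 := by ring

/-- The underlying linear map of a weighted permutation operator. -/
noncomputable def wpLin (e : I ≃ I) (a : I → ℝ) (h : Bdd a) : HS I →ₗ[ℂ] HS I where
  toFun F := ⟨fun i => (a i : ℂ) * F (e i), by
    obtain ⟨K, hK⟩ := h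
    exact memℓp_gen' (fun s => wp_aux e a K hK F s)⟩
  map_add' F G := by
    ext i
    change (a i : ℂ) * ((F + G : HS I) (e i)) = _ + _
    rw [lp.coeFn_add, Pi.add_apply, mul_add]
  map_smul' c F := by
    ext i
    change (a i : ℂ) * ((c • F : HS I) (e i)) = c * _
    rw [lp.coeFn_smul, Pi.smul_apply, smul_eq_mul]; ring

lemma wpLin_apply (e : I ≃ I) (a : I → ℝ) (h : Bdd a) (F : HS I) (i : I) :
    wpLin e a h F i = (a i : ℂ) * F (e i) := rfl

lemma norm_wpLin_le (e : I ≃ I) (a : I → ℝ) (h : Bdd a) (K : ℝ) (hK0 : 0 ≤ K)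
    (hK : ∀ i, |a i| ≤ K) (F : HS I) : ‖wpLin e a h F‖ ≤ K * ‖F‖ :=
  lp.norm_le_of_forall_sum_le two_toReal_pos (by positivity) (fun s => wp_aux e a K hK F s)

/-- The weighted permutation operator `(wp e a F)(i) = a(i) F(e i)`. -/
noncomputable def wp (e : I ≃ I) (a : I → ℝ) (h : Bdd a) : HS I →L[ℂ] HS I :=
  (wpLin e a h).mkContinuous (|h.choose|) (fun F => norm_wpLin_le e a h _ (abs_nonneg _)
    (fun i => (h.choose_spec i).trans (le_abs_self _)) F)

@[simp] lemma wp_apply (e : I ≃ I) (a : I → ℝ) (h : Bdd a) (F : HS I) (i : I) :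
    wp e a h F i = (a i : ℂ) * F (e i) := rfl

lemma norm_wp_le (e : I ≃ I) (a : I → ℝ) (h : Bdd a) (K : ℝ) (hK0 : 0 ≤ K)
    (hK : ∀ i, |a i| ≤ K) : ‖wp e a h‖ ≤ K :=
  ContinuousLinearMap.opNorm_le_bound _ hK0 (norm_wpLin_le e a h K hK0 hK)

lemma Bdd.sub {a b : I → ℝ} (ha : Bdd a) (hb : Bdd b) : Bdd (fun i => a i - b i) := by
  obtain ⟨K, hK⟩ := ha
  obtain ⟨L, hL⟩ := hb
  exact ⟨K + L, fun i => (abs_sub _ _).trans (add_le_add (hK i) (hL i))⟩

lemma wp_sub (e : I ≃ I) {a b : I → ℝ} (ha : Bdd a) (hb : Bdd b) :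
    wp e a ha - wp e b hb = wp e _ (ha.sub hb) := by
  ext F i
  simp only [sub_apply, lp.coeFn_sub, Pi.sub_apply, wp_apply]
  push_cast
  ring

lemma Bdd.comp {a : I → ℝ} (ha : Bdd a) (e : I ≃ I) : Bdd (fun i => a (e i)) := by
  obtain ⟨K, hK⟩ := ha
  exact ⟨K, fun i => hK _⟩

lemma inner_wp (e : I ≃ I) {a : I → ℝ} (ha : Bdd a) (F G : HS I) :
    inner ℂ (wp e a ha F) G = inner ℂ F (wp e.symm (fun i => a (e.symm i)) (ha.comp e.symm) G) := by
  rw [lp.inner_eq_tsum, lp.inner_eq_tsum]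
  conv_rhs => rw [← e.tsum_eq]
  refine tsum_congr fun i => ?_
  simp only [wp_apply, RCLike.inner_apply, map_mul, Complex.conj_ofReal, Equiv.symm_apply_apply]
  ring

open Classical in
/-- The basis vectors of `ℓ²(I)`. -/
noncomputable def bas (i : I) : HS I := lp.single 2 i (1 : ℂ)

open Classical in
lemma bas_apply (i j : I) : bas i j = if j = i then 1 else 0 := by
  unfold bas
  by_cases h : j = i
  · subst h; simp
  · rw [if_neg h, lp.single_apply_ne _ _ _ h]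

@[simp] lemma bas_self (i : I) : bas i i = 1 := by rw [bas_apply, if_pos rfl]

lemma bas_ne {i j : I} (h : j ≠ i) : bas i j = 0 := by rw [bas_apply, if_neg h]

lemma inner_bas (i : I) (F : HS I) : inner ℂ (bas i) F = F i := by
  classical
  unfold bas
  have := lp.inner_single_left (𝕜 := ℂ) (G := fun _ : I => ℂ) i (1 : ℂ) F
  simp only [RCLike.inner_apply, map_one, mul_one] at this
  convert this

lemma norm_bas (i : I) : ‖bas i‖ = 1 := by
  classical
  unfold bas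
  have h := lp.norm_single (E := fun _ : I => ℂ) (p := 2) (by norm_num) i (1 : ℂ)
  rw [norm_one] at h
  convert h

lemma wp_bas (e : I ≃ I) {a : I → ℝ} (ha : Bdd a) (j : I) :
    wp e a ha (bas j) = ((a (e.symm j) : ℝ) : ℂ) • bas (e.symm j) := by
  ext i
  rw [wp_apply, lp.coeFn_smul, Pi.smul_apply, smul_eq_mul]
  by_cases h : i = e.symm j
  · subst h; simp
  · rw [bas_ne h, bas_ne (fun h' => h (by rw [← h']; simp))]; simp

end Pool.Agent.W721.ZB
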