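import Pool.Agent.W721.ZB.Cox
import Pool.Agent.W721.ZB.Wp

/-! The projections onto weighted sign-invariant functions on a Coxeter group. -/

set_option autoImplicit false
set_option linter.unusedSectionVars false

namespace Pool.Agent.W721.ZB

open CoxeterSystem

variable {B : Type*} {M : CoxeterMatrix B} {W : Type*} [Group W] (cs : CoxeterSystem M W)

/-- A weight: a function on `W` which is multiplicative on reduced words. -/
structure IsWeight (q : B → ℝ) (n : W → ℝ) : Prop where
  qpos : ∀ s, 0 < q s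
  word : ∀ ω, cs.IsReduced ω → n (cs.wordProd ω) = (ω.map q).prod

section Weight

variable {cs} {q : B → ℝ} {n : W → ℝ} (hn : IsWeight cs q n)

include hn

lemma IsWeight.one : n 1 = 1 := by
  have := hn.word [] (by simp [CoxeterSystem.IsReduced])
  simpa using this

lemma IsWeight.pos (w : W) : 0 < n w := by
  obtain ⟨ω, h1, rfl⟩ := cs.exists_isReduced w
  rw [hn.word ω h1]
  refine List.prod_pos ?_
  intro a ha
  obtain ⟨b, -, rfl⟩ := List.mem_map.1 ha
  exact hn.qpos b

lemma IsWeight.mul {m u : W} (h : cs.length (m * u) = cs.length m + cs.length u) :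
    n (m * u) = n m * n u := by
  obtain ⟨μ, h1, rfl⟩ := cs.exists_isReduced m
  obtain ⟨ν, h2, rfl⟩ := cs.exists_isReduced u
  rw [hn.word μ h1, hn.word ν h2, ← cs.wordProd_append, hn.word, List.map_append, List.prod_append]
  unfold CoxeterSystem.IsReduced at h1 h2 ⊢
  rw [cs.wordProd_append, h, h1, h2, List.length_append]

lemma IsWeight.simple (s : B) : n (cs.simple s) = q s := by
  have := hn.word [s] (by simp [CoxeterSystem.IsReduced])
  simpa using this

lemma IsWeight.mul_simple {w : W} {s : B} (h : cs.length w < cs.length (w * cs.simple s)) :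
    n (w * cs.simple s) = n w * q s := by
  rw [hn.mul, hn.simple]
  rw [cs.length_simple]
  rcases cs.length_mul_simple w s with h1 | h1 <;> omega

lemma IsWeight.simple_mul {w : W} {s : B} (h : cs.length w < cs.length (cs.simple s * w)) :
    n (cs.simple s * w) = q s * n w := by
  rw [hn.mul, hn.simple]
  rw [cs.length_simple]
  rcases cs.length_simple_mul w s with h1 | h1 <;> omega

end Weight

/-- The finite parabolic subgroups. -/
def Sph (T : Finset B) : Prop := (par cs (T : Set B) : Set W).Finite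

open Classical in
/-- The elements of a finite parabolic subgroup. -/
noncomputable def parF (T : Finset B) : Finset W :=
  if h : Sph cs T then Set.Finite.toFinset h else ∅

variable {cs}

lemma mem_parF {T : Finset B} (h : Sph cs T) {g : W} :
    g ∈ parF cs T ↔ g ∈ par cs (T : Set B) := by
  unfold parF
  rw [dif_pos h]
  exact Set.Finite.mem_toFinset (s := (par cs (T : Set B) : Set W)) h

lemma mem_par_of_mem_parF {T : Finset B} {g : W} (hg : g ∈ parF cs T) :
    g ∈ par cs (T : Set B) := by
  by_cases h : Sph cs T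
  · exact (mem_parF h).1 hg
  · unfold parF at hg
    rw [dif_neg h] at hg
    simp at hg

variable (cs)

/-- The sign character. -/
noncomputable def sgn (w : W) : ℝ := (-1) ^ cs.length w

lemma sgn_sq (w : W) : sgn cs w * sgn cs w = 1 := by
  unfold sgn
  rw [← pow_add, ← two_mul, pow_mul]; norm_num

lemma sgn_mul_simple (w : W) (s : B) : sgn cs (w * cs.simple s) = - sgn cs w := by
  unfold sgn
  rcases cs.length_mul_simple w s with h | h
  · rw [h, pow_succ]; ring
  · rw [← h, pow_succ]; ring

lemma sgn_one : sgn cs (1 : W) = 1 := by simp [sgn]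

/-- The vector spanning the weighted sign invariants. -/
noncomputable def nu (n : W → ℝ) (u : W) : ℝ := sgn cs u * (√(n u))⁻¹

/-- The Poincare series of a finite parabolic subgroup in the inverse weight. -/
noncomputable def NT (n : W → ℝ) (T : Finset B) : ℝ := ∑ u ∈ parF cs T, (n u)⁻¹

section

variable {cs} {q : B → ℝ} {n : W → ℝ} (hn : IsWeight cs q n)

include hn

lemma nu_one : nu cs n 1 = 1 := by
  unfold nu; rw [hn.one, sgn_one]; simp

lemma nu_ne_zero (u : W) : nu cs n u ≠ 0 := by
  unfold nu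
  refine mul_ne_zero ?_ ?_
  · unfold sgn; exact pow_ne_zero _ (by norm_num)
  · exact inv_ne_zero (Real.sqrt_ne_zero'.2 (hn.pos u))

lemma nu_sq (u : W) : nu cs n u * nu cs n u = (n u)⁻¹ := by
  unfold nu
  have h1 := sgn_sq cs u
  have h2 := Real.mul_self_sqrt (hn.pos u).le
  calc sgn cs u * (√(n u))⁻¹ * (sgn cs u * (√(n u))⁻¹)
      = (sgn cs u * sgn cs u) * (√(n u) * √(n u))⁻¹ := by rw [mul_inv]; ring
    _ = _ := by rw [h1, h2, one_mul]

lemma nu_mul_simple {w : W} {s : B} (h : cs.length w < cs.length (w * cs.simple s)) :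
    nu cs n (w * cs.simple s) = - (√(q s))⁻¹ * nu cs n w := by
  unfold nu
  rw [sgn_mul_simple, hn.mul_simple h, Real.sqrt_mul (hn.pos w).le, mul_inv]
  ring

lemma NT_pos {T : Finset B} (h : Sph cs T) : 0 < NT cs n T := by
  unfold NT
  refine Finset.sum_pos (fun u _ => inv_pos.2 (hn.pos u)) ⟨1, ?_⟩
  rw [mem_parF h]
  exact Subgroup.one_mem _

omit hn in
/-- sums over a finite parabolic subgroup are translation invariant -/
lemma sum_parF_mul {E : Type*} [AddCommMonoid E] {T : Finset B} {a : W}
    (ha : a ∈ par cs (T : Set B)) (f : W → E) :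
    ∑ g ∈ parF cs T, f (a * g) = ∑ g ∈ parF cs T, f g := by
  by_cases h : Sph cs T
  · refine Finset.sum_bij (fun g _ => a * g) ?_ ?_ ?_ ?_
    · intro g hg
      rw [mem_parF h] at hg ⊢
      exact Subgroup.mul_mem _ ha hg
    · intro g _ g' _ h'
      exact mul_left_cancel h'
    · intro g hg
      refine ⟨a⁻¹ * g, ?_, by group⟩
      rw [mem_parF h] at hg ⊢
      exact Subgroup.mul_mem _ (Subgroup.inv_mem _ ha) hg
    · intro g _; rfl
  · unfold parF
    rw [dif_neg h]; simp

end

section Op

variable [Fintype B]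

/-- right translation on the total space -/
def shR (g : W) : Finset B × W ≃ Finset B × W :=
  Equiv.prodCongr (Equiv.refl _) (Equiv.mulRight g)

@[simp] lemma shR_apply (g : W) (T : Finset B) (w : W) : shR g (T, w) = (T, w * g) := rfl

open Classical in
/-- the coefficient, as a function of the component in the parabolic subgroup -/
noncomputable def pA (n : W → ℝ) (g : W) (T : Finset B) (u : W) : ℝ :=
  if Sph cs T ∧ g ∈ par cs (T : Set B) then (NT cs n T)⁻¹ * nu cs n u * nu cs n (u * g) else 0

/-- the coefficients of the projection -/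
noncomputable def pa (n : W → ℝ) (g : W) (y : Finset B × W) : ℝ :=
  pA cs n g y.1 (comp cs (y.1 : Set B) y.2)

lemma abs_pa_sub_le (n n' : W → ℝ) (g : W) (y : Finset B × W) :
    |pa cs n g y - pa cs n' g y| ≤
      ∑ T : Finset B, ∑ u ∈ parF cs T, |pA cs n g T u - pA cs n' g T u| := by
  obtain ⟨T, w⟩ := y
  unfold pa
  simp only
  by_cases h : Sph cs T
  · refine le_trans ?_ (Finset.single_le_sum (f := fun T : Finset B =>
      ∑ u ∈ parF cs T, |pA cs n g T u - pA cs n' g T u|)
      (fun T _ => Finset.sum_nonneg (fun u _ => abs_nonneg _)) (Finset.mem_univ T))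
    exact Finset.single_le_sum (f := fun u => |pA cs n g T u - pA cs n' g T u|)
      (fun u _ => abs_nonneg _) ((mem_parF h).2 (comp_mem cs _ w))
  · have h1 : pA cs n g T (comp cs (T : Set B) w) = 0 := by
      unfold pA; rw [if_neg (fun h' => h h'.1)]
    have h2 : pA cs n' g T (comp cs (T : Set B) w) = 0 := by
      unfold pA; rw [if_neg (fun h' => h h'.1)]
    rw [h1, h2, sub_zero, abs_zero]
    exact Finset.sum_nonneg (fun T _ => Finset.sum_nonneg (fun u _ => abs_nonneg _))

lemma abs_pa_le (n : W → ℝ) (g : W) (y : Finset B × W) :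
    |pa cs n g y| ≤ ∑ T : Finset B, ∑ u ∈ parF cs T, |pA cs n g T u| := by
  obtain ⟨T, w⟩ := y
  unfold pa
  simp only
  by_cases h : Sph cs T
  · refine le_trans ?_ (Finset.single_le_sum (f := fun T : Finset B =>
      ∑ u ∈ parF cs T, |pA cs n g T u|)
      (fun T _ => Finset.sum_nonneg (fun u _ => abs_nonneg _)) (Finset.mem_univ T))
    exact Finset.single_le_sum (f := fun u => |pA cs n g T u|)
      (fun u _ => abs_nonneg _) ((mem_parF h).2 (comp_mem cs _ w))
  · have h1 : pA cs n g T (comp cs (T : Set B) w) = 0 := by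
      unfold pA; rw [if_neg (fun h' => h h'.1)]
    rw [h1, abs_zero]
    exact Finset.sum_nonneg (fun T _ => Finset.sum_nonneg (fun u _ => abs_nonneg _))

lemma bdd_pa (n : W → ℝ) (g : W) : Bdd (pa cs n g) := ⟨_, abs_pa_le cs n g⟩

open Classical in
/-- the union of the finite parabolic subgroups -/
noncomputable def GG : Finset W := Finset.univ.biUnion (fun T : Finset B => parF cs T)

/-- The projection onto the weighted sign-invariant functions. -/
noncomputable def PP (n : W → ℝ) : HS (Finset B × W) →L[ℂ] HS (Finset B × W) :=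
  ∑ g ∈ GG cs, wp (shR g) (pa cs n g) (bdd_pa cs n g)

lemma PP_apply (n : W → ℝ) (F : HS (Finset B × W)) (y : Finset B × W) :
    PP cs n F y = ∑ g ∈ GG cs, (pa cs n g y : ℂ) * F (shR g y) := by
  unfold PP
  rw [sum_apply, lp.coeFn_sum, Finset.sum_apply]
  rfl

lemma PP_apply_not (n : W → ℝ) (F : HS (Finset B × W)) {T : Finset B} (h : ¬ Sph cs T) (w : W) :
    PP cs n F (T, w) = 0 := by
  rw [PP_apply]
  refine Finset.sum_eq_zero fun g _ => ?_
  have h1 : pa cs n g (T, w) = 0 := by
    unfold pa pA; rw [if_neg (fun h' => h h'.1)]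
  rw [h1]; simp

lemma PP_apply_sph (n : W → ℝ) (F : HS (Finset B × W)) {T : Finset B} (h : Sph cs T) (w : W) :
    PP cs n F (T, w) = ∑ g ∈ parF cs T, (((NT cs n T)⁻¹ * nu cs n (comp cs (T : Set B) w) *
      nu cs n (comp cs (T : Set B) w * g) : ℝ) : ℂ) * F (T, w * g) := by
  classical
  rw [PP_apply]
  symm
  rw [← Finset.sum_subset (s₁ := parF cs T) (s₂ := GG cs)]
  · refine Finset.sum_congr rfl fun g hg => ?_
    rw [mem_parF h] at hg
    unfold pa pA
    rw [if_pos ⟨h, hg⟩]
    rfl
  · intro g hg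
    exact Finset.mem_biUnion.2 ⟨T, Finset.mem_univ _, hg⟩
  · intro g _ hg
    rw [mem_parF h] at hg
    have h1 : pa cs n g (T, w) = 0 := by
      unfold pa pA; rw [if_neg (fun h' => hg h'.2)]
    rw [h1]; simp

/-- the weighted sign-invariant functions -/
def InE (q : B → ℝ) (F : HS (Finset B × W)) : Prop :=
  ∀ T : Finset B, (¬ Sph cs T → ∀ w, F (T, w) = 0) ∧
    (Sph cs T → ∀ w, ∀ t ∈ T, cs.length w < cs.length (w * cs.simple t) →
      F (T, w * cs.simple t) = ((-(√(q t))⁻¹ : ℝ) : ℂ) * F (T, w))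

variable {cs} {q : B → ℝ} {n : W → ℝ} (hn : IsWeight cs q n)

include hn

lemma InE.minrep {F : HS (Finset B × W)} (hF : InE cs q F) {T : Finset B} (h : Sph cs T) (w : W) :
    ∀ u ∈ par cs (T : Set B), F (T, minrep cs (T : Set B) w * u) =
      (nu cs n u : ℂ) * F (T, minrep cs (T : Set B) w) := by
  refine par_induction ?_ ?_
  · rw [nu_one hn]; simp
  · intro u hu t ht hlt ih
    rw [← mul_assoc, (hF T).2 h _ t ht, ih, nu_mul_simple hn hlt]
    · push_cast; ring
    · rw [mul_assoc, length_minrep_mul cs _ w u hu, length_minrep_mul cs _ w _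
        (Subgroup.mul_mem _ hu (simple_mem_par ht))]
      omega

lemma InE.prop {F : HS (Finset B × W)} (hF : InE cs q F) {T : Finset B} (h : Sph cs T) (w : W)
    {g : W} (hg : g ∈ par cs (T : Set B)) :
    (nu cs n (comp cs (T : Set B) w) : ℂ) * F (T, w * g) =
      (nu cs n (comp cs (T : Set B) w * g) : ℂ) * F (T, w) := by
  have h1 := hF.minrep hn h w _ (comp_mem cs _ w)
  have h2 := hF.minrep hn h w (comp cs (T : Set B) w * g) (Subgroup.mul_mem _ (comp_mem cs _ w) hg)
  rw [minrep_mul_comp] at h1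
  rw [← mul_assoc, minrep_mul_comp] at h2
  rw [h1, h2]
  ring

/-- the range of the projection -/
lemma inE_PP (F : HS (Finset B × W)) : InE cs q (PP cs n F) := by
  intro T
  refine ⟨fun h w => PP_apply_not cs n F h w, ?_⟩
  intro h w t ht hlt
  have ht' : cs.simple t ∈ par cs (T : Set B) := simple_mem_par ht
  rw [PP_apply_sph cs n F h, PP_apply_sph cs n F h, comp_mul cs _ _ _ ht', Finset.mul_sum]
  have hlt' : cs.length (comp cs (T : Set B) w) < cs.length (comp cs (T : Set B) w * cs.simple t) := by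
    have e1 := length_eq_minrep_comp cs (T : Set B) w
    have e2 := length_eq_minrep_comp cs (T : Set B) (w * cs.simple t)
    rw [minrep_mul cs _ _ _ ht', comp_mul cs _ _ _ ht'] at e2
    omega
  rw [nu_mul_simple hn hlt']
  have e3 := sum_parF_mul (cs := cs) ht' (fun g => ((-(√(q t))⁻¹ : ℝ) : ℂ) *
    ((((NT cs n T)⁻¹ * nu cs n (comp cs (T : Set B) w) *
      nu cs n (comp cs (T : Set B) w * g) : ℝ) : ℂ) * F (T, w * g)))
  rw [← e3]
  refine Finset.sum_congr rfl fun g _ => ?_
  rw [← mul_assoc w, ← mul_assoc (comp cs (T : Set B) w)]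
  push_cast
  ring

lemma sum_nu_sq {T : Finset B} (w : W) :
    ∑ g ∈ parF cs T, nu cs n (comp cs (T : Set B) w * g) * nu cs n (comp cs (T : Set B) w * g) =
      NT cs n T := by
  rw [sum_parF_mul (comp_mem cs _ w) (fun g => nu cs n g * nu cs n g)]
  unfold NT
  exact Finset.sum_congr rfl fun g _ => nu_sq hn g

/-- the projection is the identity on the weighted sign-invariant functions -/
lemma PP_of_inE {F : HS (Finset B × W)} (hF : InE cs q F) : PP cs n F = F := by
  ext ⟨T, w⟩
  by_cases h : Sph cs T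
  · rw [PP_apply_sph cs n F h]
    have e1 : ∀ g ∈ parF cs T, (((NT cs n T)⁻¹ * nu cs n (comp cs (T : Set B) w) *
        nu cs n (comp cs (T : Set B) w * g) : ℝ) : ℂ) * F (T, w * g) =
        (((NT cs n T)⁻¹ * (nu cs n (comp cs (T : Set B) w * g) *
          nu cs n (comp cs (T : Set B) w * g)) : ℝ) : ℂ) * F (T, w) := by
      intro g hg
      have := hF.prop hn h w (mem_par_of_mem_parF hg)
      calc _ = (((NT cs n T)⁻¹ * nu cs n (comp cs (T : Set B) w * g) : ℝ) : ℂ) *
            ((nu cs n (comp cs (T : Set B) w) : ℂ) * F (T, w * g)) := by push_cast; ring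
        _ = _ := by rw [this]; push_cast; ring
    rw [Finset.sum_congr rfl e1, ← Finset.sum_mul, ← Complex.ofReal_sum, ← Finset.mul_sum,
      sum_nu_sq hn, inv_mul_cancel₀ (NT_pos hn h).ne']
    simp
  · rw [PP_apply_not cs n F h, (hF T).1 h]

lemma PP_idem (F : HS (Finset B × W)) : PP cs n (PP cs n F) = PP cs n F :=
  PP_of_inE hn (inE_PP hn F)

omit hn in
/-- the projection is self-adjoint -/
lemma inner_PP (F G : HS (Finset B × W)) :
    inner ℂ (PP cs n F) G = inner ℂ F (PP cs n G) := by
  classical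
  unfold PP
  rw [sum_apply, sum_apply, sum_inner, inner_sum]
  refine Finset.sum_bij (fun g _ => g⁻¹) ?_ ?_ ?_ ?_
  · intro g hg
    obtain ⟨T, -, hT⟩ := Finset.mem_biUnion.1 hg
    refine Finset.mem_biUnion.2 ⟨T, Finset.mem_univ _, ?_⟩
    by_cases h : Sph cs T
    · rw [mem_parF h] at hT ⊢
      exact Subgroup.inv_mem _ hT
    · unfold parF at hT
      rw [dif_neg h] at hT
      simp at hT
  · intro g _ g' _ h'
    exact inv_injective h'
  · intro g hg
    refine ⟨g⁻¹, ?_, inv_inv g⟩
    obtain ⟨T, -, hT⟩ := Finset.mem_biUnion.1 hg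
    refine Finset.mem_biUnion.2 ⟨T, Finset.mem_univ _, ?_⟩
    by_cases h : Sph cs T
    · rw [mem_parF h] at hT ⊢
      exact Subgroup.inv_mem _ hT
    · unfold parF at hT
      rw [dif_neg h] at hT
      simp at hT
  · intro g _
    rw [inner_wp]
    congr 2
    have e1 : (shR g : Finset B × W ≃ Finset B × W).symm = shR g⁻¹ := by
      ext ⟨T, w⟩ <;> rfl
    have e2 : ∀ y, pa cs n g ((shR g).symm y) = pa cs n g⁻¹ y := by
      rintro ⟨T, w⟩
      rw [e1, shR_apply]
      unfold pa pA
      simp only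
      by_cases h : Sph cs T ∧ g ∈ par cs (T : Set B)
      · have h' : Sph cs T ∧ g⁻¹ ∈ par cs (T : Set B) := ⟨h.1, Subgroup.inv_mem _ h.2⟩
        rw [if_pos h, if_pos h', comp_mul cs _ _ _ h'.2, inv_mul_cancel_right]
        ring
      · have h' : ¬ (Sph cs T ∧ g⁻¹ ∈ par cs (T : Set B)) := fun h' =>
          h ⟨h'.1, by simpa using Subgroup.inv_mem _ h'.2⟩
        rw [if_neg h, if_neg h']
    ext F i
    rw [wp_apply, wp_apply, e2 i, e1]

end Op

end Pool.Agent.W721.ZB
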