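import Pool.Agent.W721.ZB.WLeft
import Pool.Agent.W721.ZB.Sign

/-! The supertrace on the commutant of the left Hecke operators. -/

set_option autoImplicit false
set_option linter.unusedSectionVars false

namespace Pool.Agent.W721.ZB

open CoxeterSystem

variable {B : Type*} {M : CoxeterMatrix B} {W : Type*} [Group W] (cs : CoxeterSystem M W)

lemma LL_bas (q : B → ℝ) (s : B) (T : Finset B) (v : W)
    (h : cs.length v < cs.length (cs.simple s * v)) :
    LL cs q s (bas (T, v)) = bas (T, cs.simple s * v) := by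
  unfold LL
  rw [add_apply, wp_bas, wp_bas, shL_symm, shL_apply]
  have h1 : lc cs q s (T, v) = 0 := by
    unfold lc
    exact if_neg (by change ¬ (cs.length (cs.simple s * v) < cs.length v); omega)
  simp [h1]

/-- the operator of a word -/
noncomputable def LW (q : B → ℝ) : List B → (HS (Finset B × W) →L[ℂ] HS (Finset B × W))
  | [] => ContinuousLinearMap.id ℂ _
  | s :: ω => (LL cs q s).comp (LW q ω)

lemma LW_append (q : B → ℝ) (ω ω' : List B) (F : HS (Finset B × W)) :
    LW cs q (ω ++ ω') F = LW cs q ω (LW cs q ω' F) := by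
  induction ω with
  | nil => rfl
  | cons s ω ih =>
    rw [List.cons_append]
    change LL cs q s (LW cs q (ω ++ ω') F) = _
    rw [ih]; rfl

lemma inner_LW (q : B → ℝ) (ω : List B) (F G : HS (Finset B × W)) :
    inner ℂ (LW cs q ω F) G = inner ℂ F (LW cs q ω.reverse G) := by
  induction ω generalizing F G with
  | nil => rfl
  | cons s ω ih =>
    change inner ℂ (LL cs q s (LW cs q ω F)) G = _
    rw [inner_LL, ih, List.reverse_cons, LW_append]
    rfl

lemma LW_bas (q : B → ℝ) (ω : List B) (h : cs.IsReduced ω) (T : Finset B) :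
    LW cs q ω (bas (T, 1)) = bas (T, cs.wordProd ω) := by
  induction ω with
  | nil => rw [cs.wordProd_nil]; rfl
  | cons s ω ih =>
    have h' : cs.IsReduced ω := by
      have := CoxeterSystem.IsReduced.drop h 1
      simpa using this
    change LL cs q s (LW cs q ω (bas (T, 1))) = _
    rw [ih h', LL_bas, cs.wordProd_cons]
    unfold CoxeterSystem.IsReduced at h h'
    rw [cs.wordProd_cons] at h
    rw [h, h']; simp

/-- operators commuting with the left Hecke operators -/
def ComL (q : B → ℝ) (A : HS (Finset B × W) →L[ℂ] HS (Finset B × W)) : Prop :=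
  ∀ s, Commute A (LL cs q s)

variable {cs} {q : B → ℝ} {A C : HS (Finset B × W) →L[ℂ] HS (Finset B × W)}

lemma ComL.apply (hA : ComL cs q A) (s : B) (F : HS (Finset B × W)) :
    A (LL cs q s F) = LL cs q s (A F) := by
  have := hA s
  exact congrArg (fun T : HS (Finset B × W) →L[ℂ] HS (Finset B × W) => T F) this.eq

lemma ComL.LW (hA : ComL cs q A) (ω : List B) (F : HS (Finset B × W)) :
    A (LW cs q ω F) = Pool.Agent.W721.ZB.LW cs q ω (A F) := by
  induction ω with
  | nil => rfl
  | cons s ω ih =>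
    change A (LL cs q s (Pool.Agent.W721.ZB.LW cs q ω F)) = _
    rw [hA.apply, ih]
    rfl

lemma ComL.coef (hA : ComL cs q A) (T T' : Finset B) (v : W) :
    A (bas (T', v)) (T, 1) = A (bas (T', 1)) (T, v⁻¹) := by
  obtain ⟨ω, hω, rfl⟩ := cs.exists_isReduced v
  rw [← LW_bas cs q ω hω T', hA.LW, ← inner_bas, ← inner_bas]
  rw [← cs.wordProd_reverse, ← LW_bas cs q ω.reverse ((cs.isReduced_reverse_iff ω).2 hω),
    inner_LW, List.reverse_reverse]

lemma hasSum_coef (hA : ComL cs q A) (G : HS (Finset B × W)) (T : Finset B) :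
    HasSum (fun y : Finset B × W => G y * A (bas (y.1, 1)) (T, y.2⁻¹)) (A G (T, 1)) := by
  classical
  have h1 := lp.hasSum_single (E := fun _ : Finset B × W => ℂ) (p := 2) (by norm_num) G
  have h2 := ((innerSL ℂ (bas (T, (1 : W)))).comp A).hasSum h1
  simp only [ContinuousLinearMap.comp_apply, innerSL_apply_apply, inner_bas] at h2
  suffices e : (fun y : Finset B × W => G y * A (bas (y.1, 1)) (T, y.2⁻¹)) =
      fun b => A (lp.single 2 b (G b)) (T, 1) by rw [e]; exact h2
  funext ⟨T', v⟩
  have h3 : lp.single 2 (T', v) (G (T', v)) = G (T', v) • bas (T', v) := by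
    ext i
    rw [lp.coeFn_smul, Pi.smul_apply, smul_eq_mul]
    by_cases h : i = (T', v)
    · subst h; simp
    · rw [bas_ne h, lp.single_apply_ne _ _ _ h]; simp
  rw [h3, map_smul, lp.coeFn_smul, Pi.smul_apply, smul_eq_mul, hA.coef]

section Str

variable [Fintype B]

/-- the supertrace -/
noncomputable def str (A : HS (Finset B × W) →L[ℂ] HS (Finset B × W)) : ℂ :=
  ∑ T : Finset B, (-1) ^ T.card * A (bas (T, 1)) (T, 1)

lemma str_mul (hA : ComL cs q A) : str (A * C) = ∑ T : Finset B, ∑ T' : Finset B,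
    (-1) ^ T.card * ∑' v : W, C (bas (T, 1)) (T', v) * A (bas (T', 1)) (T, v⁻¹) := by
  unfold str
  refine Finset.sum_congr rfl fun T _ => ?_
  have h := hasSum_coef hA (C (bas (T, 1))) T
  change _ * A (C (bas (T, 1))) (T, 1) = _
  rw [← h.tsum_eq, h.summable.tsum_prod, tsum_fintype, Finset.mul_sum]

/-- parity of an operator: it anticommutes with the grading -/
lemma coef_eq_zero_of_odd [LinearOrder B] (hC : ∀ F, C (PE F) = - PE (C F)) (T T' : Finset B)
    (v : W) (h : (-1 : ℂ) ^ T.card ≠ - (-1) ^ T'.card) : C (bas (T, 1)) (T', v) = 0 := by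
  have h1 : PE (bas (T, (1 : W))) = ((-1 : ℂ) ^ T.card) • bas (T, (1 : W)) := by
    ext i
    rw [PE_apply, lp.coeFn_smul, Pi.smul_apply, smul_eq_mul]
    by_cases h : i = (T, 1)
    · subst h; simp [cP]
    · rw [bas_ne h]; simp
  have h2 := congrArg (fun G : HS (Finset B × W) => G (T', v)) (hC (bas (T, 1)))
  simp only [h1, map_smul, lp.coeFn_smul, Pi.smul_apply, smul_eq_mul, lp.coeFn_neg, Pi.neg_apply,
    PE_apply, cP] at h2
  push_cast at h2
  have h3 : ((-1 : ℂ) ^ T.card + (-1) ^ T'.card) * C (bas (T, 1)) (T', v) = 0 := by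
    rw [add_mul, h2]; ring
  rcases mul_eq_zero.1 h3 with h4 | h4
  · exact absurd (eq_neg_of_add_eq_zero_left h4) h
  · exact h4

/-- the supertrace property for odd operators -/
theorem str_comm [LinearOrder B] (hA : ComL cs q A) (hC : ComL cs q C)
    (hC' : ∀ F, C (PE F) = - PE (C F)) : str (A * C) = - str (C * A) := by
  rw [str_mul hA, str_mul hC, Finset.sum_comm, ← Finset.sum_neg_distrib]
  refine Finset.sum_congr rfl fun T' _ => ?_
  rw [← Finset.sum_neg_distrib]
  refine Finset.sum_congr rfl fun T _ => ?_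
  rw [← neg_mul]
  by_cases h : (-1 : ℂ) ^ T.card = - (-1) ^ T'.card
  · rw [h]
    congr 1
    rw [← (Equiv.inv W).tsum_eq]
    refine tsum_congr fun v => ?_
    simp only [Equiv.inv_apply, inv_inv]
    ring
  · have h1 : ∀ v, C (bas (T, 1)) (T', v) = 0 := fun v => coef_eq_zero_of_odd hC' T T' v h
    simp [h1]

end Str

section Main

variable [Fintype B] [LinearOrder B] {n : W → ℝ} (hn : IsWeight cs q n)

/-- the sum of the raising and lowering operators -/
noncomputable def JJ {Y : Type*} : HS (Finset B × Y) →L[ℂ] HS (Finset B × Y) := ND + NU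

lemma JJ_apply {Y : Type*} (F : HS (Finset B × Y)) (y : Finset B × Y) :
    JJ F y = ∑ s : B, ((sgz s y.1 : ℤ) : ℂ) * F (tg s y) := by
  unfold JJ
  rw [add_apply, lp.coeFn_add, Pi.add_apply, ND_apply, NU_apply, ← Finset.sum_add_distrib]
  refine Finset.sum_congr rfl fun s _ => ?_
  unfold cD cU
  split_ifs
  · simp
  · simp

lemma JJ_LL (s : B) (F : HS (Finset B × W)) : JJ (LL cs q s F) = LL cs q s (JJ F) := by
  ext ⟨T, w⟩
  rw [JJ_apply, LL_apply, JJ_apply, JJ_apply, Finset.mul_sum, ← Finset.sum_add_distrib]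
  refine Finset.sum_congr rfl fun t _ => ?_
  simp only [tg_apply]
  rw [LL_apply]
  have h1 : lc cs q s (symmDiff T {t}, w) = lc cs q s (T, w) := rfl
  rw [h1]
  ring

lemma JJ_PE {Y : Type*} (F : HS (Finset B × Y)) : JJ (PE F) = - PE (JJ F) := by
  unfold JJ
  rw [add_apply, add_apply, ND_PE, NU_PE, map_add]
  abel

lemma PP_PE (F : HS (Finset B × W)) : PP cs n (PE F) = PE (PP cs n F) := by
  ext ⟨T, w⟩
  rw [PE_apply, PP_apply, PP_apply, Finset.mul_sum]
  refine Finset.sum_congr rfl fun g _ => ?_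
  rw [PE_apply, shR_apply]
  have h1 : cP (T, w * g) = cP (T, w) := rfl
  rw [h1]; ring

variable (cs)

/-- the compressed operator -/
noncomputable def DD (n : W → ℝ) : HS (Finset B × W) →L[ℂ] HS (Finset B × W) :=
  PP cs n * JJ * PP cs n

/-- the Laplacian -/
noncomputable def BB (n : W → ℝ) : HS (Finset B × W) →L[ℂ] HS (Finset B × W) :=
  DD cs n * DD cs n + (1 - PP cs n)

variable {cs}

include hn

lemma PP_mul_PP : PP cs n * PP cs n = PP cs n := by
  ext F : 1
  exact PP_idem hn F

lemma PP_mul_DD : PP cs n * DD cs n = DD cs n := by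
  unfold DD
  rw [← mul_assoc, ← mul_assoc, PP_mul_PP hn]

lemma DD_mul_PP : DD cs n * PP cs n = DD cs n := by
  unfold DD
  rw [mul_assoc, PP_mul_PP hn]

lemma comL_PP : ComL cs q (PP cs n) := by
  intro s
  ext F : 1
  exact PP_LL hn s F

omit hn in
lemma comL_JJ : ComL cs q (JJ (B := B) (Y := W)) := by
  intro s
  ext F : 1
  exact JJ_LL s F

lemma comL_DD : ComL cs q (DD cs n) := by
  intro s
  exact ((comL_PP hn s).mul_left (comL_JJ s)).mul_left (comL_PP hn s)

lemma comL_BB : ComL cs q (BB cs n) := by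
  intro s
  exact ((comL_DD hn s).mul_left (comL_DD hn s)).add_left
    ((Commute.one_left _).sub_left (comL_PP hn s))

omit hn in
lemma DD_PE (F : HS (Finset B × W)) : DD cs n (PE F) = - PE (DD cs n F) := by
  unfold DD
  change PP cs n (JJ (PP cs n (PE F))) = - PE (PP cs n (JJ (PP cs n F)))
  rw [PP_PE, JJ_PE, map_neg, PP_PE]

omit hn in
lemma BB_PE (F : HS (Finset B × W)) : BB cs n (PE F) = PE (BB cs n F) := by
  unfold BB
  rw [add_apply, add_apply, sub_apply, sub_apply]
  change DD cs n (DD cs n (PE F)) + (PE F - PP cs n (PE F)) = PE (DD cs n (DD cs n F) + (F - PP cs n F))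
  rw [DD_PE, map_neg, DD_PE, neg_neg, PP_PE, map_add, map_sub]

lemma PP_bas_one {T : Finset B} (h : Sph cs T) : PP cs n (bas (T, 1)) (T, 1) = ((NT cs n T)⁻¹ : ℝ) := by
  rw [PP_apply_sph cs n _ h, comp_one, nu_one hn, Finset.sum_eq_single 1]
  · rw [mul_one, nu_one hn]; simp
  · intro g _ hg
    rw [bas_ne (by intro h'; apply hg; simpa using h'), mul_zero]
  · intro h'
    exact absurd ((mem_parF h).2 (Subgroup.one_mem _)) h'

open Classical in
lemma str_PP : str (PP cs n) = ((∑ T : Finset B with Sph cs T, (-1 : ℝ) ^ T.card * (NT cs n T)⁻¹ : ℝ) : ℂ) := by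
  unfold str
  rw [Finset.sum_filter]
  push_cast
  refine Finset.sum_congr rfl fun T _ => ?_
  split_ifs with h
  · rw [PP_bas_one hn h]; push_cast; rfl
  · rw [PP_apply_not cs n _ h, mul_zero]; simp

omit hn [Fintype B] [LinearOrder B] in
lemma ring_unit {R : Type*} [Ring R] {D P : R} (h1 : P * P = P) (h2 : P * D = D) (h3 : D * P = D)
    (hU : IsUnit (D * D + (1 - P))) : ∃ X : R,
    D * X = P ∧ X * D = P ∧
      (∀ L, Commute D L → Commute P L → Commute X L) ∧
      (∀ E, D * E = - (E * D) → P * E = E * P → X * E = - (E * X)) := by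
  obtain ⟨U, hU⟩ := hU
  have c1 : Commute D (U : R) := by
    rw [hU]
    refine ((Commute.refl _).mul_right (Commute.refl _)).add_right ?_
    refine (Commute.one_right _).sub_right ?_
    change D * P = P * D
    rw [h2, h3]
  have c2 : Commute D (↑U⁻¹ : R) := c1.units_inv_right
  have e1 : D * (D * ↑U⁻¹) = P := by
    have e2 : D * D = P * (U : R) := by
      rw [hU, mul_add, mul_sub, mul_one, h1, sub_self, add_zero, ← mul_assoc, h2]
    rw [← mul_assoc, e2, mul_assoc, Units.mul_inv, mul_one]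
  refine ⟨D * ↑U⁻¹, e1, ?_, ?_, ?_⟩
  · rw [mul_assoc, ← c2.eq]; exact e1
  · intro L hD hP
    have h4 : Commute (U : R) L := by
      rw [hU]
      exact (hD.mul_left hD).add_left ((Commute.one_left _).sub_left hP)
    exact hD.mul_left h4.units_inv_left
  · intro E hD hP
    have h4 : Commute (U : R) E := by
      rw [hU]
      change (D * D + (1 - P)) * E = E * (D * D + (1 - P))
      rw [add_mul, sub_mul, mul_add, mul_sub, mul_assoc, hD, mul_neg, ← mul_assoc, hD, hP]
      rw [neg_mul, neg_neg, one_mul, mul_one, mul_assoc]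
    have h5 : (↑U⁻¹ : R) * E = E * ↑U⁻¹ := h4.units_inv_left
    rw [mul_assoc, h5, ← mul_assoc, hD, neg_mul, mul_assoc]

omit hn in
lemma DD_PE' : DD cs n * PE = - (PE * DD cs n) := by
  refine ContinuousLinearMap.ext fun F => ?_
  rw [neg_apply, mul_apply_eq_comp, mul_apply_eq_comp]
  exact DD_PE (cs := cs) (n := n) F

omit hn in
lemma PP_PE' : PP cs n * PE = PE * PP cs n := by
  refine ContinuousLinearMap.ext fun F => ?_
  rw [mul_apply_eq_comp, mul_apply_eq_comp]
  exact PP_PE (cs := cs) (n := n) F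

lemma str_PP_eq_zero (hU : IsUnit (BB cs n)) : str (PP cs n) = 0 := by
  obtain ⟨X, e1, e2, e3, e4⟩ := ring_unit (PP_mul_PP hn) (PP_mul_DD hn) (DD_mul_PP hn) hU
  have e6 : ∀ F, X (PE F) = - PE (X F) := by
    intro F
    have := congrArg (fun T : HS (Finset B × W) →L[ℂ] HS (Finset B × W) => T F) (e4 PE DD_PE' PP_PE')
    simp only [neg_apply, mul_apply_eq_comp] at this
    exact this
  have e7 : ComL cs q X := fun s => e3 _ (comL_DD hn s) (comL_PP hn s)
  have e5 := str_comm (comL_DD hn) e7 e6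
  rw [e1, e2] at e5
  exact self_eq_neg.1 e5

open Classical in
/-- If the Laplacian is invertible then the weighted Euler characteristic vanishes. -/
theorem euler_eq_zero (hU : IsUnit (BB cs n)) :
    ∑ T : Finset B with Sph cs T, (-1 : ℝ) ^ T.card * (NT cs n T)⁻¹ = 0 := by
  have e5 := str_PP_eq_zero hn hU
  rw [str_PP hn] at e5
  exact_mod_cast e5

end Main

end Pool.Agent.W721.ZB
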