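import Pool.Agent.W721.ZB.XRes

/-! `ℓ²`-functionals on the rational resolution. -/

set_option autoImplicit false
set_option linter.unusedSectionVars false

open scoped Matrix ENNReal
open Pool.Agent.H919R4.ZS

namespace Pool.Agent.W721.ZB

universe u

/-- `ℓ²`-functionals on a module over the rational group ring -/
def L2f {Γ M : Type*} [Group Γ] [AddCommGroup M] [Module (MonoidAlgebra ℚ Γ) M] (θ : M →+ ℂ) :
    Prop :=
  ∀ x, Summable (fun γ : Γ => ‖θ ((MonoidAlgebra.single γ (1 : ℚ) : MonoidAlgebra ℚ Γ) • x)‖ ^ 2)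

lemma L2f.comp {Γ M N : Type*} [Group Γ] [AddCommGroup M] [Module (MonoidAlgebra ℚ Γ) M]
    [AddCommGroup N] [Module (MonoidAlgebra ℚ Γ) N] {θ : M →+ ℂ} (hθ : L2f (Γ := Γ) θ)
    (f : N →ₗ[MonoidAlgebra ℚ Γ] M) : L2f (Γ := Γ) (θ.comp f.toAddMonoidHom) := by
  intro x
  have := hθ (f x)
  refine this.congr fun γ => ?_
  change _ = ‖θ (f ((MonoidAlgebra.single γ (1 : ℚ) : MonoidAlgebra ℚ Γ) • x))‖ ^ 2
  rw [f.map_smul]

lemma L2f.sub {Γ M : Type*} [Group Γ] [AddCommGroup M] [Module (MonoidAlgebra ℚ Γ) M]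
    {θ η : M →+ ℂ} (hθ : L2f (Γ := Γ) θ) (hη : L2f (Γ := Γ) η) : L2f (Γ := Γ) (θ - η) := by
  intro x
  refine Summable.of_nonneg_of_le (fun γ => by positivity) (fun γ => ?_)
    (((hθ x).add (hη x)).mul_left 2)
  rw [AddMonoidHom.sub_apply]
  have h1 := norm_sub_le (θ ((MonoidAlgebra.single γ (1 : ℚ) : MonoidAlgebra ℚ Γ) • x))
    (η ((MonoidAlgebra.single γ (1 : ℚ) : MonoidAlgebra ℚ Γ) • x))
  set a := ‖θ ((MonoidAlgebra.single γ (1 : ℚ) : MonoidAlgebra ℚ Γ) • x)‖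
  set b := ‖η ((MonoidAlgebra.single γ (1 : ℚ) : MonoidAlgebra ℚ Γ) • x)‖
  calc _ ≤ (a + b) ^ 2 := by gcongr
    _ ≤ 2 * (a ^ 2 + b ^ 2) := by nlinarith [sq_nonneg (a - b)]

variable {G : Type u} [Group G] (H : Subgroup G)

attribute [local instance] pMod

lemma pi_single_smul {n : ℕ} (h : H) (a : ℚ) (z : Fin n → MonoidAlgebra ℚ G) :
    (MonoidAlgebra.single h a : MonoidAlgebra ℚ H) • z =
      (MonoidAlgebra.single (h : G) a : MonoidAlgebra ℚ G) • z := by
  funext j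
  exact pMod_single_smul H h a (z j)

/-- summability over the group from summability over a subgroup of finite index -/
lemma summable_all [H.FiniteIndex] {n : ℕ} {θ : (Fin n → MonoidAlgebra ℚ G) →+ ℂ}
    (hθ : L2f (Γ := H) θ) (x : Fin n → MonoidAlgebra ℚ G) :
    Summable (fun g : G => ‖θ ((MonoidAlgebra.single g⁻¹ (1 : ℚ) : MonoidAlgebra ℚ G) • x)‖ ^ 2) := by
  classical
  have hfin : Finite (G ⧸ H) := inferInstance
  let f : (G ⧸ H) × H → ℝ := fun p =>
    ‖θ ((MonoidAlgebra.single (p.1.out * (p.2 : G))⁻¹ (1 : ℚ) : MonoidAlgebra ℚ G) • x)‖ ^ 2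
  have hf : Summable f := by
    rw [summable_prod_of_nonneg (fun p => by positivity)]
    refine ⟨fun c => ?_, ?_⟩
    · have h1 := hθ ((MonoidAlgebra.single (c.out)⁻¹ (1 : ℚ) : MonoidAlgebra ℚ G) • x)
      rw [← (Equiv.inv H).summable_iff] at h1
      refine h1.congr fun h => ?_
      simp only [Function.comp_apply, Equiv.inv_apply, f]
      rw [pi_single_smul, smul_smul, MonoidAlgebra.single_mul_single, mul_one, mul_inv_rev,
        InvMemClass.coe_inv]
    · cases nonempty_fintype (G ⧸ H)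
      exact Summable.of_finite
  have hex : ∀ g : G, ∃ h : H, g = (QuotientGroup.mk (s := H) g).out * (h : G) := by
    intro g
    have h1 : QuotientGroup.mk (s := H) ((QuotientGroup.mk (s := H) g).out) = QuotientGroup.mk g :=
      Quotient.out_eq' _
    rw [QuotientGroup.eq] at h1
    exact ⟨⟨_, h1⟩, by simp⟩
  choose σ hσ using hex
  have hinj : Function.Injective (fun g : G => ((QuotientGroup.mk (s := H) g : G ⧸ H), σ g)) := by
    intro g g' h
    simp only [Prod.mk.injEq] at h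
    rw [hσ g, hσ g', h.1, h.2]
  refine (hf.comp_injective hinj).congr fun g => ?_
  simp only [Function.comp_apply, f]
  rw [← hσ g]

/-- the family of `ℓ²`-functions of an `ℓ²`-functional -/
noncomputable def vf [H.FiniteIndex] {n : ℕ} (θ : (Fin n → MonoidAlgebra ℚ G) →+ ℂ)
    (hθ : L2f (Γ := H) θ) (j : Fin n) : L2 G :=
  ⟨fun g => θ ((MonoidAlgebra.single g⁻¹ (1 : ℚ) : MonoidAlgebra ℚ G) • Pi.single j 1), by
    have h2 : (2 : ℝ≥0∞).toReal = ((2 : ℕ) : ℝ) := by norm_num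
    refine memℓp_gen ?_
    simp only [h2, Real.rpow_natCast]
    exact summable_all H hθ _⟩

lemma vf_apply [H.FiniteIndex] {n : ℕ} (θ : (Fin n → MonoidAlgebra ℚ G) →+ ℂ)
    (hθ : L2f (Γ := H) θ) (j : Fin n) (g : G) :
    vf H θ hθ j g = θ ((MonoidAlgebra.single g⁻¹ (1 : ℚ) : MonoidAlgebra ℚ G) • Pi.single j 1) := rfl

lemma L_apply_of {n : ℕ} (θ : (Fin n → MonoidAlgebra ℚ G) →+ ℂ) (x : Fin n → MonoidAlgebra ℚ G)
    (w : L2 G) (hw : ∀ g, w g = θ ((MonoidAlgebra.single g⁻¹ (1 : ℚ) : MonoidAlgebra ℚ G) • x))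
    (a : MonoidAlgebra ℤ G) (g : G) :
    L a w g = θ ((MonoidAlgebra.single g⁻¹ (1 : ℚ) : MonoidAlgebra ℚ G) • (io a • x)) := by
  refine MonoidAlgebra.induction_linear a ?_ ?_ ?_
  · simp
  · intro a b ha hb
    rw [map_add, add_apply, lp.coeFn_add, Pi.add_apply, ha, hb, map_add, add_smul, smul_add,
      map_add]
  · intro b m
    have e1 : (L (MonoidAlgebra.single b m) w) g = (m : ℂ) * w (b⁻¹ * g) := by
      rw [L_single]
      have : (m • lregL b : L2 G →L[ℂ] L2 G) w = (m : ℂ) • lregL b w := by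
        rw [Int.cast_smul_eq_zsmul]; simp
      rw [this]
      rfl
    rw [e1, hw, io_single, smul_smul, MonoidAlgebra.single_mul_single, one_mul, mul_inv_rev,
      inv_inv]
    have e2 : (MonoidAlgebra.single (g⁻¹ * b) (m : ℚ) : MonoidAlgebra ℚ G) =
        m • MonoidAlgebra.single (g⁻¹ * b) (1 : ℚ) := by
      rw [← Int.cast_smul_eq_zsmul ℚ, MonoidAlgebra.smul_single, smul_eq_mul, mul_one]
    rw [e2, smul_assoc, map_zsmul, zsmul_eq_mul]

/-- the rational group ring acting on `ℓ²(G)` -/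
noncomputable def Lq : MonoidAlgebra ℚ G →+* (L2 G →L[ℂ] L2 G) :=
  MonoidAlgebra.liftNCRingHom ((algebraMap ℂ (L2 G →L[ℂ] L2 G)).comp (algebraMap ℚ ℂ))
    (lregHom G) (fun _ _ => Algebra.commutes _ _)

lemma Lq_single (g : G) (a : ℚ) (w : L2 G) (h : G) :
    Lq (MonoidAlgebra.single g a) w h = (a : ℂ) * w (g⁻¹ * h) := by
  have e1 : (Lq (MonoidAlgebra.single g a) : L2 G →L[ℂ] L2 G) =
      algebraMap ℂ (L2 G →L[ℂ] L2 G) (algebraMap ℚ ℂ a) * (lregL g : L2 G →L[ℂ] L2 G) := by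
    change MonoidAlgebra.liftNC _ _ _ = _
    rw [MonoidAlgebra.liftNC_single]
    rfl
  rw [e1, Algebra.algebraMap_eq_smul_one, smul_mul_assoc, one_mul]
  rfl

lemma Lq_io (a : MonoidAlgebra ℤ G) : Lq (io a) = (L a : L2 G →L[ℂ] L2 G) := by
  refine MonoidAlgebra.induction_linear a ?_ ?_ ?_
  · simp
  · intro x y hx hy
    rw [map_add, map_add, hx, hy, map_add]
  · intro g r
    ext w h
    rw [io_single, Lq_single, L_single]
    have : (r • lregL g : L2 G →L[ℂ] L2 G) w = (r : ℂ) • lregL g w := by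
      rw [Int.cast_smul_eq_zsmul]; simp
    rw [this]
    push_cast
    rfl

lemma functional_eq [H.FiniteIndex] {n : ℕ} (θ : (Fin n → MonoidAlgebra ℚ G) →+ ℂ)
    (hθ : L2f (Γ := H) θ) (x : Fin n → MonoidAlgebra ℚ G) :
    θ x = (∑ j, Lq (x j) (vf H θ hθ j)) 1 := by
  have key : ∀ (j : Fin n) (a : MonoidAlgebra ℚ G),
      θ (a • Pi.single j 1) = Lq a (vf H θ hθ j) 1 := by
    intro j a
    refine MonoidAlgebra.induction_linear a ?_ ?_ ?_
    · simp
    · intro a b ha hb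
      rw [add_smul, map_add, ha, hb, map_add, add_apply, lp.coeFn_add, Pi.add_apply]
    · intro g a
      rw [Lq_single, vf_apply, mul_one, inv_inv]
      have e2 : (MonoidAlgebra.single g a : MonoidAlgebra ℚ G) =
          a • MonoidAlgebra.single g (1 : ℚ) := by
        rw [MonoidAlgebra.smul_single, smul_eq_mul, mul_one]
      rw [e2, smul_assoc, map_rat_smul θ a, Rat.smul_def]
  have e3 : x = ∑ j, x j • (Pi.single j 1 : Fin n → MonoidAlgebra ℚ G) := by
    funext i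
    rw [Finset.sum_apply, Finset.sum_eq_single i]
    · simp
    · intro j _ hj
      simp [Pi.single_eq_of_ne hj.symm]
    · simp
  conv_lhs => rw [e3]
  rw [map_sum, lp.coeFn_sum, Finset.sum_apply]
  exact Finset.sum_congr rfl fun j _ => key j (x j)

/-- the functional of a family of `ℓ²`-functions -/
noncomputable def fu {n : ℕ} (u : Fin n → L2 G) : (Fin n → MonoidAlgebra ℚ G) →+ ℂ where
  toFun x := (∑ j, Lq (x j) (u j)) 1
  map_zero' := by simp
  map_add' x y := by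
    simp only [Pi.add_apply, map_add, add_apply, Finset.sum_add_distrib]
    rw [lp.coeFn_add, Pi.add_apply]

lemma fu_apply {n : ℕ} (u : Fin n → L2 G) (x : Fin n → MonoidAlgebra ℚ G) :
    fu u x = (∑ j, Lq (x j) (u j)) 1 := rfl

lemma L2f_fu {n : ℕ} (u : Fin n → L2 G) : L2f (Γ := H) (fu u) := by
  intro x
  have h2 : (2 : ℝ≥0∞).toReal = ((2 : ℕ) : ℝ) := by norm_num
  have h1 := (lp.memℓp (∑ j, Lq (x j) (u j))).summable two_toReal_pos
  simp only [h2, Real.rpow_natCast] at h1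
  rw [← (Equiv.inv G).summable_iff] at h1
  refine (h1.comp_injective (Subtype.val_injective (p := fun g => g ∈ H))).congr fun h => ?_
  simp only [Function.comp_apply, Equiv.inv_apply]
  rw [pi_single_smul, fu_apply]
  congr 2
  have e1 : ∀ j, Lq (((MonoidAlgebra.single (h : G) (1 : ℚ) : MonoidAlgebra ℚ G) • x) j) (u j) =
      Lq (MonoidAlgebra.single (h : G) (1 : ℚ)) (Lq (x j) (u j)) := by
    intro j
    rw [Pi.smul_apply, smul_eq_mul, map_mul, mul_apply_eq_comp]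
  rw [Finset.sum_congr rfl (fun j _ => e1 j), ← map_sum, Lq_single, mul_one, Rat.cast_one, one_mul]

variable (X : FinRes G)

lemma act_vf [H.FiniteIndex] {k : ℕ} (θ : (Fin (X.n k) → MonoidAlgebra ℚ G) →+ ℂ)
    (hθ : L2f (Γ := H) θ) (i : Fin (X.n (k + 1))) (g : G) :
    act ((X.d k).map L) (vf H θ hθ) i g =
      θ (dX H X k ((MonoidAlgebra.single g⁻¹ (1 : ℚ) : MonoidAlgebra ℚ G) • Pi.single i 1)) := by
  rw [dX_apply, Matrix.smul_vecMul]
  have e1 : (Pi.single i 1 : Fin (X.n (k + 1)) → MonoidAlgebra ℚ G) ᵥ* Dq X k =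
      ∑ j, io (X.d k i j) • (Pi.single j 1 : Fin (X.n k) → MonoidAlgebra ℚ G) := by
    funext l
    rw [Finset.sum_apply, Finset.sum_eq_single l]
    · simp [Matrix.vecMul, dotProduct, Pi.single_apply, Dq]
    · intro j _ hj
      simp [Pi.single_eq_of_ne hj.symm]
    · simp
  rw [e1, Finset.smul_sum, map_sum]
  simp only [act, Matrix.map_apply]
  rw [lp.coeFn_sum, Finset.sum_apply]
  exact Finset.sum_congr rfl fun j _ => L_apply_of θ _ _ (fun g => vf_apply H θ hθ j g) _ _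

theorem acyclic_zero [H.FiniteIndex] (hV : VanAll X) (θ : (Fin (X.n 0) → MonoidAlgebra ℚ G) →+ ℂ)
    (hθ : L2f (Γ := H) θ) (h : ∀ x, θ (dX H X 0 x) = 0) (x : Fin (X.n 0) → MonoidAlgebra ℚ G) :
    θ x = 0 := by
  have h1 := hV.h0 (vf H θ hθ) (by
    funext i
    ext g
    rw [act_vf, h]
    rfl)
  rw [functional_eq H θ hθ, h1]
  simp

theorem acyclic_succ [H.FiniteIndex] (hV : VanAll X) (k : ℕ)
    (θ : (Fin (X.n (k + 1)) → MonoidAlgebra ℚ G) →+ ℂ)
    (hθ : L2f (Γ := H) θ) (h : ∀ x, θ (dX H X (k + 1) x) = 0) :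
    ∃ η : (Fin (X.n k) → MonoidAlgebra ℚ G) →+ ℂ, L2f (Γ := H) η ∧ ∀ x, θ x = η (dX H X k x) := by
  obtain ⟨u, hu⟩ := hV.hs k (vf H θ hθ) (by
    funext i
    ext g
    rw [act_vf, h]
    rfl)
  refine ⟨fu u, L2f_fu H u, fun x => ?_⟩
  rw [functional_eq H θ hθ, fu_apply, ← hu, dX_apply]
  simp only [act, Matrix.vecMul, dotProduct, map_sum, Matrix.map_apply, map_mul, sum_apply,
    mul_apply_eq_comp, Dq, Lq_io]
  rw [Finset.sum_comm]

end Pool.Agent.W721.ZB
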