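import Pool.Agent.H919R4.ZS.Hat
import Pool.Agent.W721.ZB.KRes

/-! A finite free resolution as a rational resolution over the group ring of a subgroup; vanishing
of homology over the reduced C*-algebra in terms of `ℓ²`-functionals. -/

set_option autoImplicit false
set_option linter.unusedSectionVars false

open scoped Matrix ENNReal
open Pool.Agent.H919R4.ZS

namespace Pool.Agent.W721.ZB

universe u

variable {G : Type u} [Group G]

/-! ### Contractions in all degrees -/

section Contr

variable (X : FinRes G) {S : Type*} [Ring S] (φ : MonoidAlgebra ℤ G →+* S)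
  (h : ∀ i, Subsingleton (X.homology φ i))

include h

lemma next_s (k : ℕ) (s : Matrix (Fin (X.n k)) (Fin (X.n (k + 1))) S)
    (hs : (X.d k).map φ * s * (X.d k).map φ = (X.d k).map φ) :
    ∃ s' : Matrix (Fin (X.n (k + 1))) (Fin (X.n (k + 2))) S,
      (X.d k).map φ * s + s' * (X.d (k + 1)).map φ = 1 := by
  have e1 : (1 - (X.d k).map φ * s) * (X.d k).map φ = 0 := by
    rw [Matrix.sub_mul, Matrix.one_mul, hs, sub_self]
  obtain ⟨s1, hs1⟩ := exists_rows ((X.d (k + 1)).map φ) (1 - (X.d k).map φ * s)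
    (fun i => exact_of_subsingleton X φ (k + 1) (h _) _ (by
      change ((1 - (X.d k).map φ * s : Matrix (Fin (X.n (k + 1))) (Fin (X.n (k + 1))) S) i) ᵥ*
        (X.d k).map φ = 0
      rw [← Matrix.mul_apply_eq_vecMul, e1]; rfl))
  exact ⟨s1, by rw [hs1]; abel⟩

lemma exists_s0 : ∃ s : Matrix (Fin (X.n 0)) (Fin (X.n 1)) S, s * (X.d 0).map φ = 1 :=
  exists_rows ((X.d 0).map φ) (1 : Matrix (Fin (X.n 0)) (Fin (X.n 0)) S)
    (fun i => exact_of_subsingleton X φ 0 (h 0) _ trivial)

lemma exists_s (k : ℕ) : ∃ s : Matrix (Fin (X.n k)) (Fin (X.n (k + 1))) S,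
    (X.d k).map φ * s * (X.d k).map φ = (X.d k).map φ := by
  induction k with
  | zero =>
    obtain ⟨s, hs⟩ := exists_s0 X φ h
    exact ⟨s, by rw [Matrix.mul_assoc, hs, Matrix.mul_one]⟩
  | succ k ih =>
    obtain ⟨s, hs⟩ := ih
    obtain ⟨s', hs'⟩ := next_s X φ h k s hs
    refine ⟨s', ?_⟩
    have dd : (X.d (k + 1)).map φ * (X.d k).map φ = 0 := by
      rw [← Matrix.map_mul, d_mul_d]; ext; simp
    rw [Matrix.mul_assoc, eq_sub_of_add_eq' hs', Matrix.mul_sub, Matrix.mul_one,
      ← Matrix.mul_assoc, dd, Matrix.zero_mul, sub_zero]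

end Contr

/-- vanishing of the cochains with values in `ℓ²(G)` in all degrees -/
structure VanAll (X : FinRes G) : Prop where
  h0 : ∀ v : Fin (X.n 0) → L2 G, act ((X.d 0).map L) v = 0 → v = 0
  hs : ∀ k, ∀ v : Fin (X.n (k + 1)) → L2 G, act ((X.d (k + 1)).map L) v = 0 →
    ∃ w, act ((X.d k).map L) w = v

theorem vanAll_of_homology (X : FinRes G)
    (h : ∀ i, Subsingleton (X.homology (toRed G) i)) : VanAll X := by
  have key : ∀ i, ((X.d i).map (toRed G)).map (valR (G := G)) = (X.d i).map (L (G := G)) := by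
    intro i
    refine funext fun j => funext fun k => ?_
    exact coe_toRed (X.d i j k)
  constructor
  · intro v hv
    obtain ⟨s0, e0⟩ := exists_s0 X (toRed G) h
    have f0 : s0.map (valR (G := G)) * (X.d 0).map L = 1 := by
      have := map_ident0 (valR (G := G)) _ _ e0
      rwa [key 0] at this
    rw [← act_one v, ← f0, act_mul, hv, act_zero]
  · intro k v hv
    obtain ⟨s, hs⟩ := exists_s X (toRed G) h k
    obtain ⟨s', e1⟩ := next_s X (toRed G) h k s hs
    have f1 : (X.d k).map L * s.map (valR (G := G)) + s'.map (valR (G := G)) * (X.d (k + 1)).map L = 1 := by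
      have := map_ident (valR (G := G)) _ _ _ _ e1
      rwa [key k, key (k + 1)] at this
    refine ⟨act (s.map (valR (G := G))) v, ?_⟩
    conv_rhs => rw [← act_one v, ← f1, act_add, act_mul, act_mul, hv, act_zero, add_zero]

/-! ### The rational resolution -/

/-- the inclusion of the integral into the rational group ring -/
noncomputable def io : MonoidAlgebra ℤ G →+* MonoidAlgebra ℚ G :=
  MonoidAlgebra.mapRingHom G (Int.castRingHom ℚ)

lemma io_single (g : G) (a : ℤ) : io (MonoidAlgebra.single g a) = MonoidAlgebra.single g (a : ℚ) := by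
  unfold io
  simp

lemma io_injective : Function.Injective (io (G := G)) := by
  intro a b h
  apply MonoidAlgebra.coeff_injective
  ext g
  have h1 := congrArg (fun x : MonoidAlgebra ℚ G => x.coeff g) h
  have h2 : ∀ a : MonoidAlgebra ℤ G, (io a).coeff g = ((a.coeff g : ℤ) : ℚ) := by
    intro a
    unfold io
    simp
  simp only [h2] at h1
  exact_mod_cast h1

lemma augq_io (a : MonoidAlgebra ℤ G) : augq G (io a) = ((augm G a : ℤ) : ℚ) := by
  refine MonoidAlgebra.induction_linear a ?_ ?_ ?_
  · simp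
  · intro x y hx hy
    rw [map_add, map_add, hx, hy, map_add]; push_cast; rfl
  · intro g r
    rw [io_single]
    unfold augq augm
    simp

/-- clearing denominators -/
lemma clear_one (a : MonoidAlgebra ℚ G) : ∃ N : ℤ, N ≠ 0 ∧ ∃ a', (N : ℚ) • a = io a' := by
  refine MonoidAlgebra.induction_linear a ?_ ?_ ?_
  · exact ⟨1, one_ne_zero, 0, by simp⟩
  · rintro x y ⟨N, hN, x', hx⟩ ⟨N', hN', y', hy⟩
    refine ⟨N * N', mul_ne_zero hN hN', (N' : ℤ) • x' + (N : ℤ) • y', ?_⟩
    rw [map_add, map_zsmul, map_zsmul, ← hx, ← hy, smul_add]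
    rw [← Int.cast_smul_eq_zsmul ℚ, ← Int.cast_smul_eq_zsmul ℚ, smul_smul, smul_smul]
    push_cast
    rw [mul_comm (N' : ℚ)]
  · intro g r
    refine ⟨(r.den : ℤ), by exact_mod_cast r.den_nz, MonoidAlgebra.single g r.num, ?_⟩
    rw [io_single, MonoidAlgebra.smul_single, smul_eq_mul]
    congr 1
    rw [mul_comm]
    push_cast
    exact Rat.mul_den_eq_num r

lemma clear_all {n : ℕ} (x : Fin n → MonoidAlgebra ℚ G) :
    ∃ N : ℤ, N ≠ 0 ∧ ∃ x' : Fin n → MonoidAlgebra ℤ G, (N : ℚ) • x = fun j => io (x' j) := by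
  choose N hN x' hx using fun j => clear_one (x j)
  refine ⟨∏ j, N j, Finset.prod_ne_zero_iff.2 (fun j _ => hN j),
    fun j => (∏ i ∈ Finset.univ.erase j, N i) • x' j, ?_⟩
  funext j
  rw [Pi.smul_apply, map_zsmul, ← hx j, ← Int.cast_smul_eq_zsmul ℚ, smul_smul, ← Int.cast_mul,
    Finset.prod_erase_mul _ _ (Finset.mem_univ j)]

variable (H : Subgroup G)

/-- the inclusion of group rings -/
noncomputable def phi : MonoidAlgebra ℚ H →+* MonoidAlgebra ℚ G :=
  MonoidAlgebra.mapDomainRingHom ℚ H.subtype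

lemma phi_single (h : H) (a : ℚ) :
    phi H (MonoidAlgebra.single h a) = MonoidAlgebra.single (h : G) a := by
  unfold phi
  simp

/-- restriction of scalars -/
@[reducible] noncomputable def pMod : Module (MonoidAlgebra ℚ H) (MonoidAlgebra ℚ G) :=
  Module.compHom (MonoidAlgebra ℚ G) (phi H)

attribute [local instance] pMod

lemma pMod_single_smul (h : H) (a : ℚ) (x : MonoidAlgebra ℚ G) :
    (MonoidAlgebra.single h a : MonoidAlgebra ℚ H) • x = MonoidAlgebra.single (h : G) a * x := by
  change phi H (MonoidAlgebra.single h a) * x = _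
  rw [phi_single]

section

attribute [local instance] permMod

theorem pMod_projective : Module.Projective (MonoidAlgebra ℚ H) (MonoidAlgebra ℚ G) := by
  have hfree : ∀ (h : H) (g : G), h • g = g → h = 1 := by
    intro h g hg
    rw [Subgroup.smul_def, smul_eq_mul, mul_eq_right] at hg
    exact Subtype.ext hg
  have h1 : Module.Projective (MonoidAlgebra ℚ H) (G →₀ ℚ) := perm_projective hfree
  let i : MonoidAlgebra ℚ G →ₗ[MonoidAlgebra ℚ H] (G →₀ ℚ) := mkLin
    { toFun := fun x => x.coeff
      map_zero' := by simp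
      map_add' := fun x y => by simp } (by
    intro h a x
    change ((MonoidAlgebra.single h a : MonoidAlgebra ℚ H) • x).coeff = _ • x.coeff
    rw [pMod_single_smul]
    refine MonoidAlgebra.induction_linear x ?_ ?_ ?_
    · simp
    · intro x y hx hy
      rw [mul_add, MonoidAlgebra.coeff_add, hx, hy, MonoidAlgebra.coeff_add, smul_add]
    · intro g b
      rw [MonoidAlgebra.single_mul_single, MonoidAlgebra.coeff_single, MonoidAlgebra.coeff_single,
        single_smul_single]
      rfl)
  let s : (G →₀ ℚ) →ₗ[MonoidAlgebra ℚ H] MonoidAlgebra ℚ G := mkLin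
    { toFun := fun x => MonoidAlgebra.ofCoeff x
      map_zero' := by simp
      map_add' := fun x y => by simp } (by
    intro h a x
    change MonoidAlgebra.ofCoeff ((MonoidAlgebra.single h a : MonoidAlgebra ℚ H) • x) =
      (MonoidAlgebra.single h a : MonoidAlgebra ℚ H) • MonoidAlgebra.ofCoeff x
    rw [pMod_single_smul]
    induction x using Finsupp.induction_linear with
    | zero => simp
    | add x y hx hy =>
      rw [smul_add, MonoidAlgebra.ofCoeff_add, hx, hy, MonoidAlgebra.ofCoeff_add, mul_add]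
    | single g b =>
      rw [single_smul_single]
      change MonoidAlgebra.single _ _ = MonoidAlgebra.single _ _ * MonoidAlgebra.single _ _
      rw [MonoidAlgebra.single_mul_single]
      rfl)
  refine Module.Projective.of_split i s ?_
  apply LinearMap.ext
  intro x
  rfl

end

/-- the rational differentials -/
noncomputable def Dq (X : FinRes G) (k : ℕ) :
    Matrix (Fin (X.n (k + 1))) (Fin (X.n k)) (MonoidAlgebra ℚ G) := (X.d k).map io

variable (X : FinRes G)

lemma vecMul_io {k : ℕ} (y : Fin (X.n (k + 1)) → MonoidAlgebra ℤ G) :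
    (fun j => io (y j)) ᵥ* Dq X k = fun j => io ((y ᵥ* X.d k) j) := by
  funext j
  exact (RingHom.map_vecMul io (X.d k) y j).symm

/-- the differential as a map over the group ring of the subgroup -/
noncomputable def dX (k : ℕ) : (Fin (X.n (k + 1)) → MonoidAlgebra ℚ G) →ₗ[MonoidAlgebra ℚ H]
    (Fin (X.n k) → MonoidAlgebra ℚ G) :=
  mkLin (Matrix.vecMulLinear (Dq X k)).toAddMonoidHom (by
    intro h a x
    change ((MonoidAlgebra.single h a : MonoidAlgebra ℚ H) • x) ᵥ* Dq X k =
      (MonoidAlgebra.single h a : MonoidAlgebra ℚ H) • (x ᵥ* Dq X k)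
    have e1 : ∀ {n : ℕ} (z : Fin n → MonoidAlgebra ℚ G),
        (MonoidAlgebra.single h a : MonoidAlgebra ℚ H) • z =
          (MonoidAlgebra.single (h : G) a : MonoidAlgebra ℚ G) • z := by
      intro n z
      funext j
      exact pMod_single_smul H h a (z j)
    rw [e1, e1, Matrix.smul_vecMul])

lemma dX_apply (k : ℕ) (x : Fin (X.n (k + 1)) → MonoidAlgebra ℚ G) :
    dX H X k x = x ᵥ* Dq X k := rfl

/-- the augmentation on the rational module of degree zero -/
noncomputable def epsq (x : Fin (X.n 0) → MonoidAlgebra ℚ G) : ℚ :=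
  ∑ j, augq G (x j) * (X.aug j : ℚ)

lemma epsq_io (y : Fin (X.n 0) → MonoidAlgebra ℤ G) :
    epsq X (fun j => io (y j)) = ((∑ j, augm G (y j) * X.aug j : ℤ) : ℚ) := by
  unfold epsq
  simp only [augq_io]
  push_cast
  rfl

lemma augq_smul (a : ℚ) (x : MonoidAlgebra ℚ G) : augq G (a • x) = a * augq G x := by
  unfold augq
  change (MonoidAlgebra.lift ℚ ℚ G 1) (a • x) = a * (MonoidAlgebra.lift ℚ ℚ G 1) x
  rw [map_smul, smul_eq_mul]

lemma epsq_smul (a : ℚ) (x : Fin (X.n 0) → MonoidAlgebra ℚ G) : epsq X (a • x) = a * epsq X x := by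
  unfold epsq
  rw [Finset.mul_sum]
  refine Finset.sum_congr rfl fun j _ => ?_
  rw [Pi.smul_apply, augq_smul, mul_assoc]

lemma epsq_add (x y : Fin (X.n 0) → MonoidAlgebra ℚ G) : epsq X (x + y) = epsq X x + epsq X y := by
  unfold epsq
  rw [← Finset.sum_add_distrib]
  refine Finset.sum_congr rfl fun j _ => ?_
  rw [Pi.add_apply, map_add, add_mul]

/-- the augmentation -/
noncomputable def eX : (Fin (X.n 0) → MonoidAlgebra ℚ G) →ₗ[MonoidAlgebra ℚ H] TrivQ :=
  mkLin (N := TrivQ)
    { toFun := fun x => (show TrivQ from (epsq X x))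
      map_zero' := by
        change epsq X 0 = 0
        unfold epsq
        simp
      map_add' := epsq_add X } (by
    intro h a x
    change (show TrivQ from (epsq X ((MonoidAlgebra.single h a : MonoidAlgebra ℚ H) • x))) =
      (MonoidAlgebra.single h a : MonoidAlgebra ℚ H) • (show TrivQ from (epsq X x))
    rw [trivQ_smul]
    change epsq X ((MonoidAlgebra.single h a : MonoidAlgebra ℚ H) • x) = a * epsq X x
    unfold epsq
    rw [Finset.mul_sum]
    refine Finset.sum_congr rfl fun j _ => ?_
    rw [Pi.smul_apply, pMod_single_smul, map_mul]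
    have : augq G (MonoidAlgebra.single (h : G) a) = a := by
      unfold augq
      simp
    rw [this, mul_assoc])

lemma smul_cancel {n : ℕ} {N : ℤ} (hN : N ≠ 0) {x y : Fin n → MonoidAlgebra ℚ G}
    (h : (N : ℚ) • x = y) : x = (N : ℚ)⁻¹ • y := by
  rw [← h, smul_smul, inv_mul_cancel₀ (by exact_mod_cast hN), one_smul]

/-- the rational resolution -/
noncomputable def resX : Res (MonoidAlgebra ℚ H) TrivQ (fun k => Fin (X.n k) → MonoidAlgebra ℚ G) where
  d := dX H X
  e := eX H X
  surj := by
    intro a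
    obtain ⟨x0, hx0⟩ := X.surj
    refine ⟨(show ℚ from a) • (fun j => io (x0 j)), ?_⟩
    change epsq X ((show ℚ from a) • (fun j => io (x0 j))) = a
    rw [epsq_smul, epsq_io, hx0, Int.cast_one, mul_one]
  ex0 := by
    intro x
    constructor
    · intro h
      have h : epsq X x = 0 := h
      obtain ⟨N, hN, x', hx⟩ := clear_all x
      have h1 : epsq X ((N : ℚ) • x) = 0 := by rw [epsq_smul, h, mul_zero]
      rw [hx, epsq_io] at h1
      have h2 : ∑ j, augm G (x' j) * X.aug j = 0 := by exact_mod_cast h1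
      obtain ⟨y, hy⟩ := (X.exact_zero x').1 h2
      refine ⟨(N : ℚ)⁻¹ • (fun j => io (y j)), ?_⟩
      rw [dX_apply, Matrix.smul_vecMul, vecMul_io, hy, ← hx, smul_smul,
        inv_mul_cancel₀ (by exact_mod_cast hN), one_smul]
    · rintro ⟨y, rfl⟩
      change epsq X (y ᵥ* Dq X 0) = 0
      obtain ⟨N, hN, y', hy⟩ := clear_all y
      rw [smul_cancel hN hy, Matrix.smul_vecMul, vecMul_io, epsq_smul, epsq_io,
        (X.exact_zero _).2 ⟨y', rfl⟩]
      simp
  ex := by
    intro k x
    constructor
    · intro h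
      have h : x ᵥ* Dq X k = 0 := h
      obtain ⟨N, hN, x', hx⟩ := clear_all x
      have h1 : ((N : ℚ) • x) ᵥ* Dq X k = 0 := by rw [Matrix.smul_vecMul, h, smul_zero]
      rw [hx, vecMul_io] at h1
      have h2 : x' ᵥ* X.d k = 0 := by
        funext j
        apply io_injective
        rw [congrFun h1 j]
        simp
      obtain ⟨y, hy⟩ := (X.exact_succ k x').1 h2
      refine ⟨(N : ℚ)⁻¹ • (fun j => io (y j)), ?_⟩
      rw [dX_apply, Matrix.smul_vecMul, vecMul_io, hy, ← hx, smul_smul,
        inv_mul_cancel₀ (by exact_mod_cast hN), one_smul]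
    · rintro ⟨y, rfl⟩
      change (y ᵥ* Dq X (k + 1)) ᵥ* Dq X k = 0
      obtain ⟨N, hN, y', hy⟩ := clear_all y
      rw [smul_cancel hN hy, Matrix.smul_vecMul, vecMul_io, Matrix.smul_vecMul, vecMul_io,
        (X.exact_succ k _).2 ⟨y', rfl⟩]
      funext j
      simp

end Pool.Agent.W721.ZB
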